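import Mathlib
import Pool.Agent.J4H39.K7
import Pool.Agent.J4H67.KT.Mix2

set_option autoImplicit false

/-! Project PC: pair correlations of invariant sets.  Definitions and exact statements. -/

namespace Pool.Agent.J4H26.PC

open Finset Filter Real
open Pool.Agent.J4H39 (T od ex pb ns rn stP stK lb GK Cm DV th0)

/-- bounded functions invariant under `T` -/
structure Iv (f : ℤ → ℝ) : Prop where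
  inv : ∀ n, f (T n) = f n
  bd : ∀ n, |f n| ≤ 1

/-- normalized sum over the integers of `[x, x + a)` -/
noncomputable def Ph (f : ℤ → ℝ) (x a : ℝ) : ℝ := (∑ n ∈ Finset.Ico ⌈x⌉ ⌈x + a⌉, f n) / max a 1

/-- mean square over the positions `x ∈ [κ N, κ N + N]` -/
noncomputable def VV (f : ℤ → ℝ) (κ a N : ℝ) : ℝ := (∫ x in (κ * N)..(κ * N + N), (Ph f x a) ^ 2) / N

/-- correlation of window averages at `x` and `3 ^ D x` -/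
noncomputable def GG (f g : ℤ → ℝ) (κ b X : ℝ) (D : ℕ) : ℝ :=
  (∫ x in (κ * X)..(κ * X + X), Ph f x b * Ph g (3 ^ D * x) (3 ^ D * b)) / X

/-- correlation along the forms `n`, `3 ^ D n + r`, `n ∈ [κ X, κ X + X)` -/
noncomputable def cc (f g : ℤ → ℝ) (κ X : ℝ) (D : ℕ) (r : ℤ) : ℝ :=
  (∑ n ∈ Finset.Ico ⌈κ * X⌉ ⌈κ * X + X⌉, f n * g (3 ^ D * n + r)) / max X 1

/-- (A0) `S_DV` with a rate -/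
def S_DVR : Prop := ∀ K c P : ℕ, ∀ᶠ z : ℕ in atTop, ∀ j, z ^ 20 ≤ j → j ≤ 2 * z ^ 20 →
  ∀ s : Fin K → ℤ × ℤ, GK (c * z ^ 12) (c * z ^ 14) s → Cm s → DV stK j s (z ^ 19) ≤ 1 / (z : ℝ) ^ P

/-- (A0) `S_LAB` with a rate -/
def S_LABR : Prop := ∀ K c P : ℕ, ∀ᶠ z : ℕ in atTop, ∀ j, z ^ 20 ≤ j → j ≤ 2 * z ^ 20 →
  ∀ s : Fin K → ℤ × ℤ, GK (c * z ^ 12) (c * z ^ 14) s → pb j (fun w => ¬ ((j - z ^ 11) / 2 ≤ od j w ∧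
    GK ((2 * c + 4) * z ^ 12) ((2 * c + 4) * z ^ 14) (rn stK j s w))) ≤ 1 / (z : ℝ) ^ P

/-- (A1) one step for window averages -/
def S_ST1 : Prop := ∃ C : ℝ, 0 < C ∧ ∀ j : ℕ, 1 ≤ j → ∀ f : ℤ → ℝ, Iv f → ∀ x a : ℝ, (2 : ℝ) ^ (2 * j) ≤ a →
  |Ph f x a - ex j (fun y => Ph f (3 ^ od j y * x / 2 ^ j) (3 ^ od j y * a / 2 ^ j))| ≤ C * (j : ℝ) ^ (-(1 / 80) : ℝ)

/-- (A2) many steps for window averages, down to windows of length about `2 ^ (w ^ 52)` -/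
def S_STM : Prop := ∃ C : ℝ, 0 < C ∧ ∀ᶠ w : ℕ in atTop, ∀ t : ℕ, w ^ 52 ≤ t → t ≤ 100 * w ^ 88 →
  ∀ f : ℤ → ℝ, Iv f → ∀ x a : ℝ, (2 : ℝ) ^ (th0 * t + (w : ℝ) ^ 52) ≤ a →
  |Ph f x a - ex t (fun y => Ph f (3 ^ od t y * x / 2 ^ t) (3 ^ od t y * a / 2 ^ t))| ≤ C / √w

/-- (A3) the transfer for the forms `n`, `3 ^ D n`: 48 stages of `j` steps -/
def S_FT : Prop := ∃ C : ℝ, 0 < C ∧ ∀ᶠ w : ℕ in atTop, ∀ j, w ^ 80 ≤ j → j ≤ 2 * w ^ 80 →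
  ∀ f g : ℤ → ℝ, Iv f → Iv g → ∀ κ : ℝ, |κ| ≤ 1 → ∀ X : ℝ, (2 : ℝ) ^ (19 * j) ≤ X → ∀ D : ℕ, w ^ 42 ≤ D → D ≤ w ^ 48 →
  |cc f g κ X D 0 - ex (48 * j) (fun y => cc f g κ (3 ^ od (48 * j) y * X / 2 ^ (48 * j))
    ((rn stP (48 * j) ((D : ℤ), 0) y).1.toNat) 0)| ≤ C / w

/-- (A4) window averages and forms -/
def S_GAM : Prop := ∃ C : ℝ, 0 < C ∧ ∀ᶠ w : ℕ in atTop, ∀ f g : ℤ → ℝ, Iv f → Iv g → ∀ κ X b : ℝ, |κ| ≤ 1 →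
  (2 : ℝ) ^ (w ^ 80) ≤ X → (w : ℝ) ^ 2 ≤ b → b ≤ (2 : ℝ) ^ (w ^ 54) → ∀ D : ℕ, D ≤ w ^ 48 →
  |GG f g κ b X D - cc f g κ X D 0| ≤ C / w

/-- (A5) the correlations along forms vary slowly -/
def S_LIP : Prop := ∃ C : ℝ, 0 < C ∧ ∀ᶠ w : ℕ in atTop, ∀ f g : ℤ → ℝ, Iv f → Iv g → ∀ κ X : ℝ, |κ| ≤ 1 →
  (2 : ℝ) ^ (w ^ 80) ≤ X → ∀ a D d : ℕ, a ≤ w ^ 48 → D ≤ 2 * w ^ 48 → d ≤ w ^ 48 →
  |cc f g κ (3 ^ a * X) (D + d) 0 - cc f g κ X D 0| ≤ ((a : ℝ) + d) * (C / (w : ℝ) ^ 39) + C / (w : ℝ) ^ 2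

/-- (A6) far from the diagonal the two exponents are independent, tested at the scale `w ^ 39` -/
def S_LAW : Prop := ∃ C : ℝ, 0 < C ∧ ∀ᶠ w : ℕ in atTop, ∀ j, w ^ 80 ≤ j → j ≤ 2 * w ^ 80 →
  ∀ D : ℤ, (w : ℤ) ^ 42 ≤ D → D ≤ (w : ℤ) ^ 48 → ∀ φ : ℤ → ℤ → ℝ, (∀ a d, |φ a d| ≤ 1) →
  (∀ a d a' d', |φ a d - φ a' d'| ≤ ((|a - a'| + |d - d'| : ℤ) : ℝ) / (w : ℝ) ^ 39 + 1 / w) →
  |ex (48 * j) (fun y => φ (od (48 * j) y) (rn stP (48 * j) (D, 0) y).1) -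
    ex (48 * j) (fun y => ex (48 * j) (fun y' => φ (od (48 * j) y) (D + od (48 * j) y' - od (48 * j) y)))| ≤ C / w

/-- (A7) one band, at the height `w ^ 88` -/
def S_BASE : Prop := ∃ C : ℝ, 0 < C ∧ ∀ᶠ w : ℕ in atTop, ∀ j, w ^ 80 ≤ j → j ≤ 2 * w ^ 80 → ∀ f : ℤ → ℝ, Iv f →
  ∀ κ : ℝ, |κ| ≤ 1 → ∀ (l : ℕ) (a : ℝ), 20 * j ≤ l → l ≤ 21 * j → (w : ℝ) ^ 88 ≤ logb 2 a → logb 2 a ≤ 4 * (w : ℝ) ^ 88 →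
  |VV f κ a (2 ^ l * a) - VV f κ (2 ^ ⌊48 * th0 * j⌋₊ * a) (2 ^ l * a)| ≤ C / √w

/-- (A8) one band, at all heights -/
def S_KEY : Prop := ∃ C : ℝ, 0 < C ∧ ∀ᶠ w : ℕ in atTop, ∀ j, w ^ 80 ≤ j → j ≤ 2 * w ^ 80 → ∀ f : ℤ → ℝ, Iv f →
  ∀ κ : ℝ, |κ| ≤ 1 → ∀ (l : ℕ) (a : ℝ), 20 * j ≤ l → l ≤ 21 * j → (w : ℝ) ^ 88 ≤ logb 2 a →
  VV f κ a (2 ^ l * a) ≤ VV f κ (2 ^ ⌊48 * th0 * j⌋₊ * a) (2 ^ l * a) + C / √w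

end Pool.Agent.J4H26.PC
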