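import Mathlib
import Pool.Agent.J4H26.PC.Q0

set_option autoImplicit false

/-! Project PC, second part: definitions and exact statements. -/

namespace Pool.Agent.J4H26.PC

open Finset Filter Real
open Pool.Agent.J4H39 (T od ex pb ns rn stP stK lb GK Cm DV th0 GS)

/-- correlation along the pair of forms of a label: the pairs `(y, y')` with `3 ^ (-D)⁺ y' = 3 ^ D⁺ y + r`,
`y ∈ [κ X, κ X + X)` -/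
noncomputable def cg (f g : ℤ → ℝ) (κ X : ℝ) (s : ℤ × ℤ) : ℝ :=
  if 0 ≤ s.1 then cc f g κ X s.1.toNat s.2 else cc g f κ (X / 3 ^ (-s.1).toNat) (-s.1).toNat (-s.2)

/-- an invariant function with mean zero and with mean square `q` near `κ`, with the rate `ψ` -/
structure Cent (ψ : ℝ → ℝ) (f : ℤ → ℝ) (κ q : ℝ) : Prop where
  iv : Iv f
  kp : |κ| ≤ 1
  q0 : 0 ≤ q
  q1 : q ≤ 1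
  mean : ∀ X x y : ℝ, 2 ≤ X → κ * X ≤ x → x ≤ y → y ≤ κ * X + X → |∑ n ∈ Finset.Ico ⌈x⌉ ⌈y⌉, f n| ≤ ψ X * X
  sq : ∀ X : ℝ, 2 ≤ X → |cc f f κ X 0 0 - q| ≤ ψ X

/-- (B1) one stage from a label with `D ≥ 0`; the label reached can have any sign -/
def S_G1P : Prop := ∃ C : ℝ, 0 < C ∧ ∀ᶠ w : ℕ in atTop, ∀ j, w ^ 80 ≤ j → j ≤ 2 * w ^ 80 →
  ∀ f g : ℤ → ℝ, Iv f → Iv g → ∀ κ : ℝ, |κ| ≤ 1 → ∀ X : ℝ, (2 : ℝ) ^ (3 * j) ≤ X →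
  ∀ (D : ℕ) (r : ℤ), D ≤ w ^ 48 → |r| ≤ 4 ^ (w ^ 56) →
  |cc f g κ X D r - ex j (fun y => cg f g κ (3 ^ od j y * X / 2 ^ j) (rn stP j ((D : ℤ), r) y))| ≤ C / w

/-- (B2) one stage from any label -/
def S_G1 : Prop := ∃ C : ℝ, 0 < C ∧ ∀ᶠ w : ℕ in atTop, ∀ j, w ^ 80 ≤ j → j ≤ 2 * w ^ 80 →
  ∀ f g : ℤ → ℝ, Iv f → Iv g → ∀ κ : ℝ, |κ| ≤ 1 → ∀ X : ℝ, (2 : ℝ) ^ (4 * j) ≤ X →
  ∀ s : ℤ × ℤ, |s.1| ≤ w ^ 48 → |s.2| ≤ 4 ^ (w ^ 56) →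
  |cg f g κ X s - ex j (fun y => cg f g κ (3 ^ od j y * X / 2 ^ j) (rn stP j s y))| ≤ C / w

/-- (B3) the transfer over all scales: from the height about `v ^ 95` down to the height about `v ^ 88`.  The exponent `t`
depends only on the height of the start. -/
def S_GT : Prop := ∃ C : ℝ, 0 < C ∧ ∀ᶠ v : ℕ in atTop, ∀ X : ℝ, 0 < X → (v : ℝ) ^ 94 ≤ logb 2 X → logb 2 X ≤ 3 * (v : ℝ) ^ 95 →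
  ∃ t : ℕ, 9 * (v : ℝ) ^ 88 ≤ logb 2 X - th0 * t ∧ logb 2 X - th0 * t ≤ 12 * (v : ℝ) ^ 88 ∧
    ∀ f g : ℤ → ℝ, Iv f → Iv g → ∀ κ : ℝ, |κ| ≤ 1 → ∀ D : ℕ, 4 * D ≤ v ^ 48 →
    |cc f g κ X D 0 - ex t (fun y => cg f g κ (3 ^ od t y * X / 2 ^ t) (rn stP t ((D : ℤ), 0) y))| ≤ C / √v

/-- (A8') `S_KEY` for all ratios: one band, at all heights (proved: `t_KEYR`) -/
def S_KEYR : Prop := ∃ C : ℝ, 0 < C ∧ ∀ᶠ w : ℕ in atTop, ∀ j, w ^ 80 ≤ j → j ≤ 2 * w ^ 80 → ∀ f : ℤ → ℝ, Iv f →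
  ∀ κ : ℝ, |κ| ≤ 1 → ∀ ρ a : ℝ, (2 : ℝ) ^ (20 * j) ≤ ρ → (w : ℝ) ^ 88 ≤ logb 2 a →
  VV f κ a (ρ * a) ≤ VV f κ (2 ^ ⌊48 * th0 * j⌋₊ * a) (ρ * a) + C / √w

/-- (B4) windows a little shorter than the range -/
def S_A : Prop := ∀ ψ : ℝ → ℝ, Tendsto ψ atTop (nhds 0) → ∀ ε : ℝ, 0 < ε → ∀ᶠ v : ℕ in atTop, ∀ (f : ℤ → ℝ) (κ q : ℝ),
  Cent ψ f κ q → ∀ a N : ℝ, 0 < a → (2 : ℝ) ^ (10 * v ^ 80) * a ≤ N → N ≤ (2 : ℝ) ^ (100 * v ^ 80) * a →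
  6 * (v : ℝ) ^ 88 ≤ logb 2 a → VV f κ a N ≤ ε

/-- (B5) far from the diagonal there is no correlation at small heights -/
def S_UNM : Prop := ∀ ψ : ℝ → ℝ, Tendsto ψ atTop (nhds 0) → ∀ ε : ℝ, 0 < ε → ∀ᶠ v : ℕ in atTop, ∀ (f : ℤ → ℝ) (κ q : ℝ),
  Cent ψ f κ q → ∀ X : ℝ, 0 < X → 7 * (v : ℝ) ^ 88 ≤ logb 2 X → logb 2 X ≤ 14 * (v : ℝ) ^ 88 →
  ∀ D : ℕ, v ^ 47 ≤ D → 2 * D ≤ v ^ 48 → |cc f f κ X D 0| ≤ ε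

/-- (B6) the correlation along the forms `n`, `3 ^ D n` is the probability of merging -/
def S_CORR : Prop := ∀ ψ : ℝ → ℝ, Tendsto ψ atTop (nhds 0) → ∀ ε η : ℝ, 0 < ε → 0 < η → ∀ᶠ v : ℕ in atTop,
  ∀ X : ℝ, 0 < X → (v : ℝ) ^ 94 * √v ≤ logb 2 X → logb 2 X ≤ 3 * (v : ℝ) ^ 95 →
  ∃ t : ℕ, 9 * (v : ℝ) ^ 88 ≤ logb 2 X - th0 * t ∧ logb 2 X - th0 * t ≤ 12 * (v : ℝ) ^ 88 ∧
    ∀ (f : ℤ → ℝ) (κ q : ℝ), Cent ψ f κ q → ∀ D : ℕ, 4 * D ≤ v ^ 48 →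
    |cc f f κ X D 0 - q * (1 - ns t ((D : ℤ), 0))| ≤ ε + 8 * (ns t ((D : ℤ), 0) - ns (t + ⌊η * t⌋₊) ((D : ℤ), 0))

/-- (B7) the mean squares of the averages over the windows of length about `N ^ θ` -/
def S_VLAW : Prop := ∀ ψ : ℝ → ℝ, Tendsto ψ atTop (nhds 0) → ∀ θ : ℝ, 0 < θ → θ < 1 → ∀ ε : ℝ, 0 < ε → ∀ᶠ N : ℕ in atTop,
  ∀ (f : ℤ → ℝ) (κ q : ℝ), Cent ψ f κ q → ∀ a : ℝ, (N : ℝ) ^ θ / 2 ≤ a → a ≤ 2 * (N : ℝ) ^ θ →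
  |VV f κ a N - q * (1 - 2 / π * arcsin √θ)| ≤ ε

/-- (B8) the pair correlations at the distances up to `N ^ θ` -/
def S_PAIRS : Prop := ∀ ψ : ℝ → ℝ, Tendsto ψ atTop (nhds 0) → ∀ θ : ℝ, 0 < θ → θ < 1 → ∀ ε : ℝ, 0 < ε → ∀ᶠ N : ℕ in atTop,
  ∀ (f : ℤ → ℝ) (κ q : ℝ), Cent ψ f κ q →
  |(∑ n ∈ Finset.Ico ⌈κ * N⌉ ⌈κ * N + N⌉, ∑ h ∈ Finset.Icc 1 ⌊(N : ℝ) ^ θ⌋₊, f n * f (n + (h : ℕ))) / (N * ⌊(N : ℝ) ^ θ⌋₊) -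
    q * (1 - 2 / π * arcsin √θ)| ≤ ε

end Pool.Agent.J4H26.PC
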