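import Mathlib
import Pool.Agent.J4H26.PC.Q1

set_option autoImplicit false

/-! Project PC, last part: invariant sets.  Definitions and exact statements. -/

namespace Pool.Agent.J4H26.PC

open Finset Filter Real
open Pool.Agent.J4H39 (T)

/-- the set is invariant on the integers of sign `s` -/
def InvS (s : ℤ) (R : Set ℤ) : Prop := ∀ n : ℤ, 0 < s * n → (n ∈ R ↔ T n ∈ R)

/-- the number of the integers `n` of sign `s` in `R` with `|n| ≤ X` -/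
noncomputable def ct (s : ℤ) (R : Set ℤ) (X : ℝ) : ℝ := ({n : ℤ | 0 < s * n ∧ ((s * n : ℤ) : ℝ) ≤ X ∧ n ∈ R}.ncard : ℝ)

open Classical in
/-- the centered indicator function of `R` on the integers of sign `s` -/
noncomputable def fR (s : ℤ) (R : Set ℤ) (δ : ℝ) (n : ℤ) : ℝ := if 0 < s * n then (if n ∈ R then 1 - δ else -δ) else 0

/-- the left end of the range: `0` for `s = 1`, `-1` for `s = -1` -/
noncomputable def kS (s : ℤ) : ℝ := if s = 1 then 0 else -1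

/-- (C1) the centered indicator functions satisfy `Cent`, with a common rate (from `TH237.RT.int_rate`) -/
def S_CENT : Prop := ∃ ψ : ℝ → ℝ, Tendsto ψ atTop (nhds 0) ∧ ∀ s : ℤ, (s = 1 ∨ s = -1) → ∀ R : Set ℤ, InvS s R →
  ∃ δ : ℝ, 0 ≤ δ ∧ δ ≤ 1 ∧ Tendsto (fun N : ℕ => ct s R N / N) atTop (nhds δ) ∧ Cent ψ (fR s R δ) (kS s) (δ * (1 - δ))

/-- the proportion of the pairs `n`, `n + h` with `0 < s n ≤ N`, `1 ≤ h ≤ H`, of which exactly one is in `R` -/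
noncomputable def dif (s : ℤ) (R : Set ℤ) (N H : ℕ) : ℝ :=
  ({p : ℤ × ℕ | (0 < s * p.1 ∧ s * p.1 ≤ N) ∧ (1 ≤ p.2 ∧ p.2 ≤ H) ∧ ¬ (p.1 ∈ R ↔ p.1 + p.2 ∈ R)}.ncard : ℝ) / (N * H)

/-- the mean square of the deviation of the proportion of `R` in `n + 1, …, n + H` from `δ`, for `0 < s n ≤ N` -/
noncomputable def vr (s : ℤ) (R : Set ℤ) (δ : ℝ) (N H : ℕ) : ℝ :=
  (∑ m ∈ Finset.Icc 1 N, (({h : ℕ | (1 ≤ h ∧ h ≤ H) ∧ s * m + h ∈ R}.ncard : ℝ) / H - δ) ^ 2) / N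

/-- (C2) pairs -/
def S_DIF : Prop := ∀ θ : ℝ, 0 < θ → θ < 1 → ∀ s : ℤ, (s = 1 ∨ s = -1) → ∀ ε : ℝ, 0 < ε → ∀ᶠ N : ℕ in atTop, ∀ R : Set ℤ, InvS s R →
  ∀ δ : ℝ, Tendsto (fun N : ℕ => ct s R N / N) atTop (nhds δ) →
  |dif s R N ⌊(N : ℝ) ^ θ⌋₊ - 2 * (δ * (1 - δ)) * (2 / π * arcsin √θ)| ≤ ε

/-- (C3) variance -/
def S_VAR : Prop := ∀ θ : ℝ, 0 < θ → θ < 1 → ∀ s : ℤ, (s = 1 ∨ s = -1) → ∀ ε : ℝ, 0 < ε → ∀ᶠ N : ℕ in atTop, ∀ R : Set ℤ, InvS s R →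
  ∀ δ : ℝ, Tendsto (fun N : ℕ => ct s R N / N) atTop (nhds δ) →
  |vr s R δ N ⌊(N : ℝ) ^ θ⌋₊ - δ * (1 - δ) * (1 - 2 / π * arcsin √θ)| ≤ ε

end Pool.Agent.J4H26.PC
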