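import Mathlib
import Pool.Agent.J4H26.PC.Q0
import Pool.Agent.J4H26.AF.Fin

set_option autoImplicit false

/-! Project PC: first facts on window averages and correlations. -/

namespace Pool.Agent.J4H26.PC

open Finset Filter Real MeasureTheory
open Pool.Agent.J4H39 (T od ex pb ns rn stP stK lb GK Cm DV th0 ex_mono ex_congr ex_add ex_mul ex_const ex_sum ex_nonneg
  pb_nonneg pb_mono Per per_od ex_pair pb_od pb_le_one th0_pos th0_lt th0_gt three_pow ex_per)

theorem sum_bd {f : ℤ → ℝ} (hf : ∀ n, |f n| ≤ 1) {p q : ℤ} (h : p ≤ q) : |∑ n ∈ Finset.Ico p q, f n| ≤ ((q - p : ℤ) : ℝ) := by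
  refine (abs_sum_le_sum_abs _ _).trans ?_
  refine (sum_le_card_nsmul _ _ 1 (fun n _ => hf n)).trans ?_
  rw [Int.card_Ico, nsmul_eq_mul, mul_one]
  have : (((q - p).toNat : ℕ) : ℤ) = q - p := Int.toNat_of_nonneg (by omega)
  rw [← this]
  push_cast
  exact le_rfl

theorem ceil_gap {x a : ℝ} : ((⌈x + a⌉ - ⌈x⌉ : ℤ) : ℝ) ≤ a + 1 := by
  have h1 := Int.ceil_lt_add_one (x + a)
  have h2 := Int.le_ceil x
  push_cast
  linarith

theorem avg_bd {f : ℤ → ℝ} (hf : ∀ n, |f n| ≤ 1) (x a : ℝ) : |(∑ n ∈ Finset.Ico ⌈x⌉ ⌈x + a⌉, f n) / max a 1| ≤ 2 := by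
  have hm : (0 : ℝ) < max a 1 := lt_of_lt_of_le one_pos (le_max_right _ _)
  rcases le_or_gt 0 a with ha | ha
  · rw [abs_div, abs_of_pos hm, div_le_iff₀ hm]
    have h1 : ⌈x⌉ ≤ ⌈x + a⌉ := Int.ceil_le_ceil (by linarith)
    have h2 := sum_bd hf h1
    have h3 := ceil_gap (x := x) (a := a)
    have h4 := le_max_left a 1
    have h5 := le_max_right a 1
    linarith
  · have h1 : ⌈x + a⌉ ≤ ⌈x⌉ := Int.ceil_le_ceil (by linarith)
    rw [Finset.Ico_eq_empty (by omega)]
    simp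

theorem Ph_bd {f : ℤ → ℝ} (hf : Iv f) (x a : ℝ) : |Ph f x a| ≤ 2 := avg_bd hf.bd x a

theorem cc_bd {f g : ℤ → ℝ} (hf : Iv f) (hg : Iv g) (κ X : ℝ) (D : ℕ) (r : ℤ) : |cc f g κ X D r| ≤ 2 := by
  apply avg_bd (f := fun n => f n * g (3 ^ D * n + r))
  intro n
  rw [abs_mul]
  have h1 := hf.bd n
  have h2 := hg.bd (3 ^ D * n + r)
  exact mul_le_one₀ h1 (abs_nonneg _) h2

theorem Ph_meas (f : ℤ → ℝ) (a : ℝ) : Measurable (fun x => Ph f x a) := by
  unfold Ph
  apply Measurable.div_const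
  have h : Measurable (fun p : ℤ × ℤ => ∑ n ∈ Finset.Ico p.1 p.2, f n) := Measurable.of_discrete
  exact h.comp ((Int.measurable_ceil).prodMk (Int.measurable_ceil.comp (measurable_id.add_const a)))

theorem ii_bdd {F : ℝ → ℝ} (hm : Measurable F) {C : ℝ} (hb : ∀ x, |F x| ≤ C) (p q : ℝ) :
    IntervalIntegrable F volume p q := by
  apply (intervalIntegrable_const (c := C)).mono_fun hm.aestronglyMeasurable
  filter_upwards with x
  rw [Real.norm_eq_abs, Real.norm_eq_abs]
  exact (hb x).trans (le_abs_self _)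

theorem ex_abs {j : ℕ} {F : ℤ → ℝ} {c : ℝ} (h : ∀ y, |F y| ≤ c) : |ex j F| ≤ c := by
  rw [abs_le]
  constructor
  · rw [← ex_const j (-c)]; exact ex_mono (fun y => (abs_le.mp (h y)).1)
  · rw [← ex_const j c]; exact ex_mono (fun y => (abs_le.mp (h y)).2)

theorem ex_sub (j : ℕ) (F G : ℤ → ℝ) : ex j F - ex j G = ex j (fun y => F y - G y) := by
  have h := ex_add j F (fun y => (-1) * G y)
  rw [ex_mul] at h
  have h2 : ex j (fun y => F y - G y) = ex j (fun y => F y + (-1) * G y) := ex_congr (fun y => by ring)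
  rw [h2, h]; ring

open Classical in
theorem ex_cmp {t : ℕ} {F G : ℤ → ℝ} {Bad : ℤ → Prop} {c M : ℝ} (hc : 0 ≤ c)
    (h1 : ∀ y, ¬ Bad y → |F y - G y| ≤ c) (h2 : ∀ y, |F y - G y| ≤ M) : |ex t F - ex t G| ≤ c + M * pb t Bad := by
  have hM : 0 ≤ M := (abs_nonneg _).trans (h2 0)
  rw [ex_sub]
  have e : c + M * pb t Bad = ex t (fun y => c + M * (if Bad y then 1 else 0)) := by
    rw [ex_add, ex_const, ex_mul]; rfl
  rw [e, abs_le]
  have key : ∀ y, |F y - G y| ≤ c + M * (if Bad y then 1 else 0) := by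
    intro y
    by_cases h : Bad y
    · rw [if_pos h]; have := h2 y; linarith
    · rw [if_neg h]; have := h1 y h; linarith
  constructor
  · have : -ex t (fun y => c + M * (if Bad y then (1 : ℝ) else 0)) = ex t (fun y => (-1) * (c + M * (if Bad y then 1 else 0))) := by
      rw [ex_mul]; ring
    rw [this]
    apply ex_mono
    intro y
    have := (abs_le.mp (key y)).1
    linarith
  · exact ex_mono (fun y => (abs_le.mp (key y)).2)

theorem ex_cmp2 {t t' : ℕ} {F G : ℤ → ℤ → ℝ} {Bad Bad' : ℤ → Prop} {c M : ℝ} (hc : 0 ≤ c)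
    (h1 : ∀ y y', ¬ Bad y → ¬ Bad' y' → |F y y' - G y y'| ≤ c) (h2 : ∀ y y', |F y y' - G y y'| ≤ M) :
    |ex t (fun y => ex t' (F y)) - ex t (fun y => ex t' (G y))| ≤ c + M * pb t' Bad' + M * pb t Bad := by
  have hM : 0 ≤ M := (abs_nonneg _).trans (h2 0 0)
  apply ex_cmp
  · have := pb_nonneg t' Bad'; positivity
  · intro y hy
    exact ex_cmp hc (fun y' hy' => h1 y y' hy hy') (h2 y)
  · intro y
    rw [ex_sub]
    exact ex_abs (h2 y)

theorem int_ex {t : ℕ} {F : ℤ → ℝ → ℝ} {p q : ℝ} (h : ∀ y, IntervalIntegrable (F y) volume p q) :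
    (∫ x in p..q, ex t (fun y => F y x)) = ex t (fun y => ∫ x in p..q, F y x) := by
  unfold ex
  rw [intervalIntegral.integral_div, intervalIntegral.integral_finsetSum (fun i _ => h _)]

/-- change of the variable -/
theorem cov {H : ℝ → ℝ} {κ N c : ℝ} (hc : 0 < c) (hN : 0 < N) :
    (∫ x in (κ * N)..(κ * N + N), H (c * x)) / N = (∫ x in (κ * (c * N))..(κ * (c * N) + c * N), H x) / (c * N) := by
  rw [intervalIntegral.integral_comp_mul_left H hc.ne', smul_eq_mul]
  rw [show c * (κ * N) = κ * (c * N) by ring, show c * (κ * N + N) = κ * (c * N) + c * N by ring]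
  field_simp

theorem GG_eq (f g : ℤ → ℝ) {κ a N : ℝ} (hN : 0 < N) (t o o' : ℕ) (h : o ≤ o') :
    (∫ x in (κ * N)..(κ * N + N), Ph f (3 ^ o * x / 2 ^ t) (3 ^ o * a / 2 ^ t) * Ph g (3 ^ o' * x / 2 ^ t) (3 ^ o' * a / 2 ^ t)) / N =
      GG f g κ (3 ^ o * a / 2 ^ t) (3 ^ o * N / 2 ^ t) (o' - o) := by
  obtain ⟨D, rfl⟩ := Nat.exists_eq_add_of_le h
  rw [Nat.add_sub_cancel_left]
  unfold GG
  have hc : (0 : ℝ) < 3 ^ o / 2 ^ t := by positivity
  have h1 := cov (H := fun x => Ph f x (3 ^ o * a / 2 ^ t) * Ph g (3 ^ D * x) (3 ^ D * (3 ^ o * a / 2 ^ t))) (κ := κ) hc hN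
  rw [show (3 : ℝ) ^ o / 2 ^ t * N = 3 ^ o * N / 2 ^ t by ring] at h1
  rw [← h1]
  congr 1
  apply intervalIntegral.integral_congr
  intro x _
  simp only
  rw [show (3 : ℝ) ^ (o + D) * x / 2 ^ t = 3 ^ D * (3 ^ o / 2 ^ t * x) by rw [pow_add]; ring,
    show (3 : ℝ) ^ (o + D) * a / 2 ^ t = 3 ^ D * (3 ^ o * a / 2 ^ t) by rw [pow_add]; ring,
    show (3 : ℝ) ^ o * x / 2 ^ t = 3 ^ o / 2 ^ t * x by ring]

/-- the correlation of two words -/
noncomputable def PG (f : ℤ → ℝ) (κ a N : ℝ) (t o o' : ℕ) : ℝ :=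
  GG f f κ (3 ^ min o o' * a / 2 ^ t) (3 ^ min o o' * N / 2 ^ t) (max o o' - min o o')

/-- the correlation of two exponents along forms -/
noncomputable def PK (f : ℤ → ℝ) (κ N : ℝ) (t o o' : ℕ) : ℝ :=
  cc f f κ (3 ^ min o o' * N / 2 ^ t) (max o o' - min o o') 0

theorem PG_eq (f : ℤ → ℝ) {κ a N : ℝ} (hN : 0 < N) (t o o' : ℕ) :
    (∫ x in (κ * N)..(κ * N + N), Ph f (3 ^ o * x / 2 ^ t) (3 ^ o * a / 2 ^ t) * Ph f (3 ^ o' * x / 2 ^ t) (3 ^ o' * a / 2 ^ t)) / N =
      PG f κ a N t o o' := by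
  unfold PG
  rcases le_total o o' with h | h
  · rw [min_eq_left h, max_eq_right h]
    exact GG_eq f f hN t o o' h
  · rw [min_eq_right h, max_eq_left h]
    rw [← GG_eq f f hN t o' o h]
    congr 1
    apply intervalIntegral.integral_congr
    intro x _
    simp only
    ring

theorem step1 {f : ℤ → ℝ} (hf : Iv f) {κ a N ε : ℝ} (hN : 0 < N) {t : ℕ}
    (h : ∀ x, |Ph f x a - ex t (fun y => Ph f (3 ^ od t y * x / 2 ^ t) (3 ^ od t y * a / 2 ^ t))| ≤ ε) :
    |VV f κ a N - ex t (fun y => ex t (fun y' => PG f κ a N t (od t y) (od t y')))| ≤ 4 * ε := by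
  have hε : 0 ≤ ε := (abs_nonneg _).trans (h 0)
  set A : ℤ → ℝ → ℝ := fun y x => Ph f (3 ^ od t y * x / 2 ^ t) (3 ^ od t y * a / 2 ^ t) with hA
  have hAm : ∀ y, Measurable (A y) := by
    intro y
    have h1 := Ph_meas f (3 ^ od t y * a / 2 ^ t)
    have h2 : Measurable (fun x : ℝ => 3 ^ od t y * x / 2 ^ t) := (measurable_id.const_mul _).div_const _
    exact h1.comp h2
  have hAb : ∀ y x, |A y x| ≤ 2 := fun y x => Ph_bd hf _ _
  have hE : ∀ x, |ex t (fun y => A y x)| ≤ 2 := fun x => ex_abs (fun y => hAb y x)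
  have hEm : Measurable (fun x => ex t (fun y => A y x)) := by
    unfold ex
    apply Measurable.div_const
    exact Finset.measurable_sum _ (fun i _ => hAm _)
  have e1 : ex t (fun y => ex t (fun y' => PG f κ a N t (od t y) (od t y'))) =
      (∫ x in (κ * N)..(κ * N + N), (ex t (fun y => A y x)) ^ 2) / N := by
    have h1 : ∀ x, (ex t (fun y => A y x)) ^ 2 = ex t (fun y => ex t (fun y' => A y x * A y' x)) := by
      intro x
      rw [sq]
      rw [show ex t (fun y => A y x) * ex t (fun y => A y x) = ex t (fun y' => A y' x) * ex t (fun y => A y x) from rfl,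
        ← ex_mul]
      apply ex_congr
      intro y
      rw [mul_comm, ← ex_mul]
    have h2 : ∀ y y', Measurable (fun x => A y x * A y' x) := fun y y' => (hAm y).mul (hAm y')
    have h3 : ∀ y y' x, |A y x * A y' x| ≤ 4 := by
      intro y y' x
      rw [abs_mul]
      have := mul_le_mul (hAb y x) (hAb y' x) (abs_nonneg _) (by norm_num)
      linarith
    rw [intervalIntegral.integral_congr (fun x _ => h1 x)]
    rw [int_ex (F := fun y x => ex t (fun y' => A y x * A y' x)) (fun y => ii_bdd (by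
      unfold ex
      apply Measurable.div_const
      exact Finset.measurable_sum _ (fun i _ => h2 _ _)) (fun x => ex_abs (fun y' => h3 y y' x)) _ _)]
    have h4 : ∀ y, (∫ x in (κ * N)..(κ * N + N), ex t (fun y' => A y x * A y' x)) =
        ex t (fun y' => ∫ x in (κ * N)..(κ * N + N), A y x * A y' x) := fun y =>
      int_ex (F := fun y' x => A y x * A y' x) (fun y' => ii_bdd (h2 y y') (h3 y y') _ _)
    rw [ex_congr h4, div_eq_inv_mul, ← ex_mul]
    apply ex_congr
    intro y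
    rw [← ex_mul]
    apply ex_congr
    intro y'
    rw [← PG_eq f hN t (od t y) (od t y'), div_eq_inv_mul]
  rw [e1]
  unfold VV
  rw [← sub_div, ← intervalIntegral.integral_sub (ii_bdd ((Ph_meas f a).pow_const 2) (C := 4) (fun x => by
      rw [abs_pow]; have := Ph_bd hf x a; have h0 := abs_nonneg (Ph f x a); nlinarith) _ _)
    (ii_bdd (hEm.pow_const 2) (C := 4) (fun x => by
      rw [abs_pow]; have := hE x; have h0 := abs_nonneg (ex t (fun y => A y x)); nlinarith) _ _)]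
  rw [abs_div, abs_of_pos hN, div_le_iff₀ hN]
  have h5 := intervalIntegral.norm_integral_le_of_norm_le_const (a := κ * N) (b := κ * N + N) (C := 4 * ε)
    (f := fun x => Ph f x a ^ 2 - ex t (fun y => A y x) ^ 2) (fun x _ => by
      rw [Real.norm_eq_abs, show Ph f x a ^ 2 - ex t (fun y => A y x) ^ 2 =
        (Ph f x a - ex t (fun y => A y x)) * (Ph f x a + ex t (fun y => A y x)) by ring, abs_mul]
      have h6 := h x
      have h7 : |Ph f x a + ex t (fun y => A y x)| ≤ 4 := by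
        refine (abs_add_le _ _).trans ?_
        have := Ph_bd hf x a
        have := hE x
        linarith
      have := mul_le_mul h6 h7 (abs_nonneg _) hε
      linarith)
  rw [Real.norm_eq_abs] at h5
  refine h5.trans (le_of_eq ?_)
  rw [show κ * N + N - κ * N = N by ring, abs_of_pos hN]

end Pool.Agent.J4H26.PC
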