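import Mathlib
import Pool.Agent.J4H26.PC.B1

set_option autoImplicit false

/-! Project PC: from the mean square of window averages to correlations along forms. -/

namespace Pool.Agent.J4H26.PC

open Finset Filter Real MeasureTheory
open Pool.Agent.J4H39 (T od ex pb ns rn stP stK lb GK Cm DV th0 ex_mono ex_congr ex_add ex_mul ex_const ex_sum ex_nonneg
  pb_nonneg pb_mono Per per_od ex_pair pb_od pb_le_one th0_pos th0_lt th0_gt three_pow ex_per)

theorem GG_bd {f g : ℤ → ℝ} (hf : Iv f) (hg : Iv g) {κ b X : ℝ} (hX : 0 < X) (D : ℕ) : |GG f g κ b X D| ≤ 4 := by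
  unfold GG
  rw [abs_div, abs_of_pos hX, div_le_iff₀ hX]
  have h5 := intervalIntegral.norm_integral_le_of_norm_le_const (a := κ * X) (b := κ * X + X) (C := 4)
    (f := fun x => Ph f x b * Ph g (3 ^ D * x) (3 ^ D * b)) (fun x _ => by
      rw [Real.norm_eq_abs, abs_mul]
      have := mul_le_mul (Ph_bd hf x b) (Ph_bd hg (3 ^ D * x) (3 ^ D * b)) (abs_nonneg _) (by norm_num)
      linarith)
  rw [Real.norm_eq_abs] at h5
  refine h5.trans (le_of_eq ?_)
  rw [show κ * X + X - κ * X = X by ring, abs_of_pos hX]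

/-- deviations of the number of odd steps -/
theorem pb_dev_w {w t : ℕ} (hw : 1 ≤ w) (ht : 1 ≤ t) (ht2 : t ≤ 100 * w ^ 88) :
    pb t (fun y => (w : ℝ) ^ 45 ≤ |2 * (od t y : ℝ) - t|) ≤ 400 / w := by
  refine (pb_od ht (δ := (w : ℝ) ^ 45) (by positivity)).trans ?_
  have hw0 : (0 : ℝ) < w := by exact_mod_cast hw
  have hw1 : (1 : ℝ) ≤ w := by exact_mod_cast hw
  have ht0 : (0 : ℝ) < t := by exact_mod_cast ht
  have h1 : (w : ℝ) ^ 2 / 200 ≤ ((w : ℝ) ^ 45) ^ 2 / (2 * t) := by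
    rw [div_le_div_iff₀ (by norm_num) (by positivity)]
    have h2 : (t : ℝ) ≤ 100 * (w : ℝ) ^ 88 := by exact_mod_cast ht2
    calc (w : ℝ) ^ 2 * (2 * t) ≤ (w : ℝ) ^ 2 * (2 * (100 * (w : ℝ) ^ 88)) := by gcongr
      _ = ((w : ℝ) ^ 45) ^ 2 * 200 := by ring
  have h3 : Real.exp (-(((w : ℝ) ^ 45) ^ 2 / (2 * t))) ≤ Real.exp (-((w : ℝ) ^ 2 / 200)) :=
    Real.exp_le_exp.mpr (by linarith)
  have h4 : Real.exp (-((w : ℝ) ^ 2 / 200)) ≤ 200 / (w : ℝ) ^ 2 := by
    rw [Real.exp_neg, show 200 / (w : ℝ) ^ 2 = ((w : ℝ) ^ 2 / 200)⁻¹ by rw [inv_div]]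
    apply inv_anti₀ (by positivity)
    have := Real.add_one_le_exp ((w : ℝ) ^ 2 / 200)
    linarith
  have h5 : 200 / (w : ℝ) ^ 2 ≤ 200 / w := by
    apply div_le_div_of_nonneg_left (by norm_num) hw0
    nlinarith
  have e : 400 / (w : ℝ) = 2 * (200 / w) := by ring
  rw [e]
  linarith

theorem inv_le_inv_sqrt {w : ℕ} (hw : 1 ≤ w) : 1 / (w : ℝ) ≤ 1 / √w := by
  have hw1 : (1 : ℝ) ≤ w := by exact_mod_cast hw
  apply one_div_le_one_div_of_le (by positivity)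
  have h1 : (1 : ℝ) ≤ √w := by rw [Real.one_le_sqrt]; exact hw1
  have h2 := Real.sq_sqrt (by positivity : (0 : ℝ) ≤ w)
  nlinarith

/-- the length of the image of a window -/
theorem len_eq {w t m : ℕ} {a : ℝ} (ha : 0 < a) :
    logb 2 (3 ^ m * a / 2 ^ t) = logb 2 a - th0 * t + (1 - th0) * (2 * m - t) := by
  rw [three_pow, ← Real.rpow_natCast 2 t]
  rw [Real.logb_div (by positivity) (by positivity), Real.logb_mul (by positivity) ha.ne', Real.logb_rpow (by norm_num) (by norm_num),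
    Real.logb_rpow (by norm_num) (by norm_num)]
  ring

theorem step2 (hS : S_STM) (hG : S_GAM) : ∃ C : ℝ, 0 < C ∧ ∀ᶠ w : ℕ in atTop, ∀ t : ℕ, w ^ 52 ≤ t → t ≤ 100 * w ^ 88 →
    ∀ f : ℤ → ℝ, Iv f → ∀ κ : ℝ, |κ| ≤ 1 → ∀ a N : ℝ, 0 < a → |logb 2 a - th0 * t - (w : ℝ) ^ 53| ≤ 1 →
    (2 : ℝ) ^ (2 * w ^ 80) * a ≤ N →
    |VV f κ a N - ex t (fun y => ex t (fun y' => PK f κ N t (od t y) (od t y')))| ≤ C / √w := by
  obtain ⟨C₁, hC₁, h1⟩ := hS
  obtain ⟨C₂, hC₂, h2⟩ := hG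
  refine ⟨4 * C₁ + C₂ + 4800, by positivity, ?_⟩
  filter_upwards [h1, h2, eventually_ge_atTop 10] with w h1 h2 hw10 t ht1 ht2 f hf κ hκ a N ha hlen hN
  have hw1 : 1 ≤ w := by omega
  have hw10' : (10 : ℝ) ≤ w := by exact_mod_cast hw10
  have hN0 : 0 < N := lt_of_lt_of_le (by positivity) hN
  have ht : 1 ≤ t := (Nat.one_le_pow _ _ hw1).trans ht1
  rw [abs_le] at hlen
  have hpw : (w : ℝ) ^ 52 + 1 ≤ (w : ℝ) ^ 53 := by
    have : (1 : ℝ) ≤ (w : ℝ) ^ 52 := one_le_pow₀ (by linarith)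
    rw [pow_succ]; nlinarith
  have ha2 : (2 : ℝ) ^ (th0 * t + (w : ℝ) ^ 52) ≤ a := by
    rw [← Real.le_logb_iff_rpow_le (by norm_num) ha]
    linarith
  have hs1 := step1 hf (κ := κ) (a := a) (N := N) (ε := C₁ / √w) hN0 (t := t) (fun x => h1 t ht1 ht2 f hf x a ha2)
  have hs2 : |ex t (fun y => ex t (fun y' => PG f κ a N t (od t y) (od t y'))) -
      ex t (fun y => ex t (fun y' => PK f κ N t (od t y) (od t y')))| ≤ C₂ / w +
        6 * pb t (fun y => (w : ℝ) ^ 45 ≤ |2 * (od t y : ℝ) - t|) + 6 * pb t (fun y => (w : ℝ) ^ 45 ≤ |2 * (od t y : ℝ) - t|) := by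
    apply ex_cmp2 (by positivity)
    · intro y y' hy hy'
      rw [not_le] at hy hy'
      unfold PG PK
      have hX0 : ∀ m : ℕ, (0 : ℝ) < 3 ^ m * a / 2 ^ t := fun m => by positivity
      have hmm : |2 * ((min (od t y) (od t y') : ℕ) : ℝ) - t| < (w : ℝ) ^ 45 := by
        rcases min_choice (od t y) (od t y') with h | h <;> rw [h] <;> assumption
      set m := min (od t y) (od t y') with hm
      have hlog := len_eq (w := w) (t := t) (m := m) ha
      rw [abs_lt] at hmm hy hy'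
      have hth := th0_pos
      have hth4 := th0_lt
      have h3 : |(1 - th0) * (2 * (m : ℝ) - t)| ≤ (w : ℝ) ^ 45 := by
        rw [abs_le]; constructor <;> nlinarith
      rw [abs_le] at h3
      have hp53 : 2 * (w : ℝ) ^ 45 + 2 + 2 * w ≤ (w : ℝ) ^ 53 := by
        have e1 : (w : ℝ) ^ 53 = (w : ℝ) ^ 45 * (w : ℝ) ^ 8 := by rw [← pow_add]
        have e2 : (10 : ℝ) ≤ (w : ℝ) ^ 8 := hw10'.trans (le_self_pow₀ (by linarith) (by norm_num))
        have e3 : (w : ℝ) ≤ (w : ℝ) ^ 45 := le_self_pow₀ (by linarith) (by norm_num)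
        have e4 : (1 : ℝ) ≤ (w : ℝ) ^ 45 := by linarith
        rw [e1]
        nlinarith
      have hb1 : (w : ℝ) ^ 2 ≤ 3 ^ m * a / 2 ^ t := by
        have e1 : (w : ℝ) ^ 2 ≤ (2 : ℝ) ^ (2 * (w : ℝ)) := by
          rw [mul_comm, Real.rpow_mul (by norm_num), Real.rpow_natCast, Real.rpow_two]
          have : (w : ℝ) ≤ 2 ^ w := by exact_mod_cast (Nat.lt_two_pow_self).le
          gcongr
        refine e1.trans ?_
        rw [← Real.le_logb_iff_rpow_le (by norm_num) (hX0 m), hlog]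
        linarith
      have hb2 : 3 ^ m * a / 2 ^ t ≤ (2 : ℝ) ^ (w ^ 54) := by
        rw [show (2 : ℝ) ^ (w ^ 54) = (2 : ℝ) ^ ((w ^ 54 : ℕ) : ℝ) from (Real.rpow_natCast 2 _).symm, ← Real.logb_le_iff_le_rpow (by norm_num) (hX0 m), hlog]
        push_cast
        have e1 : 2 * (w : ℝ) ^ 53 ≤ (w : ℝ) ^ 54 := by
          rw [pow_succ (w : ℝ) 53]; nlinarith [pow_nonneg (by positivity : (0 : ℝ) ≤ w) 53]
        linarith
      have hX : (2 : ℝ) ^ (w ^ 80) ≤ 3 ^ m * N / 2 ^ t := by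
        have e1 : (2 : ℝ) ^ (2 * w ^ 80) * (3 ^ m * a / 2 ^ t) ≤ 3 ^ m * N / 2 ^ t := by
          rw [show (2 : ℝ) ^ (2 * w ^ 80) * (3 ^ m * a / 2 ^ t) = 3 ^ m * ((2 : ℝ) ^ (2 * w ^ 80) * a) / 2 ^ t by ring]
          gcongr
        refine le_trans ?_ e1
        have e2 : (1 : ℝ) ≤ 3 ^ m * a / 2 ^ t := by
          refine le_trans ?_ hb1
          exact one_le_pow₀ (by linarith)
        calc (2 : ℝ) ^ (w ^ 80) ≤ (2 : ℝ) ^ (2 * w ^ 80) := pow_le_pow_right₀ (by norm_num) (by omega)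
          _ ≤ (2 : ℝ) ^ (2 * w ^ 80) * (3 ^ m * a / 2 ^ t) := le_mul_of_one_le_right (by positivity) e2
      have hD : max (od t y) (od t y') - m ≤ w ^ 48 := by
        have h5 : ((max (od t y) (od t y') : ℕ) : ℝ) ≤ t / 2 + (w : ℝ) ^ 45 := by
          rcases max_choice (od t y) (od t y') with h | h <;> rw [h] <;> linarith
        have h6 : (t : ℝ) / 2 - (w : ℝ) ^ 45 ≤ m := by linarith
        have h7 : ((max (od t y) (od t y') : ℕ) : ℝ) ≤ m + (w : ℝ) ^ 48 := by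
          have e1 : 2 * (w : ℝ) ^ 45 ≤ (w : ℝ) ^ 48 := by
            have e2 : (w : ℝ) ^ 48 = (w : ℝ) ^ 45 * (w : ℝ) ^ 3 := by rw [← pow_add]
            have e3 : (10 : ℝ) ≤ (w : ℝ) ^ 3 := hw10'.trans (le_self_pow₀ (by linarith) (by norm_num))
            rw [e2]; nlinarith [pow_nonneg (by positivity : (0 : ℝ) ≤ w) 45]
          linarith
        have h8 : max (od t y) (od t y') ≤ m + w ^ 48 := by exact_mod_cast h7
        omega
      exact h2 f f hf hf κ (3 ^ m * N / 2 ^ t) (3 ^ m * a / 2 ^ t) hκ hX hb1 hb2 _ hD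
    · intro y y'
      unfold PG PK
      have e1 := GG_bd hf hf (κ := κ) (b := 3 ^ min (od t y) (od t y') * a / 2 ^ t) (X := 3 ^ min (od t y) (od t y') * N / 2 ^ t)
        (by positivity) (max (od t y) (od t y') - min (od t y) (od t y'))
      have e2 := cc_bd hf hf κ (3 ^ min (od t y) (od t y') * N / 2 ^ t) (max (od t y) (od t y') - min (od t y) (od t y')) 0
      rw [abs_le] at e1 e2 ⊢
      constructor <;> linarith
  have hpb := pb_dev_w hw1 ht ht2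
  have hsq := inv_le_inv_sqrt hw1
  have e3 : |VV f κ a N - ex t (fun y => ex t (fun y' => PK f κ N t (od t y) (od t y')))| ≤
      4 * (C₁ / √w) + (C₂ / w + 6 * (400 / w) + 6 * (400 / w)) := by
    refine (abs_sub_le _ _ _).trans (add_le_add hs1 (hs2.trans ?_))
    linarith
  refine e3.trans ?_
  have e4 : 4 * (C₁ / √w) + (C₂ / w + 6 * (400 / w) + 6 * (400 / w)) = 4 * C₁ * (1 / √w) + (C₂ + 4800) * (1 / w) := by ring
  rw [e4, show (4 * C₁ + C₂ + 4800) / √w = 4 * C₁ * (1 / √w) + (C₂ + 4800) * (1 / √w) by ring]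
  have := mul_le_mul_of_nonneg_left hsq (by positivity : 0 ≤ C₂ + 4800)
  linarith

end Pool.Agent.J4H26.PC
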