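import Mathlib
import Pool.Agent.J4H26.PC.B1

set_option autoImplicit false

/-! Project PC: the correlations along forms under 48 stages, averaged over words. -/

namespace Pool.Agent.J4H26.PC

open Finset Filter Real MeasureTheory
open Pool.Agent.J4H39 (T od ex pb ns rn stP stK lb GK Cm DV th0 ex_mono ex_congr ex_add ex_mul ex_const ex_sum ex_nonneg
  pb_nonneg pb_mono pb_or Per per_od ex_pair pb_od pb_le_one th0_pos th0_lt th0_gt three_pow ex_per od_comp rel_rn rel_nat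
  pb_affine pow3_odd)

theorem od_split (t s : ℕ) (Ψ : ℕ → ℝ) : ex (t + s) (fun y => Ψ (od (t + s) y)) =
    ex t (fun y => ex s (fun u => Ψ (od t y + od s u))) := by
  rw [← ex_pair t s (fun y u => Ψ (od t y + od s u))]
  · apply ex_congr
    intro y
    rw [od_comp]
  · intro z
    exact (per_od (le_refl t)).comp (fun o => Ψ (o + od s z))
  · intro y
    exact (per_od (le_refl s)).comp (fun o => Ψ (od t y + o))

theorem ex_comm (a b : ℕ) (F : ℤ → ℤ → ℝ) : ex a (fun y => ex b (fun u => F y u)) = ex b (fun u => ex a (fun y => F y u)) := by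
  unfold ex
  rw [← sum_div, ← sum_div, Finset.sum_comm, div_div, div_div, mul_comm]

theorem od_split2 (t s : ℕ) (Ψ : ℕ → ℕ → ℝ) : ex (t + s) (fun y => ex (t + s) (fun y' => Ψ (od (t + s) y) (od (t + s) y'))) =
    ex t (fun y => ex t (fun y' => ex s (fun u => ex s (fun u' => Ψ (od t y + od s u) (od t y' + od s u'))))) := by
  rw [od_split t s (fun o => ex (t + s) (fun y' => Ψ o (od (t + s) y')))]
  apply ex_congr
  intro y
  rw [ex_comm t s]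
  apply ex_congr
  intro u
  rw [od_split t s (fun o' => Ψ (od t y + od s u) o')]

/-- the clamped exponent -/
def cA (j : ℕ) (α : ℤ) : ℕ := (max (23 * j : ℤ) (min α (25 * j))).toNat

/-- the clamped difference -/
def cD (w : ℕ) (δ : ℤ) : ℕ := (max 0 (min δ (2 * (w : ℤ) ^ 48))).toNat

theorem cA_lip (j : ℕ) (α α' : ℤ) : |(cA j α : ℤ) - cA j α'| ≤ |α - α'| := by
  unfold cA
  rw [Int.toNat_of_nonneg (by omega), Int.toNat_of_nonneg (by omega)]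
  rw [abs_le]
  rcases abs_cases (α - α') with ⟨h, _⟩ | ⟨h, _⟩ <;> rw [h] <;> constructor <;> omega

theorem cD_lip (w : ℕ) (δ δ' : ℤ) : |(cD w δ : ℤ) - cD w δ'| ≤ |δ - δ'| := by
  unfold cD
  rw [Int.toNat_of_nonneg (by omega), Int.toNat_of_nonneg (by omega)]
  rw [abs_le]
  rcases abs_cases (δ - δ') with ⟨h, _⟩ | ⟨h, _⟩ <;> rw [h] <;> constructor <;> omega

theorem cA_ge (j : ℕ) (α : ℤ) : 23 * j ≤ cA j α := by unfold cA; omega

theorem cD_le (w : ℕ) (δ : ℤ) : cD w δ ≤ 2 * w ^ 48 := by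
  unfold cD
  have h : ((2 * w ^ 48 : ℕ) : ℤ) = 2 * (w : ℤ) ^ 48 := by push_cast; ring
  omega

theorem cA_eq {j o : ℕ} (h1 : 23 * j ≤ o) (h2 : o ≤ 25 * j) : cA j o = o := by unfold cA; omega

theorem cD_eq {w : ℕ} {δ : ℤ} (h2 : δ ≤ 2 * (w : ℤ) ^ 48) : cD w δ = δ.toNat := by
  unfold cD
  rw [min_eq_left h2]
  omega

theorem three23 (j : ℕ) : (2 : ℝ) ^ (33 * j) ≤ 3 ^ (23 * j) := by
  calc (2 : ℝ) ^ (33 * j) = ((2 : ℝ) ^ 33) ^ j := by rw [pow_mul]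
    _ ≤ ((3 : ℝ) ^ 23) ^ j := by gcongr; norm_num
    _ = 3 ^ (23 * j) := by rw [pow_mul]

theorem lipW (hL : S_LIP) : ∃ M : ℝ, 4 ≤ M ∧ ∀ᶠ w : ℕ in atTop, ∀ j, w ^ 80 ≤ j → ∀ f : ℤ → ℝ, Iv f →
    ∀ κ : ℝ, |κ| ≤ 1 → ∀ X : ℝ, (2 : ℝ) ^ (20 * j) ≤ X → ∀ A A' Δ Δ' : ℕ, 23 * j ≤ A → 23 * j ≤ A' → Δ ≤ 2 * w ^ 48 → Δ' ≤ 2 * w ^ 48 →
    |cc f f κ (3 ^ A * X / 2 ^ (48 * j)) Δ 0 - cc f f κ (3 ^ A' * X / 2 ^ (48 * j)) Δ' 0| ≤
      M * ((((|(A : ℤ) - A'| + |(Δ : ℤ) - Δ'| : ℤ) : ℝ)) / (w : ℝ) ^ 39 + 1 / w) := by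
  obtain ⟨C, hC, h⟩ := hL
  refine ⟨2 * C + 4, by linarith, ?_⟩
  filter_upwards [h, eventually_ge_atTop 1] with w h hw j hj f hf κ hκ X hX A A' Δ Δ' hA hA' hΔ hΔ'
  have hw0 : (0 : ℝ) < w := by exact_mod_cast hw
  have hw1 : (1 : ℝ) ≤ w := by exact_mod_cast hw
  have hXpos : 0 < X := lt_of_lt_of_le (by positivity) hX
  set n : ℤ := |(A : ℤ) - A'| + |(Δ : ℤ) - Δ'| with hn
  have hn0 : 0 ≤ n := by positivity
  rcases le_or_gt ((w : ℝ) ^ 39) n with hbig | hsmall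
  · have e1 := cc_bd hf hf κ (3 ^ A * X / 2 ^ (48 * j)) Δ 0
    have e2 := cc_bd hf hf κ (3 ^ A' * X / 2 ^ (48 * j)) Δ' 0
    have e3 : (1 : ℝ) ≤ (n : ℝ) / (w : ℝ) ^ 39 := by rw [le_div_iff₀ (by positivity)]; linarith
    have e4 : (0 : ℝ) ≤ 1 / w := by positivity
    have e5 : (2 * C + 4) * 1 ≤ (2 * C + 4) * ((n : ℝ) / (w : ℝ) ^ 39 + 1 / w) := by
      apply mul_le_mul_of_nonneg_left _ (by positivity)
      linarith
    rw [abs_le] at e1 e2 ⊢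
    constructor <;> linarith
  · have hn2 : n < (w : ℤ) ^ 39 := by exact_mod_cast hsmall
    have hww : (w : ℤ) ^ 39 ≤ (w : ℤ) ^ 48 := pow_le_pow_right₀ (by exact_mod_cast hw) (by norm_num)
    have hbase : ∀ B : ℕ, 23 * j ≤ B → (2 : ℝ) ^ (w ^ 80) ≤ 3 ^ B * X / 2 ^ (48 * j) := by
      intro B hB
      rw [le_div_iff₀ (by positivity)]
      calc (2 : ℝ) ^ (w ^ 80) * 2 ^ (48 * j) = 2 ^ (w ^ 80 + 48 * j) := by rw [pow_add]
        _ ≤ (2 : ℝ) ^ (33 * j + 20 * j) := pow_le_pow_right₀ (by norm_num) (by omega)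
        _ = (2 : ℝ) ^ (33 * j) * 2 ^ (20 * j) := by rw [pow_add]
        _ ≤ 3 ^ (23 * j) * X := mul_le_mul (three23 j) hX (by positivity) (by positivity)
        _ ≤ 3 ^ B * X := by
            apply mul_le_mul_of_nonneg_right _ hXpos.le
            exact pow_le_pow_right₀ (by norm_num) hB
    -- move the height
    have hA1 : ∀ B a E : ℕ, 23 * j ≤ B → (a : ℤ) ≤ (w : ℤ) ^ 48 → E ≤ 2 * w ^ 48 →
        |cc f f κ (3 ^ (B + a) * X / 2 ^ (48 * j)) E 0 - cc f f κ (3 ^ B * X / 2 ^ (48 * j)) E 0| ≤ (a : ℝ) * (C / (w : ℝ) ^ 39) + C / (w : ℝ) ^ 2 := by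
      intro B a E hB ha hE
      have h1 := h f f hf hf κ (3 ^ B * X / 2 ^ (48 * j)) hκ (hbase B hB) a E 0 (by exact_mod_cast ha) hE (by omega)
      rw [add_zero] at h1
      rw [show (3 : ℝ) ^ (B + a) * X / 2 ^ (48 * j) = 3 ^ a * (3 ^ B * X / 2 ^ (48 * j)) by rw [pow_add]; ring]
      simpa using h1
    have hD1 : ∀ B d E : ℕ, 23 * j ≤ B → (d : ℤ) ≤ (w : ℤ) ^ 48 → E ≤ 2 * w ^ 48 →
        |cc f f κ (3 ^ B * X / 2 ^ (48 * j)) (E + d) 0 - cc f f κ (3 ^ B * X / 2 ^ (48 * j)) E 0| ≤ (d : ℝ) * (C / (w : ℝ) ^ 39) + C / (w : ℝ) ^ 2 := by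
      intro B d E hB hd hE
      have h1 := h f f hf hf κ (3 ^ B * X / 2 ^ (48 * j)) hκ (hbase B hB) 0 E d (by omega) hE (by exact_mod_cast hd)
      rw [pow_zero, one_mul] at h1
      simpa using h1
    have e1 : |cc f f κ (3 ^ A * X / 2 ^ (48 * j)) Δ 0 - cc f f κ (3 ^ A' * X / 2 ^ (48 * j)) Δ 0| ≤
        ((|(A : ℤ) - A'| : ℤ) : ℝ) * (C / (w : ℝ) ^ 39) + C / (w : ℝ) ^ 2 := by
      have hnn : |(A : ℤ) - A'| ≤ (w : ℤ) ^ 48 := by
        have : 0 ≤ |(Δ : ℤ) - Δ'| := abs_nonneg _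
        linarith
      rcases le_total A A' with hh | hh
      · obtain ⟨a, rfl⟩ := Nat.exists_eq_add_of_le hh
        have ea : |(A : ℤ) - (A + a : ℕ)| = a := by push_cast; rw [sub_add_cancel_left, abs_neg]; simp
        rw [ea] at hnn ⊢
        rw [abs_sub_comm]
        exact_mod_cast hA1 A a Δ hA hnn hΔ
      · obtain ⟨a, rfl⟩ := Nat.exists_eq_add_of_le hh
        have ea : |((A' + a : ℕ) : ℤ) - A'| = a := by push_cast; rw [add_sub_cancel_left]; simp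
        rw [ea] at hnn ⊢
        exact_mod_cast hA1 A' a Δ hA' hnn hΔ
    have e2 : |cc f f κ (3 ^ A' * X / 2 ^ (48 * j)) Δ 0 - cc f f κ (3 ^ A' * X / 2 ^ (48 * j)) Δ' 0| ≤
        ((|(Δ : ℤ) - Δ'| : ℤ) : ℝ) * (C / (w : ℝ) ^ 39) + C / (w : ℝ) ^ 2 := by
      have hnn : |(Δ : ℤ) - Δ'| ≤ (w : ℤ) ^ 48 := by
        have : 0 ≤ |(A : ℤ) - A'| := abs_nonneg _
        linarith
      rcases le_total Δ Δ' with hh | hh
      · obtain ⟨d, rfl⟩ := Nat.exists_eq_add_of_le hh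
        have ea : |(Δ : ℤ) - (Δ + d : ℕ)| = d := by push_cast; rw [sub_add_cancel_left, abs_neg]; simp
        rw [ea] at hnn ⊢
        rw [abs_sub_comm]
        exact_mod_cast hD1 A' d Δ hA' hnn hΔ
      · obtain ⟨d, rfl⟩ := Nat.exists_eq_add_of_le hh
        have ea : |((Δ' + d : ℕ) : ℤ) - Δ'| = d := by push_cast; rw [add_sub_cancel_left]; simp
        rw [ea] at hnn ⊢
        exact_mod_cast hD1 A' d Δ' hA' hnn hΔ'
    refine (abs_sub_le _ _ _).trans ((add_le_add e1 e2).trans ?_)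
    have e3 : ((n : ℤ) : ℝ) = ((|(A : ℤ) - A'| : ℤ) : ℝ) + ((|(Δ : ℤ) - Δ'| : ℤ) : ℝ) := by rw [hn]; push_cast; ring
    have e4 : C / (w : ℝ) ^ 2 ≤ C / w := by
      apply div_le_div_of_nonneg_left hC.le hw0
      nlinarith
    have e5 : (0 : ℝ) ≤ (n : ℝ) := by exact_mod_cast hn0
    have e6 : ((|(A : ℤ) - A'| : ℤ) : ℝ) * (C / (w : ℝ) ^ 39) + C / (w : ℝ) ^ 2 + (((|(Δ : ℤ) - Δ'| : ℤ) : ℝ) * (C / (w : ℝ) ^ 39) + C / (w : ℝ) ^ 2) =
        C * ((n : ℝ) / (w : ℝ) ^ 39) + 2 * (C / (w : ℝ) ^ 2) := by rw [e3]; ring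
    rw [e6]
    have e7 : C * ((n : ℝ) / (w : ℝ) ^ 39) ≤ (2 * C + 4) * ((n : ℝ) / (w : ℝ) ^ 39) := by
      apply mul_le_mul_of_nonneg_right _ (by positivity)
      linarith
    have e8 : 2 * (C / (w : ℝ) ^ 2) ≤ (2 * C + 4) * (1 / w) := by
      have : (2 * C + 4) * (1 / (w : ℝ)) = 2 * (C / w) + 4 / w := by ring
      rw [this]
      have : (0 : ℝ) ≤ 4 / w := by positivity
      linarith
    rw [mul_add]
    linarith

end Pool.Agent.J4H26.PC
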