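import Mathlib
import Pool.Agent.J4H26.PC.B3

set_option autoImplicit false

/-! Project PC: the correlations along forms under 48 stages, averaged over independent words. -/

namespace Pool.Agent.J4H26.PC

open Finset Filter Real MeasureTheory
open Pool.Agent.J4H39 (T od ex pb ns rn stP stK lb GK Cm DV th0 ex_mono ex_congr ex_add ex_mul ex_const ex_sum ex_nonneg
  pb_nonneg pb_mono pb_or Per per_od ex_pair pb_od pb_le_one th0_pos th0_lt th0_gt three_pow ex_per od_comp rel_rn rel_nat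
  pb_affine pow3_odd)

/-- an unusual number of odd steps -/
def BB (w j : ℕ) (y : ℤ) : Prop := (w : ℝ) ^ 41 ≤ |2 * (od (48 * j) y : ℝ) - (48 * j : ℕ)|

theorem pb_BB {w j : ℕ} (hw : 1 ≤ w) (hj1 : w ^ 80 ≤ j) (hj2 : j ≤ 2 * w ^ 80) : pb (48 * j) (BB w j) ≤ 400 / w := by
  have hj0 : 1 ≤ j := (Nat.one_le_pow _ _ hw).trans hj1
  refine (pb_od (k := 48 * j) (by omega) (δ := (w : ℝ) ^ 41) (by positivity)).trans ?_
  have hw0 : (0 : ℝ) < w := by exact_mod_cast hw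
  have hw1 : (1 : ℝ) ≤ w := by exact_mod_cast hw
  have ht0 : (0 : ℝ) < j := by exact_mod_cast hj0
  push_cast
  have h1 : (w : ℝ) ^ 2 / 200 ≤ ((w : ℝ) ^ 41) ^ 2 / (2 * (48 * j)) := by
    rw [div_le_div_iff₀ (by norm_num) (by positivity)]
    have h2 : (j : ℝ) ≤ 2 * (w : ℝ) ^ 80 := by exact_mod_cast hj2
    calc (w : ℝ) ^ 2 * (2 * (48 * j)) ≤ (w : ℝ) ^ 2 * (2 * (48 * (2 * (w : ℝ) ^ 80))) := by gcongr
      _ = (w : ℝ) ^ 82 * 192 := by ring
      _ ≤ (w : ℝ) ^ 82 * 200 := by gcongr; norm_num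
      _ = ((w : ℝ) ^ 41) ^ 2 * 200 := by ring
  have h3 : Real.exp (-(((w : ℝ) ^ 41) ^ 2 / (2 * (48 * j)))) ≤ Real.exp (-((w : ℝ) ^ 2 / 200)) :=
    Real.exp_le_exp.mpr (by linarith)
  have h4 : Real.exp (-((w : ℝ) ^ 2 / 200)) ≤ 200 / (w : ℝ) ^ 2 := by
    rw [Real.exp_neg, show 200 / (w : ℝ) ^ 2 = ((w : ℝ) ^ 2 / 200)⁻¹ by rw [inv_div]]
    apply inv_anti₀ (by positivity)
    have := Real.add_one_le_exp ((w : ℝ) ^ 2 / 200)
    linarith
  have h5 : 200 / (w : ℝ) ^ 2 ≤ 200 / w := by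
    apply div_le_div_of_nonneg_left (by norm_num) hw0
    nlinarith
  have e : 400 / (w : ℝ) = 2 * (200 / w) := by ring
  rw [e]
  linarith

theorem per_BB (w j : ℕ) : Per (48 * j) (BB w j) :=
  (per_od (le_refl (48 * j))).comp (fun o : ℕ => (w : ℝ) ^ 41 ≤ |2 * (o : ℝ) - (48 * j : ℕ)|)

/-- the facts for a usual word -/
theorem not_BB {w j : ℕ} (hw : 10 ≤ w) (hj1 : w ^ 80 ≤ j) {y : ℤ} (h : ¬ BB w j y) :
    2 * (od (48 * j) y : ℤ) < 48 * j + (w : ℤ) ^ 41 ∧ 48 * (j : ℤ) < 2 * od (48 * j) y + (w : ℤ) ^ 41 ∧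
      23 * j ≤ od (48 * j) y ∧ od (48 * j) y ≤ 25 * j := by
  unfold BB at h
  rw [not_le, abs_lt] at h
  push_cast at h
  obtain ⟨h1, h2⟩ := h
  have h3 : 2 * (od (48 * j) y : ℤ) < 48 * j + (w : ℤ) ^ 41 := by
    have : 2 * (od (48 * j) y : ℝ) < 48 * j + (w : ℝ) ^ 41 := by linarith
    exact_mod_cast this
  have h4 : 48 * (j : ℤ) < 2 * od (48 * j) y + (w : ℤ) ^ 41 := by
    have : 48 * (j : ℝ) < 2 * od (48 * j) y + (w : ℝ) ^ 41 := by linarith
    exact_mod_cast this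
  have h5 : (w : ℤ) ^ 41 ≤ j := by
    have : w ^ 41 ≤ w ^ 80 := Nat.pow_le_pow_right (by omega) (by norm_num)
    have : w ^ 41 ≤ j := this.trans hj1
    exact_mod_cast this
  exact ⟨h3, h4, by omega, by omega⟩

theorem core (hF : S_FT) (hL : S_LIP) (hW : S_LAW) : ∃ C : ℝ, 0 < C ∧ ∀ᶠ w : ℕ in atTop, ∀ j, w ^ 80 ≤ j → j ≤ 2 * w ^ 80 →
    ∀ f : ℤ → ℝ, Iv f → ∀ κ : ℝ, |κ| ≤ 1 → ∀ X : ℝ, (2 : ℝ) ^ (20 * j) ≤ X → ∀ D : ℕ, w ^ 42 ≤ D → D ≤ w ^ 48 →
    |cc f f κ X D 0 - ex (48 * j) (fun y => ex (48 * j) (fun y' => cc f f κ (3 ^ od (48 * j) y * X / 2 ^ (48 * j))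
      ((D : ℤ) + od (48 * j) y' - od (48 * j) y).toNat 0))| ≤ C / w := by
  obtain ⟨C₁, hC₁, h1⟩ := hF
  obtain ⟨M, hM, h2⟩ := lipW hL
  obtain ⟨C₃, hC₃, h3⟩ := hW
  refine ⟨C₁ + M * C₃ + 6400, by positivity, ?_⟩
  filter_upwards [h1, h2, h3, eventually_ge_atTop 10] with w h1 h2 h3 hw10 j hj1 hj2 f hf κ hκ X hX D hD1 hD2
  have hw1 : 1 ≤ w := by omega
  have hw0 : (0 : ℝ) < w := by exact_mod_cast hw1
  have hM0 : 0 < M := by linarith
  have hX19 : (2 : ℝ) ^ (19 * j) ≤ X := (pow_le_pow_right₀ (by norm_num) (by omega)).trans hX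
  have f1 := h1 j hj1 hj2 f f hf hf κ hκ X hX19 D hD1 hD2
  set φ : ℤ → ℤ → ℝ := fun α δ => cc f f κ (3 ^ cA j α * X / 2 ^ (48 * j)) (cD w δ) 0 / M with hφ
  have hφ1 : ∀ a d, |φ a d| ≤ 1 := by
    intro a d
    rw [hφ]
    simp only
    rw [abs_div, abs_of_pos hM0, div_le_one hM0]
    exact (cc_bd hf hf _ _ _ _).trans (by linarith)
  have hφ2 : ∀ a d a' d', |φ a d - φ a' d'| ≤ ((|a - a'| + |d - d'| : ℤ) : ℝ) / (w : ℝ) ^ 39 + 1 / w := by
    intro a d a' d'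
    have e1 := h2 j hj1 f hf κ hκ X hX (cA j a) (cA j a') (cD w d) (cD w d') (cA_ge _ _) (cA_ge _ _) (cD_le _ _) (cD_le _ _)
    rw [hφ]
    simp only
    rw [← sub_div, abs_div, abs_of_pos hM0, div_le_iff₀ hM0]
    refine e1.trans ?_
    rw [mul_comm]
    apply mul_le_mul_of_nonneg_right _ hM0.le
    have e2 : (|(cA j a : ℤ) - cA j a'| + |(cD w d : ℤ) - cD w d'| : ℤ) ≤ |a - a'| + |d - d'| :=
      add_le_add (cA_lip j a a') (cD_lip w d d')
    have e3 : (((|(cA j a : ℤ) - cA j a'| + |(cD w d : ℤ) - cD w d'| : ℤ)) : ℝ) ≤ ((|a - a'| + |d - d'| : ℤ) : ℝ) := by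
      exact_mod_cast e2
    gcongr
  have hDz1 : (w : ℤ) ^ 42 ≤ (D : ℤ) := by exact_mod_cast hD1
  have hDz2 : (D : ℤ) ≤ (w : ℤ) ^ 48 := by exact_mod_cast hD2
  have f3 := h3 j hj1 hj2 (D : ℤ) hDz1 hDz2 φ hφ1 hφ2
  have hw41 : (w : ℤ) ^ 41 ≤ (w : ℤ) ^ 42 := pow_le_pow_right₀ (by exact_mod_cast hw1) (by norm_num)
  have hw48 : (w : ℤ) ^ 42 ≤ (w : ℤ) ^ 48 := pow_le_pow_right₀ (by exact_mod_cast hw1) (by norm_num)
  have hpb := pb_BB hw1 hj1 hj2
  -- removing the clamps in the first expression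
  have f2 : |ex (48 * j) (fun y => cc f f κ (3 ^ od (48 * j) y * X / 2 ^ (48 * j)) ((rn stP (48 * j) ((D : ℤ), 0) y).1.toNat) 0) -
      ex (48 * j) (fun y => M * φ (od (48 * j) y) (rn stP (48 * j) ((D : ℤ), 0) y).1)| ≤ 4 * (400 / w) + 4 * (400 / w) := by
    have e1 : pb (48 * j) (fun y => BB w j y ∨ BB w j (3 ^ D * y + 0)) ≤ 400 / w + 400 / w := by
      refine (pb_or _ _ _).trans (add_le_add hpb ?_)
      rw [pb_affine (per_BB w j) (pow3_odd D) 0]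
      exact hpb
    have e2 := ex_cmp (t := 48 * j) (F := fun y => cc f f κ (3 ^ od (48 * j) y * X / 2 ^ (48 * j)) ((rn stP (48 * j) ((D : ℤ), 0) y).1.toNat) 0)
      (G := fun y => M * φ (od (48 * j) y) (rn stP (48 * j) ((D : ℤ), 0) y).1) (Bad := fun y => BB w j y ∨ BB w j (3 ^ D * y + 0))
      (c := 0) (M := 4) le_rfl (by
        intro y hy
        rw [not_or] at hy
        obtain ⟨g1, g2, g3, g4⟩ := not_BB hw10 hj1 hy.1
        obtain ⟨g5, g6, g7, g8⟩ := not_BB hw10 hj1 hy.2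
        have g9 := (rel_rn (rel_nat D 0 y) (48 * j)).2
        simp only at g9
        rw [hφ]
        simp only
        rw [cA_eq g3 g4, cD_eq (by rw [g9]; omega)]
        rw [mul_div_cancel₀ _ hM0.ne', sub_self, abs_zero]) (by
        intro y
        rw [hφ]
        simp only
        rw [mul_div_cancel₀ _ hM0.ne']
        have e1 := cc_bd hf hf κ (3 ^ od (48 * j) y * X / 2 ^ (48 * j)) ((rn stP (48 * j) ((D : ℤ), 0) y).1.toNat) 0
        have e2 := cc_bd hf hf κ (3 ^ cA j (od (48 * j) y) * X / 2 ^ (48 * j)) (cD w (rn stP (48 * j) ((D : ℤ), 0) y).1) 0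
        rw [abs_le] at e1 e2 ⊢
        constructor <;> linarith)
    refine e2.trans ?_
    linarith
  have f4 : |ex (48 * j) (fun y => ex (48 * j) (fun y' => M * φ (od (48 * j) y) ((D : ℤ) + od (48 * j) y' - od (48 * j) y))) -
      ex (48 * j) (fun y => ex (48 * j) (fun y' => cc f f κ (3 ^ od (48 * j) y * X / 2 ^ (48 * j))
      ((D : ℤ) + od (48 * j) y' - od (48 * j) y).toNat 0))| ≤ 0 + 4 * pb (48 * j) (BB w j) + 4 * pb (48 * j) (BB w j) := by
    apply ex_cmp2 le_rfl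
    · intro y y' hy hy'
      obtain ⟨g1, g2, g3, g4⟩ := not_BB hw10 hj1 hy
      obtain ⟨g5, g6, g7, g8⟩ := not_BB hw10 hj1 hy'
      rw [hφ]
      simp only
      rw [cA_eq g3 g4, cD_eq (by omega)]
      rw [mul_div_cancel₀ _ hM0.ne', sub_self, abs_zero]
    · intro y y'
      rw [hφ]
      simp only
      rw [mul_div_cancel₀ _ hM0.ne']
      have e1 := cc_bd hf hf κ (3 ^ od (48 * j) y * X / 2 ^ (48 * j)) (((D : ℤ) + od (48 * j) y' - od (48 * j) y).toNat) 0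
      have e2 := cc_bd hf hf κ (3 ^ cA j (od (48 * j) y) * X / 2 ^ (48 * j)) (cD w ((D : ℤ) + od (48 * j) y' - od (48 * j) y)) 0
      rw [abs_le] at e1 e2 ⊢
      constructor <;> linarith
  have f5 : |ex (48 * j) (fun y => M * φ (od (48 * j) y) (rn stP (48 * j) ((D : ℤ), 0) y).1) -
      ex (48 * j) (fun y => ex (48 * j) (fun y' => M * φ (od (48 * j) y) ((D : ℤ) + od (48 * j) y' - od (48 * j) y)))| ≤ M * (C₃ / w) := by
    have e1 : ex (48 * j) (fun y => ex (48 * j) (fun y' => M * φ (od (48 * j) y) ((D : ℤ) + od (48 * j) y' - od (48 * j) y))) =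
        M * ex (48 * j) (fun y => ex (48 * j) (fun y' => φ (od (48 * j) y) ((D : ℤ) + od (48 * j) y' - od (48 * j) y))) := by
      rw [← ex_mul]
      apply ex_congr
      intro y
      rw [ex_mul]
    rw [ex_mul, e1, ← mul_sub, abs_mul, abs_of_pos hM0]
    exact mul_le_mul_of_nonneg_left f3 hM0.le
  refine (abs_sub_le _ _ _).trans ((add_le_add f1 ((abs_sub_le _ _ _).trans (add_le_add f2 ((abs_sub_le _ _ _).trans
    (add_le_add f5 f4))))).trans ?_)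
  have e9 : (C₁ + M * C₃ + 6400) / (w : ℝ) = C₁ / w + (4 * (400 / w) + 4 * (400 / w) + (M * (C₃ / w) + (0 + 4 * (400 / w) + 4 * (400 / w)))) := by ring
  rw [e9]
  linarith

/-- the correlation of two exponents after 48 more stages -/
theorem coreP (hF : S_FT) (hL : S_LIP) (hW : S_LAW) : ∃ C : ℝ, 0 < C ∧ ∀ᶠ w : ℕ in atTop, ∀ j, w ^ 80 ≤ j → j ≤ 2 * w ^ 80 →
    ∀ f : ℤ → ℝ, Iv f → ∀ κ : ℝ, |κ| ≤ 1 → ∀ (N : ℝ) (t o o' : ℕ), (2 : ℝ) ^ (20 * j) ≤ 3 ^ min o o' * N / 2 ^ t →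
    w ^ 42 ≤ max o o' - min o o' → max o o' - min o o' ≤ w ^ 48 →
    |PK f κ N t o o' - ex (48 * j) (fun u => ex (48 * j) (fun u' => PK f κ N (t + 48 * j) (o + od (48 * j) u) (o' + od (48 * j) u')))| ≤ C / w := by
  obtain ⟨C, hC, h⟩ := core hF hL hW
  refine ⟨C + 3200, by positivity, ?_⟩
  filter_upwards [h, eventually_ge_atTop 10] with w h hw10 j hj1 hj2 f hf κ hκ N t o o' hX hD1 hD2
  have hw1 : 1 ≤ w := by omega
  have hw0 : (0 : ℝ) < w := by exact_mod_cast hw1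
  have hpb := pb_BB hw1 hj1 hj2
  have main : ∀ o o' : ℕ, o ≤ o' → (2 : ℝ) ^ (20 * j) ≤ 3 ^ o * N / 2 ^ t → w ^ 42 ≤ o' - o → o' - o ≤ w ^ 48 →
      |PK f κ N t o o' - ex (48 * j) (fun u => ex (48 * j) (fun u' => PK f κ N (t + 48 * j) (o + od (48 * j) u) (o' + od (48 * j) u')))| ≤ (C + 3200) / w := by
    intro o o' hoo hX hD1 hD2
    have g1 := h j hj1 hj2 f hf κ hκ _ hX (o' - o) hD1 hD2
    have g2 : |ex (48 * j) (fun y => ex (48 * j) (fun y' => cc f f κ (3 ^ od (48 * j) y * (3 ^ o * N / 2 ^ t) / 2 ^ (48 * j))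
        (((o' - o : ℕ) : ℤ) + od (48 * j) y' - od (48 * j) y).toNat 0)) -
        ex (48 * j) (fun u => ex (48 * j) (fun u' => PK f κ N (t + 48 * j) (o + od (48 * j) u) (o' + od (48 * j) u')))| ≤
          0 + 4 * pb (48 * j) (BB w j) + 4 * pb (48 * j) (BB w j) := by
      apply ex_cmp2 le_rfl
      · intro y y' hy hy'
        obtain ⟨g1, g2, g3, g4⟩ := not_BB hw10 hj1 hy
        obtain ⟨g5, g6, g7, g8⟩ := not_BB hw10 hj1 hy'
        have hw41 : (w : ℤ) ^ 41 ≤ (w : ℤ) ^ 42 := pow_le_pow_right₀ (by exact_mod_cast hw1) (by norm_num)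
        have hD : (w : ℤ) ^ 42 ≤ ((o' - o : ℕ) : ℤ) := by exact_mod_cast hD1
        have hle : o + od (48 * j) y ≤ o' + od (48 * j) y' := by omega
        unfold PK
        rw [min_eq_left hle, max_eq_right hle]
        rw [show (3 : ℝ) ^ od (48 * j) y * (3 ^ o * N / 2 ^ t) / 2 ^ (48 * j) = 3 ^ (o + od (48 * j) y) * N / 2 ^ (t + 48 * j) by
          rw [pow_add, pow_add]; ring]
        rw [show (((o' - o : ℕ) : ℤ) + od (48 * j) y' - od (48 * j) y).toNat = o' + od (48 * j) y' - (o + od (48 * j) y) by omega]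
        rw [sub_self, abs_zero]
      · intro y y'
        unfold PK
        have e1 := cc_bd hf hf κ (3 ^ od (48 * j) y * (3 ^ o * N / 2 ^ t) / 2 ^ (48 * j)) ((((o' - o : ℕ) : ℤ) + od (48 * j) y' - od (48 * j) y).toNat) 0
        have e2 := cc_bd hf hf κ (3 ^ min (o + od (48 * j) y) (o' + od (48 * j) y') * N / 2 ^ (t + 48 * j))
          (max (o + od (48 * j) y) (o' + od (48 * j) y') - min (o + od (48 * j) y) (o' + od (48 * j) y')) 0
        rw [abs_le] at e1 e2 ⊢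
        constructor <;> linarith
    have g3 : PK f κ N t o o' = cc f f κ (3 ^ o * N / 2 ^ t) (o' - o) 0 := by
      unfold PK
      rw [min_eq_left hoo, max_eq_right hoo]
    rw [g3]
    refine (abs_sub_le _ _ _).trans ((add_le_add g1 g2).trans ?_)
    have e9 : (C + 3200) / (w : ℝ) = C / w + (0 + 4 * (400 / w) + 4 * (400 / w)) := by ring
    rw [e9]
    linarith
  rcases le_total o o' with hoo | hoo
  · rw [min_eq_left hoo] at hX hD1 hD2
    rw [max_eq_right hoo] at hD1 hD2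
    exact main o o' hoo hX hD1 hD2
  · rw [min_eq_right hoo] at hX hD1 hD2
    rw [max_eq_left hoo] at hD1 hD2
    have g1 := main o' o hoo hX hD1 hD2
    have g2 : ∀ t a b, PK f κ N t a b = PK f κ N t b a := by
      intro t a b
      unfold PK
      rw [min_comm, max_comm]
    rw [g2 t o o', ex_comm]
    have g3 : (fun y => ex (48 * j) (fun y' => PK f κ N (t + 48 * j) (o + od (48 * j) y') (o' + od (48 * j) y))) =
        (fun y => ex (48 * j) (fun y' => PK f κ N (t + 48 * j) (o' + od (48 * j) y) (o + od (48 * j) y'))) := by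
      funext y
      apply ex_congr
      intro y'
      exact g2 _ _ _
    rw [g3]
    exact g1

end Pool.Agent.J4H26.PC
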