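import Mathlib
import Pool.Agent.J4H26.PC.B2
import Pool.Agent.J4H26.PC.B4

set_option autoImplicit false

/-! Project PC: the base case of the comparison of the mean squares of window averages. -/

namespace Pool.Agent.J4H26.PC

open Finset Filter Real MeasureTheory
open Pool.Agent.J4H39 (T od ex pb ns rn stP stK lb GK Cm DV th0 ex_mono ex_congr ex_add ex_mul ex_const ex_sum ex_nonneg
  pb_nonneg pb_mono pb_or Per per_od ex_pair pb_od pb_le_one th0_pos th0_lt th0_gt three_pow ex_per od_comp rel_rn rel_nat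
  pb_affine pow3_odd pb_exists)
open Pool.Agent.J4H26.AF (pm pm_le pb_od_eq)

/-- few words have their number of odd steps in a given short interval -/
theorem pb_short {t : ℕ} (ht : 1 ≤ t) (k : ℤ) (d : ℕ) :
    pb t (fun y => |(od t y : ℤ) - k| < d) ≤ (2 * (d : ℝ) + 1) / √t := by
  have h1 : pb t (fun y => |(od t y : ℤ) - k| < d) ≤ pb t (fun y => ∃ i ∈ Finset.Ico (k - d) (k + d + 1), (od t y : ℤ) = i) := by
    apply pb_mono
    intro y hy
    rw [abs_lt] at hy
    exact ⟨_, by rw [Finset.mem_Ico]; omega, rfl⟩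
  have h2 := pb_exists (Finset.Ico (k - d) (k + d + 1)) t (fun i y => (od t y : ℤ) = i)
  refine (h1.trans h2).trans ?_
  have h3 : ∀ i ∈ Finset.Ico (k - d) (k + d + 1), pb t (fun y => (od t y : ℤ) = i) ≤ 1 / √t := by
    intro i _
    rw [pb_od_eq]
    exact pm_le ht i
  refine (sum_le_card_nsmul _ _ _ h3).trans ?_
  rw [Int.card_Ico, nsmul_eq_mul, show (k + d + 1 - (k - d)).toNat = 2 * d + 1 by omega]
  push_cast
  rw [mul_one_div]

theorem VV_neg (f : ℤ → ℝ) (κ : ℝ) {a : ℝ} (ha : a < 0) (N : ℝ) : VV f κ a N = 0 := by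
  unfold VV Ph
  have h : ∀ x : ℝ, (∑ n ∈ Finset.Ico ⌈x⌉ ⌈x + a⌉, f n) / max a 1 = 0 := by
    intro x
    have h1 : ⌈x + a⌉ ≤ ⌈x⌉ := Int.ceil_le_ceil (by linarith)
    rw [Finset.Ico_eq_empty (by omega), sum_empty, zero_div]
  simp only [h]
  simp

theorem base_words (hF : S_FT) (hL : S_LIP) (hW : S_LAW) : ∃ C : ℝ, 0 < C ∧ ∀ᶠ w : ℕ in atTop, ∀ j, w ^ 80 ≤ j → j ≤ 2 * w ^ 80 →
    ∀ f : ℤ → ℝ, Iv f → ∀ κ : ℝ, |κ| ≤ 1 → ∀ (a N : ℝ) (t : ℕ), w ^ 88 ≤ t → t ≤ 100 * w ^ 88 → 0 < a →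
    (w : ℝ) ^ 53 - 1 ≤ logb 2 a - th0 * t → (2 : ℝ) ^ (20 * j) * a ≤ N →
    |ex t (fun y => ex t (fun y' => PK f κ N t (od t y) (od t y'))) -
      ex (t + 48 * j) (fun y => ex (t + 48 * j) (fun y' => PK f κ N (t + 48 * j) (od (t + 48 * j) y) (od (t + 48 * j) y')))| ≤ C / w := by
  obtain ⟨C, hC, h⟩ := coreP hF hL hW
  refine ⟨C + 3200 + 20, by positivity, ?_⟩
  filter_upwards [h, eventually_ge_atTop 10] with w h hw10 j hj1 hj2 f hf κ hκ a N t ht1 ht2 ha hlen hN
  have hw1 : 1 ≤ w := by omega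
  have hw0 : (0 : ℝ) < w := by exact_mod_cast hw1
  have hw1' : (1 : ℝ) ≤ w := by exact_mod_cast hw1
  have hw10' : (10 : ℝ) ≤ w := by exact_mod_cast hw10
  have ht : 1 ≤ t := (Nat.one_le_pow _ _ hw1).trans ht1
  have ht0 : (0 : ℝ) < t := by exact_mod_cast ht
  rw [od_split2 t (48 * j) (fun o o' => PK f κ N (t + 48 * j) o o')]
  have hpb := pb_dev_w hw1 ht ht2
  have hth := th0_pos
  have hth4 := th0_lt
  have hp53 : 2 * (w : ℝ) ^ 45 + 2 ≤ (w : ℝ) ^ 53 := by
    have e1 : (w : ℝ) ^ 53 = (w : ℝ) ^ 45 * (w : ℝ) ^ 8 := by rw [← pow_add]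
    have e2 : (10 : ℝ) ≤ (w : ℝ) ^ 8 := hw10'.trans (le_self_pow₀ (by linarith) (by norm_num))
    have e4 : (1 : ℝ) ≤ (w : ℝ) ^ 45 := one_le_pow₀ (by linarith)
    rw [e1]
    nlinarith
  have hshort : ∀ k : ℤ, pb t (fun y => |(od t y : ℤ) - k| < (w ^ 42 : ℕ)) ≤ 3 / w := by
    intro k
    refine (pb_short ht k (w ^ 42)).trans ?_
    have h1 : (w : ℝ) ^ 44 ≤ √t := by
      apply Real.le_sqrt_of_sq_le
      rw [← pow_mul]
      exact_mod_cast ht1
    push_cast
    rw [div_le_div_iff₀ (by positivity) hw0]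
    calc (2 * (w : ℝ) ^ 42 + 1) * w ≤ (2 * (w : ℝ) ^ 42 + (w : ℝ) ^ 42) * w := by
          have : (1 : ℝ) ≤ (w : ℝ) ^ 42 := one_le_pow₀ hw1'
          gcongr
      _ = 3 * (w : ℝ) ^ 43 := by ring
      _ ≤ 3 * (w : ℝ) ^ 44 := by gcongr <;> norm_num
      _ ≤ 3 * √t := by gcongr
  have key := ex_cmp (t := t) (F := fun y => ex t (fun y' => PK f κ N t (od t y) (od t y')))
    (G := fun y => ex t (fun y' => ex (48 * j) (fun u => ex (48 * j) (fun u' => PK f κ N (t + 48 * j) (od t y + od (48 * j) u) (od t y' + od (48 * j) u')))))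
    (Bad := fun y => (w : ℝ) ^ 45 ≤ |2 * (od t y : ℝ) - t|) (c := C / w + 4 * (400 / w + 3 / w)) (M := 4) (by positivity) (by
      intro y hy
      rw [not_le] at hy
      have key2 := ex_cmp (t := t) (F := fun y' => PK f κ N t (od t y) (od t y'))
        (G := fun y' => ex (48 * j) (fun u => ex (48 * j) (fun u' => PK f κ N (t + 48 * j) (od t y + od (48 * j) u) (od t y' + od (48 * j) u'))))
        (Bad := fun y' => (w : ℝ) ^ 45 ≤ |2 * (od t y' : ℝ) - t| ∨ |(od t y' : ℤ) - od t y| < (w ^ 42 : ℕ)) (c := C / w) (M := 4) (by positivity) (by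
          intro y' hy'
          rw [not_or, not_le, not_lt] at hy'
          obtain ⟨hy1, hy2⟩ := hy'
          have hX0 : ∀ m : ℕ, (0 : ℝ) < 3 ^ m * a / 2 ^ t := fun m => by positivity
          have hmm : |2 * ((min (od t y) (od t y') : ℕ) : ℝ) - t| < (w : ℝ) ^ 45 := by
            rcases min_choice (od t y) (od t y') with h | h <;> rw [h] <;> assumption
          apply h j hj1 hj2 f hf κ hκ N t (od t y) (od t y')
          · set m := min (od t y) (od t y') with hm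
            have hlog := len_eq (w := w) (t := t) (m := m) ha
            rw [abs_lt] at hmm
            have h3 : |(1 - th0) * (2 * (m : ℝ) - t)| ≤ (w : ℝ) ^ 45 := by
              rw [abs_le]; constructor <;> nlinarith
            rw [abs_le] at h3
            have e2 : (1 : ℝ) ≤ 3 ^ m * a / 2 ^ t := by
              rw [show (1 : ℝ) = (2 : ℝ) ^ (0 : ℝ) by rw [Real.rpow_zero], ← Real.le_logb_iff_rpow_le (by norm_num) (hX0 m), hlog]
              have : (0 : ℝ) ≤ (w : ℝ) ^ 45 := by positivity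
              linarith
            calc (2 : ℝ) ^ (20 * j) ≤ (2 : ℝ) ^ (20 * j) * (3 ^ m * a / 2 ^ t) := le_mul_of_one_le_right (by positivity) e2
              _ = 3 ^ m * ((2 : ℝ) ^ (20 * j) * a) / 2 ^ t := by ring
              _ ≤ 3 ^ m * N / 2 ^ t := by gcongr
          · rcases le_total (od t y) (od t y') with hh | hh
            · rw [min_eq_left hh, max_eq_right hh]
              rw [abs_of_nonneg (by omega)] at hy2
              omega
            · rw [min_eq_right hh, max_eq_left hh]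
              rw [abs_of_nonpos (by omega)] at hy2
              omega
          · rw [abs_lt] at hmm hy hy1
            have h5 : ((max (od t y) (od t y') : ℕ) : ℝ) ≤ t / 2 + (w : ℝ) ^ 45 := by
              rcases max_choice (od t y) (od t y') with h | h <;> rw [h] <;> linarith
            set m := min (od t y) (od t y') with hm
            have h6 : (t : ℝ) / 2 - (w : ℝ) ^ 45 ≤ m := by linarith
            have h7 : ((max (od t y) (od t y') : ℕ) : ℝ) ≤ m + (w : ℝ) ^ 48 := by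
              have e1 : 2 * (w : ℝ) ^ 45 ≤ (w : ℝ) ^ 48 := by
                have e2 : (w : ℝ) ^ 48 = (w : ℝ) ^ 45 * (w : ℝ) ^ 3 := by rw [← pow_add]
                have e3 : (10 : ℝ) ≤ (w : ℝ) ^ 3 := hw10'.trans (le_self_pow₀ (by linarith) (by norm_num))
                rw [e2]; nlinarith [pow_nonneg (by positivity : (0 : ℝ) ≤ w) 45]
              linarith
            have h8 : max (od t y) (od t y') ≤ m + w ^ 48 := by exact_mod_cast h7
            omega) (by
          intro y'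
          have e1 := cc_bd hf hf κ (3 ^ min (od t y) (od t y') * N / 2 ^ t) (max (od t y) (od t y') - min (od t y) (od t y')) 0
          have e2 : |ex (48 * j) (fun u => ex (48 * j) (fun u' => PK f κ N (t + 48 * j) (od t y + od (48 * j) u) (od t y' + od (48 * j) u')))| ≤ 2 :=
            ex_abs (fun u => ex_abs (fun u' => cc_bd hf hf _ _ _ _))
          unfold PK at e2 ⊢
          rw [abs_le] at e1 e2 ⊢
          constructor <;> linarith)
      refine key2.trans ?_
      have := (pb_or t (fun y' => (w : ℝ) ^ 45 ≤ |2 * (od t y' : ℝ) - t|) (fun y' => |(od t y' : ℤ) - od t y| < (w ^ 42 : ℕ))).trans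
        (add_le_add hpb (hshort (od t y)))
      linarith) (by
      intro y
      have e1 : |ex t (fun y' => PK f κ N t (od t y) (od t y'))| ≤ 2 := ex_abs (fun u => cc_bd hf hf _ _ _ _)
      have e2 : |ex t (fun y' => ex (48 * j) (fun u => ex (48 * j) (fun u' => PK f κ N (t + 48 * j) (od t y + od (48 * j) u) (od t y' + od (48 * j) u'))))| ≤ 2 :=
        ex_abs (fun v => ex_abs (fun u => ex_abs (fun u' => cc_bd hf hf _ _ _ _)))
      rw [abs_le] at e1 e2 ⊢
      constructor <;> linarith)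
  refine key.trans ?_
  have e9 : (C + 3200 + 20) / (w : ℝ) = C / w + 4 * (400 / w + 3 / w) + 4 * (400 / w) + 8 / w := by ring
  rw [e9]
  have : (0 : ℝ) ≤ 8 / w := by positivity
  linarith

theorem t_BASE (hS : S_STM) (hF : S_FT) (hG : S_GAM) (hL : S_LIP) (hW : S_LAW) : S_BASE := by
  obtain ⟨C₁, hC₁, h1⟩ := step2 hS hG
  obtain ⟨C₂, hC₂, h2⟩ := base_words hF hL hW
  refine ⟨2 * C₁ + C₂, by positivity, ?_⟩
  filter_upwards [h1, h2, eventually_ge_atTop 10] with w h1 h2 hw10 j hj1 hj2 f hf κ hκ l a hl1 hl2 ha1 ha2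
  have hw1 : 1 ≤ w := by omega
  have hw0 : (0 : ℝ) < w := by exact_mod_cast hw1
  have hw1' : (1 : ℝ) ≤ w := by exact_mod_cast hw1
  have hw10' : (10 : ℝ) ≤ w := by exact_mod_cast hw10
  have hth := th0_pos
  have hth4 := th0_lt
  have hth5 := th0_gt
  rcases lt_trichotomy a 0 with ha | ha | ha
  · rw [VV_neg f κ ha, VV_neg f κ (by nlinarith [show (0 : ℝ) < 2 ^ ⌊48 * th0 * j⌋₊ by positivity]), sub_zero, abs_zero]
    positivity
  · rw [ha, Real.logb_zero] at ha1
    have e1 : (10 : ℝ) ≤ (w : ℝ) ^ 88 := hw10'.trans (le_self_pow₀ hw1' (by norm_num))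
    linarith
  have hw53 : (w : ℝ) ^ 53 ≤ (w : ℝ) ^ 54 := pow_le_pow_right₀ hw1' (by norm_num)
  have hw54 : 10 * (w : ℝ) ^ 53 ≤ (w : ℝ) ^ 54 := by
    rw [pow_succ (w : ℝ) 53]
    nlinarith [pow_nonneg (by positivity : (0 : ℝ) ≤ w) 53]
  have hw88 : (w : ℝ) ^ 54 ≤ (w : ℝ) ^ 88 := pow_le_pow_right₀ hw1' (by norm_num)
  have hw53' : (10 : ℝ) ≤ (w : ℝ) ^ 53 := hw10'.trans (le_self_pow₀ hw1' (by norm_num))
  set t : ℕ := ⌊(logb 2 a - (w : ℝ) ^ 53) / th0⌋₊ with ht
  have hq0 : 0 ≤ (logb 2 a - (w : ℝ) ^ 53) / th0 := div_nonneg (by linarith) hth.le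
  have ht1 : (t : ℝ) ≤ (logb 2 a - (w : ℝ) ^ 53) / th0 := Nat.floor_le hq0
  have ht2 : (logb 2 a - (w : ℝ) ^ 53) / th0 < t + 1 := Nat.lt_floor_add_one _
  rw [le_div_iff₀ hth] at ht1
  rw [div_lt_iff₀ hth] at ht2
  have ht3 : (w : ℝ) ^ 88 ≤ t := by nlinarith
  have ht4 : (t : ℝ) ≤ 20 * (w : ℝ) ^ 88 := by nlinarith
  have ht5 : w ^ 88 ≤ t := by exact_mod_cast ht3
  have ht6 : t ≤ 20 * w ^ 88 := by exact_mod_cast ht4
  have ht7 : w ^ 52 ≤ t := (Nat.pow_le_pow_right hw1 (by norm_num)).trans ht5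
  have hj3 : 48 * j ≤ 80 * w ^ 88 := by
    have e1 : w ^ 88 = w ^ 80 * w ^ 8 := by rw [← pow_add]
    have e2 : 2 ≤ w ^ 8 := le_trans (by norm_num) (Nat.pow_le_pow_left hw10 8)
    have e3 : w ^ 80 * 2 ≤ w ^ 80 * w ^ 8 := Nat.mul_le_mul_left _ e2
    omega
  set β : ℕ := ⌊48 * th0 * j⌋₊ with hβ
  have hβ0 : 0 ≤ 48 * th0 * (j : ℝ) := by positivity
  have hβ1 : (β : ℝ) ≤ 48 * th0 * j := Nat.floor_le hβ0
  have hβ2 : 48 * th0 * j < β + 1 := Nat.lt_floor_add_one _
  have hβ3 : β ≤ 12 * j := by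
    have : (β : ℝ) ≤ 12 * j := by nlinarith [show (0 : ℝ) ≤ j from Nat.cast_nonneg j]
    exact_mod_cast this
  have ha' : (0 : ℝ) < 2 ^ β * a := by positivity
  have hlogb : logb 2 (2 ^ β * a) = β + logb 2 a := by
    rw [Real.logb_mul (by positivity) ha.ne', Real.logb_pow, Real.logb_self_eq_one (by norm_num), mul_one]
  have g1 := h1 t ht7 (by omega) f hf κ hκ a (2 ^ l * a) ha (by
    rw [abs_le]; constructor <;> linarith) (by
    apply mul_le_mul_of_nonneg_right _ ha.le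
    exact pow_le_pow_right₀ (by norm_num) (by omega))
  have g2 := h2 j hj1 hj2 f hf κ hκ a (2 ^ l * a) t ht5 (by omega) ha (by linarith) (by
    apply mul_le_mul_of_nonneg_right _ ha.le
    exact pow_le_pow_right₀ (by norm_num) hl1)
  have g3 := h1 (t + 48 * j) (by omega) (by omega) f hf κ hκ (2 ^ β * a) (2 ^ l * a) ha' (by
    rw [hlogb, abs_le]; push_cast; constructor <;> linarith) (by
    rw [← mul_assoc, ← pow_add]
    apply mul_le_mul_of_nonneg_right _ ha.le
    exact pow_le_pow_right₀ (by norm_num) (by omega))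
  rw [abs_sub_comm] at g3
  refine (abs_sub_le _ _ _).trans ((add_le_add g1 ((abs_sub_le _ _ _).trans (add_le_add g2 g3))).trans ?_)
  have e9 : (2 * C₁ + C₂) / √w = C₁ / √w + (C₂ * (1 / √w) + C₁ / √w) := by ring
  have e10 : C₂ / (w : ℝ) = C₂ * (1 / w) := by ring
  rw [e9, e10]
  have := mul_le_mul_of_nonneg_left (inv_le_inv_sqrt hw1) hC₂.le
  linarith

end Pool.Agent.J4H26.PC
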