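import Mathlib
import Pool.Agent.J4H26.PC.Q1
import Pool.Agent.J4H26.PC.B5

set_option autoImplicit false

/-! Project PC: far from the diagonal there is no correlation at small heights. -/

namespace Pool.Agent.J4H26.PC

open Finset Filter Real MeasureTheory
open Pool.Agent.J4H39 (T od ex pb ns rn stP stK lb GK Cm DV th0 ex_mono ex_congr ex_add ex_mul ex_const ex_sum ex_nonneg
  pb_nonneg pb_mono pb_or Per per_od ex_pair pb_od pb_le_one th0_pos th0_lt th0_gt three_pow ex_per od_comp rel_rn rel_nat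
  pb_affine pow3_odd pb_exists ex_zero)

theorem root80 (j : ℕ) : ∃ w : ℕ, w ^ 80 ≤ j ∧ j < (w + 1) ^ 80 := by
  refine ⟨Nat.nthRoot 80 j, ?_, ?_⟩
  · exact Nat.pow_nthRoot_le (Or.inl (by norm_num))
  · exact Nat.lt_pow_nthRoot_add_one (by norm_num) j

theorem succ80 {w : ℕ} (hw : 160 ≤ w) : (w + 1) ^ 80 ≤ 2 * w ^ 80 := by
  have hw0 : (0 : ℝ) < w := by
    have : 0 < w := by omega
    exact_mod_cast this
  have h1 : ((w : ℝ) + 1) ^ 80 ≤ 2 * (w : ℝ) ^ 80 := by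
    have e1 : (w : ℝ) + 1 = w * (1 + 1 / w) := by field_simp
    have hw160 : (160 : ℝ) ≤ w := by exact_mod_cast hw
    have e2 : 1 / (w : ℝ) ≤ 1 / 160 := one_div_le_one_div_of_le (by norm_num) hw160
    rw [e1, mul_pow, mul_comm]
    apply mul_le_mul_of_nonneg_right _ (by positivity)
    calc (1 + 1 / (w : ℝ)) ^ 80 ≤ (1 + 1 / 160) ^ 80 := by gcongr
      _ ≤ 2 := by norm_num
  exact_mod_cast h1

/-- the correlation averaged over independent words -/
noncomputable def EE (f : ℤ → ℝ) (κ X : ℝ) (D t : ℕ) : ℝ :=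
  ex t (fun y => ex t (fun y' => cc f f κ (3 ^ od t y * X / 2 ^ t) ((D : ℤ) + od t y' - od t y).toNat 0))

theorem EE_zero (f : ℤ → ℝ) (κ X : ℝ) (D : ℕ) : EE f κ X D 0 = cc f f κ X D 0 := by
  unfold EE
  rw [ex_zero, ex_zero]
  have : od 0 0 = 0 := rfl
  rw [this]
  simp

/-- a scale adapted to `j` -/
theorem scale80 {v j : ℕ} (hv : 200 ≤ v) (hj : v ^ 80 ≤ j) : ∃ w : ℕ, v ≤ w ∧ w ^ 80 ≤ j ∧ j ≤ 2 * w ^ 80 := by
  obtain ⟨w, hw1, hw2⟩ := root80 j
  have hwv : v ≤ w := by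
    by_contra hlt
    push Not at hlt
    have : (w + 1) ^ 80 ≤ v ^ 80 := Nat.pow_le_pow_left hlt 80
    exact absurd (hj.trans_lt (hw2.trans_le this)) (lt_irrefl _)
  exact ⟨w, hwv, hw1, hw2.le.trans (succ80 (le_trans (by norm_num) (hv.trans hwv)))⟩

theorem band_arith {lam A j : ℝ} (hA : 200 ≤ A) (h : 42 * A ≤ lam) (hj1 : j ≤ lam / 21) (hj2 : lam / 21 < j + 1) (hj0 : 0 ≤ j) :
    18 * A ≤ lam - 48 * th0 * j ∧ lam - 48 * th0 * j ≤ 55 / 100 * lam := by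
  have h4 := mul_le_mul_of_nonneg_right th0_lt.le hj0
  have h5 := mul_le_mul_of_nonneg_right th0_gt.le hj0
  constructor <;> linarith

theorem t_arith {lam L A B : ℝ} {t : ℕ} (hlam : lam = L - th0 * t) (hL : L ≤ 14 * A) (h : 42 * B ≤ lam) (hB : 0 ≤ B) (hA : 0 ≤ A) :
    (t : ℝ) ≤ 100 * A := by
  have h5 := mul_le_mul_of_nonneg_right th0_gt.le (show (0 : ℝ) ≤ t from Nat.cast_nonneg t)
  linarith

theorem height_arith {lam j V W e : ℝ} (h1 : 21 * j ≤ lam) (h2 : V ≤ W) (h3 : W ≤ j) (h4 : -V < e) (h5 : e < V) :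
    20 * j ≤ lam + (1 - th0) * e := by
  have hth := th0_pos
  have hth4 := th0_lt
  nlinarith

theorem exp_arith {w v j : ℕ} (hv : 200 ≤ v) (hw1 : w ^ 80 ≤ j) (e0 : j ≤ v ^ 88) : 2 * w ^ 42 ≤ v ^ 47 := by
  have e1 : (w ^ 10) ^ 8 ≤ (v ^ 11) ^ 8 := by
    rw [← pow_mul, ← pow_mul]; exact hw1.trans e0
  have e2 : w ^ 10 ≤ v ^ 11 := (Nat.pow_le_pow_iff_left (by norm_num)).1 e1
  have e3 : (2 * w ^ 42) ^ 5 ≤ (v ^ 47) ^ 5 := by
    calc (2 * w ^ 42) ^ 5 = 32 * (w ^ 10) ^ 21 := by rw [mul_pow, ← pow_mul, ← pow_mul]; norm_num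
      _ ≤ 32 * (v ^ 11) ^ 21 := Nat.mul_le_mul_left _ (Nat.pow_le_pow_left e2 21)
      _ ≤ v ^ 4 * (v ^ 11) ^ 21 := by
          apply Nat.mul_le_mul_right
          calc 32 ≤ 200 ^ 4 := by norm_num
            _ ≤ v ^ 4 := Nat.pow_le_pow_left hv 4
      _ = (v ^ 47) ^ 5 := by rw [← pow_mul, ← pow_mul, ← pow_add]
  exact (Nat.pow_le_pow_iff_left (by norm_num)).1 e3

/-- one more band -/
theorem EE_step (hF : S_FT) (hL : S_LIP) (hW : S_LAW) : ∃ K : ℝ, 0 < K ∧ ∀ᶠ v : ℕ in atTop, ∀ f : ℤ → ℝ, Iv f → ∀ κ : ℝ, |κ| ≤ 1 →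
    ∀ X : ℝ, 0 < X → logb 2 X ≤ 14 * (v : ℝ) ^ 88 → ∀ D : ℕ, v ^ 47 ≤ D → 2 * D ≤ v ^ 48 → ∀ t : ℕ,
    42 * (v : ℝ) ^ 80 ≤ logb 2 X - th0 * t → ∃ t' : ℕ, 18 * (v : ℝ) ^ 80 ≤ logb 2 X - th0 * t' ∧
      logb 2 X - th0 * t' ≤ 55 / 100 * (logb 2 X - th0 * t) ∧ |EE f κ X D t - EE f κ X D t'| ≤ K / v := by
  obtain ⟨C, hC, h⟩ := core hF hL hW
  refine ⟨C + 3200, by positivity, ?_⟩
  obtain ⟨w₀, hw₀⟩ := eventually_atTop.1 h
  filter_upwards [eventually_ge_atTop (max w₀ 200)] with v hv f hf κ hκ X hX hX2 D hD1 hD2 t ht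
  have hv0 : w₀ ≤ v := (le_max_left _ _).trans hv
  have hv200 : 200 ≤ v := (le_max_right _ _).trans hv
  have hv1 : 1 ≤ v := by omega
  have hv1' : (1 : ℝ) ≤ v := by exact_mod_cast hv1
  have hv200' : (200 : ℝ) ≤ v := by exact_mod_cast hv200
  have hvp : (0 : ℝ) < v := by linarith
  have hth := th0_pos
  have hth4 := th0_lt
  have hth5 := th0_gt
  set lam := logb 2 X - th0 * t with hlam
  have h80 : (200 : ℝ) ≤ (v : ℝ) ^ 80 := hv200'.trans (le_self_pow₀ hv1' (by norm_num))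
  set j : ℕ := ⌊lam / 21⌋₊ with hj
  have hj1 : (j : ℝ) ≤ lam / 21 := Nat.floor_le (by linarith)
  have hj2 : lam / 21 < j + 1 := Nat.lt_floor_add_one _
  have hj3 : (v : ℝ) ^ 80 ≤ j := by linarith
  have hj4 : v ^ 80 ≤ j := by exact_mod_cast hj3
  obtain ⟨w, hwv, hw1, hw3⟩ := scale80 hv200 hj4
  have hw10 : 10 ≤ w := by omega
  have ht2 : t ≤ 100 * v ^ 88 := by
    have : (t : ℝ) ≤ 100 * (v : ℝ) ^ 88 := t_arith hlam hX2 ht (by positivity) (by positivity)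
    exact_mod_cast this
  have hba := band_arith h80 ht hj1 hj2 (Nat.cast_nonneg j)
  refine ⟨t + 48 * j, ?_, ?_, ?_⟩
  · push_cast
    have : logb 2 X - th0 * (t + 48 * j) = lam - 48 * th0 * j := by rw [hlam]; ring
    rw [this]
    exact hba.1
  · push_cast
    have : logb 2 X - th0 * (t + 48 * j) = lam - 48 * th0 * j := by rw [hlam]; ring
    rw [this]
    exact hba.2
  unfold EE
  rw [od_split2 t (48 * j) (fun o o' => cc f f κ (3 ^ o * X / 2 ^ (t + 48 * j)) ((D : ℤ) + o' - o).toNat 0)]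
  -- the exponents
  have hD47 : 2 * w ^ 42 ≤ v ^ 47 := by
    apply exp_arith hv200 hw1
    have : (j : ℝ) ≤ (v : ℝ) ^ 88 := by
      have h1 : (0 : ℝ) ≤ th0 * t := by positivity
      have h2 : (0 : ℝ) ≤ (v : ℝ) ^ 88 := by positivity
      linarith
    exact_mod_cast this
  have hv45 : 4 * v ^ 45 ≤ v ^ 47 := by
    calc 4 * v ^ 45 ≤ v ^ 2 * v ^ 45 := by
          apply Nat.mul_le_mul_right
          calc 4 ≤ 200 ^ 2 := by norm_num
            _ ≤ v ^ 2 := Nat.pow_le_pow_left hv200 2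
      _ = v ^ 47 := by rw [← pow_add]
  have hv47 : 4 * v ^ 47 ≤ v ^ 48 := by
    rw [pow_succ v 47, mul_comm]
    exact Nat.mul_le_mul_left _ (by omega)
  have hvw48 : v ^ 48 ≤ w ^ 48 := Nat.pow_le_pow_left hwv 48
  have hpb := fun ht1 : 1 ≤ t => pb_dev_w hv1 ht1 ht2
  have hpb' : pb t (fun y => (v : ℝ) ^ 45 ≤ |2 * (od t y : ℝ) - t|) ≤ 400 / v := by
    rcases Nat.eq_zero_or_pos t with h0 | h0
    · subst h0
      have : pb 0 (fun y => (v : ℝ) ^ 45 ≤ |2 * (od 0 y : ℝ) - (0 : ℕ)|) ≤ pb 0 (fun _ => False) := by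
        apply pb_mono
        intro y hy
        have e1 : od 0 y = 0 := rfl
        rw [e1] at hy
        norm_num at hy
        have : (0 : ℝ) < (v : ℝ) ^ 45 := by positivity
        linarith
      refine this.trans ?_
      unfold pb
      simp only [if_false]
      rw [ex_const]
      positivity
    · exact hpb h0
  have key := ex_cmp2 (t := t) (t' := t)
    (F := fun y y' => cc f f κ (3 ^ od t y * X / 2 ^ t) ((D : ℤ) + od t y' - od t y).toNat 0)
    (G := fun y y' => ex (48 * j) (fun u => ex (48 * j) (fun u' => cc f f κ (3 ^ (od t y + od (48 * j) u) * X / 2 ^ (t + 48 * j))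
      ((D : ℤ) + ((od t y' + od (48 * j) u' : ℕ) : ℤ) - ((od t y + od (48 * j) u : ℕ) : ℤ)).toNat 0)))
    (Bad := fun y => (v : ℝ) ^ 45 ≤ |2 * (od t y : ℝ) - t|) (Bad' := fun y => (v : ℝ) ^ 45 ≤ |2 * (od t y : ℝ) - t|)
    (c := C / v) (M := 4) (by positivity) (by
      intro y y' hy hy'
      rw [not_le] at hy hy'
      have hX' : (2 : ℝ) ^ (20 * j) ≤ 3 ^ od t y * X / 2 ^ t := by
        have hl := len_eq (w := 0) (t := t) (m := od t y) hX
        rw [← Real.rpow_natCast 2 (20 * j), ← Real.le_logb_iff_rpow_le (by norm_num) (by positivity), hl, ← hlam]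
        push_cast
        rw [abs_lt] at hy
        have e1 : (v : ℝ) ^ 45 ≤ (v : ℝ) ^ 80 := pow_le_pow_right₀ hv1' (by norm_num)
        exact height_arith (by linarith) e1 hj3 hy.1 hy.2
      have hoo : |(od t y' : ℤ) - od t y| < (v : ℤ) ^ 45 := by
        have : |(od t y' : ℝ) - od t y| < (v : ℝ) ^ 45 := by
          rw [abs_lt] at hy hy' ⊢
          constructor <;> linarith
        exact_mod_cast this
      rw [abs_lt] at hoo
      have hDz1 : (v : ℤ) ^ 47 ≤ (D : ℤ) := by exact_mod_cast hD1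
      have hDz2 : 2 * (D : ℤ) ≤ (v : ℤ) ^ 48 := by exact_mod_cast hD2
      have z1 : 4 * (v : ℤ) ^ 45 ≤ (v : ℤ) ^ 47 := by exact_mod_cast hv45
      have z2 : 4 * (v : ℤ) ^ 47 ≤ (v : ℤ) ^ 48 := by exact_mod_cast hv47
      have z3 : 2 * (w : ℤ) ^ 42 ≤ (v : ℤ) ^ 47 := by exact_mod_cast hD47
      have z4 : (v : ℤ) ^ 48 ≤ (w : ℤ) ^ 48 := by exact_mod_cast hvw48
      obtain ⟨D', hD'⟩ : ∃ D' : ℕ, (D' : ℤ) = (D : ℤ) + od t y' - od t y := ⟨((D : ℤ) + od t y' - od t y).toNat, Int.toNat_of_nonneg (by omega)⟩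
      have a1 : w ^ 42 ≤ D' := by
        have : (w : ℤ) ^ 42 ≤ (D' : ℤ) := by rw [hD']; omega
        exact_mod_cast this
      have a2 : D' ≤ w ^ 48 := by
        have : (D' : ℤ) ≤ (w : ℤ) ^ 48 := by rw [hD']; omega
        exact_mod_cast this
      have g := hw₀ w (hv0.trans hwv) j hw1 hw3 f hf κ hκ _ hX' D' a1 a2
      rw [← hD', Int.toNat_natCast]
      have e2 : ex (48 * j) (fun u => ex (48 * j) (fun u' => cc f f κ (3 ^ (od t y + od (48 * j) u) * X / 2 ^ (t + 48 * j))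
          ((D : ℤ) + ((od t y' + od (48 * j) u' : ℕ) : ℤ) - ((od t y + od (48 * j) u : ℕ) : ℤ)).toNat 0)) =
          ex (48 * j) (fun y_1 => ex (48 * j) (fun y' => cc f f κ (3 ^ od (48 * j) y_1 * (3 ^ od t y * X / 2 ^ t) / 2 ^ (48 * j))
          ((D' : ℤ) + od (48 * j) y' - od (48 * j) y_1).toNat 0)) := by
        apply ex_congr
        intro u
        apply ex_congr
        intro u'
        rw [show (3 : ℝ) ^ od (48 * j) u * (3 ^ od t y * X / 2 ^ t) / 2 ^ (48 * j) = 3 ^ (od t y + od (48 * j) u) * X / 2 ^ (t + 48 * j) by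
          rw [pow_add, pow_add]; ring]
        congr 2
        rw [hD']
        push_cast
        ring
      rw [e2]
      refine g.trans ?_
      apply div_le_div_of_nonneg_left hC.le hvp
      exact_mod_cast hwv) (by
      intro y y'
      have e1 := cc_bd hf hf κ (3 ^ od t y * X / 2 ^ t) (((D : ℤ) + od t y' - od t y).toNat) 0
      have e2 : |ex (48 * j) (fun u => ex (48 * j) (fun u' => cc f f κ (3 ^ (od t y + od (48 * j) u) * X / 2 ^ (t + 48 * j))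
          ((D : ℤ) + ((od t y' + od (48 * j) u' : ℕ) : ℤ) - ((od t y + od (48 * j) u : ℕ) : ℤ)).toNat 0))| ≤ 2 :=
        ex_abs (fun u => ex_abs (fun u' => cc_bd hf hf _ _ _ _))
      rw [abs_le] at e1 e2 ⊢
      constructor <;> linarith)
  refine key.trans ?_
  have e9 : (C + 3200) / (v : ℝ) = C / v + 4 * (400 / v) + 4 * (400 / v) := by ring
  rw [e9]
  linarith

end Pool.Agent.J4H26.PC
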