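import Mathlib
import Pool.Agent.J4H26.PC.B9

set_option autoImplicit false

/-! Project PC: far from the diagonal there is no correlation at small heights (end of the proof). -/

namespace Pool.Agent.J4H26.PC

open Finset Filter Real MeasureTheory
open Pool.Agent.J4H39 (T od ex pb ns rn stP stK lb GK Cm DV th0 ex_mono ex_congr ex_add ex_mul ex_const ex_sum ex_nonneg
  pb_nonneg pb_mono pb_or Per per_od ex_pair pb_od pb_le_one th0_pos th0_lt th0_gt three_pow ex_per od_comp rel_rn rel_nat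
  pb_affine pow3_odd pb_exists ex_zero)

/-- many bands -/
theorem EE_many (hF : S_FT) (hL : S_LIP) (hW : S_LAW) : ∃ K : ℝ, 0 < K ∧ ∀ᶠ v : ℕ in atTop, ∀ f : ℤ → ℝ, Iv f → ∀ κ : ℝ, |κ| ≤ 1 →
    ∀ X : ℝ, 0 < X → 7 * (v : ℝ) ^ 88 ≤ logb 2 X → logb 2 X ≤ 14 * (v : ℝ) ^ 88 → ∀ D : ℕ, v ^ 47 ≤ D → 2 * D ≤ v ^ 48 → ∃ t : ℕ,
    18 * (v : ℝ) ^ 80 ≤ logb 2 X - th0 * t ∧ logb 2 X - th0 * t ≤ 42 * (v : ℝ) ^ 80 ∧ |cc f f κ X D 0 - EE f κ X D t| ≤ K / √v := by
  obtain ⟨K, hK, h⟩ := EE_step hF hL hW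
  refine ⟨K, hK, ?_⟩
  have hlim : Tendsto (fun m : ℕ => (m : ℝ) ^ 16 * (55 / 100 : ℝ) ^ m) atTop (nhds 0) :=
    tendsto_pow_const_mul_const_pow_of_lt_one 16 (by norm_num) (by norm_num)
  have hsq : Tendsto (fun v : ℕ => Nat.sqrt v) atTop atTop := by
    apply tendsto_atTop_atTop.2
    intro b
    exact ⟨b * b, fun a ha => Nat.le_sqrt.2 ha⟩
  have hlim2 := (hlim.comp hsq).eventually (gt_mem_nhds (show (0 : ℝ) < 1 / 2 ^ 20 by norm_num))
  filter_upwards [h, hlim2, eventually_ge_atTop 200] with v h hv2 hv200 f hf κ hκ X hX hX1 hX2 D hD1 hD2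
  have hv1 : 1 ≤ v := by omega
  have hv1' : (1 : ℝ) ≤ v := by exact_mod_cast hv1
  have hvp : (0 : ℝ) < v := by linarith
  have hv200' : (200 : ℝ) ≤ v := by exact_mod_cast hv200
  set m := Nat.sqrt v with hm
  have hm1 : m * m ≤ v := Nat.sqrt_le v
  have hm2 : v < (m + 1) * (m + 1) := Nat.lt_succ_sqrt v
  have hm3 : 14 ≤ m := Nat.le_sqrt.2 (by omega)
  have hA80 : (1 : ℝ) ≤ (v : ℝ) ^ 80 := one_le_pow₀ hv1'
  have h8880 : (v : ℝ) ^ 80 ≤ (v : ℝ) ^ 88 := pow_le_pow_right₀ hv1' (by norm_num)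
  have hv8 : 200 * (v : ℝ) ^ 80 ≤ (v : ℝ) ^ 88 := by
    have e : (v : ℝ) ^ 88 = (v : ℝ) ^ 8 * (v : ℝ) ^ 80 := by rw [← pow_add]
    rw [e]
    have : (200 : ℝ) ≤ (v : ℝ) ^ 8 := hv200'.trans (le_self_pow₀ hv1' (by norm_num))
    exact mul_le_mul_of_nonneg_right this (by positivity)
  -- induction
  have main : ∀ n : ℕ, ∃ t : ℕ, 18 * (v : ℝ) ^ 80 ≤ logb 2 X - th0 * t ∧
      (logb 2 X - th0 * t ≤ 42 * (v : ℝ) ^ 80 ∨ logb 2 X - th0 * t ≤ (55 / 100) ^ n * logb 2 X) ∧
      |cc f f κ X D 0 - EE f κ X D t| ≤ n * (K / v) := by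
    intro n
    induction n with
    | zero =>
      refine ⟨0, ?_, Or.inr ?_, ?_⟩
      · simp only [Nat.cast_zero, mul_zero, sub_zero]; linarith
      · simp
      · rw [EE_zero, sub_self, abs_zero]; simp
    | succ n ih =>
      obtain ⟨t, g1, g2, g3⟩ := ih
      have hKv : 0 ≤ K / v := by positivity
      rcases le_or_gt (logb 2 X - th0 * t) (42 * (v : ℝ) ^ 80) with g4 | g4
      · refine ⟨t, g1, Or.inl g4, g3.trans ?_⟩
        push_cast
        linarith
      · obtain ⟨t', k1, k2, k3⟩ := h f hf κ hκ X hX hX2 D hD1 hD2 t g4.le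
        refine ⟨t', k1, Or.inr ?_, ?_⟩
        · rcases g2 with g2 | g2
          · linarith
          · rw [pow_succ]
            linarith
        · push_cast
          have := (abs_sub_le (cc f f κ X D 0) (EE f κ X D t) (EE f κ X D t')).trans (add_le_add g3 k3)
          linarith
  obtain ⟨t, g1, g2, g3⟩ := main m
  refine ⟨t, g1, ?_, ?_⟩
  · rcases g2 with g2 | g2
    · exact g2
    · refine g2.trans ?_
      simp only [Function.comp] at hv2
      have e1 : (55 / 100 : ℝ) ^ m * logb 2 X ≤ (55 / 100 : ℝ) ^ m * (14 * (v : ℝ) ^ 88) :=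
        mul_le_mul_of_nonneg_left hX2 (by positivity)
      refine e1.trans ?_
      have e2 : (v : ℝ) ^ 8 ≤ 2 ^ 17 * (m : ℝ) ^ 16 := by
        have : (v : ℝ) ≤ 4 * (m : ℝ) ^ 2 := by
          have h1 : v ≤ 4 * (m * m) := by nlinarith
          have : (v : ℝ) ≤ 4 * (m * m) := by exact_mod_cast h1
          rw [sq]; exact this
        calc (v : ℝ) ^ 8 ≤ (4 * (m : ℝ) ^ 2) ^ 8 := by gcongr
          _ = 2 ^ 16 * (m : ℝ) ^ 16 := by ring
          _ ≤ 2 ^ 17 * (m : ℝ) ^ 16 := by gcongr <;> norm_num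
      have e3 : (v : ℝ) ^ 88 = (v : ℝ) ^ 8 * (v : ℝ) ^ 80 := by rw [← pow_add]
      have e4 : (55 / 100 : ℝ) ^ m * (14 * (v : ℝ) ^ 88) = 14 * ((v : ℝ) ^ 8 * (55 / 100 : ℝ) ^ m) * (v : ℝ) ^ 80 := by
        rw [e3]; ring
      rw [e4]
      apply mul_le_mul_of_nonneg_right _ (by positivity)
      have e5 : (v : ℝ) ^ 8 * (55 / 100 : ℝ) ^ m ≤ 2 ^ 17 * ((m : ℝ) ^ 16 * (55 / 100 : ℝ) ^ m) := by
        calc (v : ℝ) ^ 8 * (55 / 100 : ℝ) ^ m ≤ (2 ^ 17 * (m : ℝ) ^ 16) * (55 / 100 : ℝ) ^ m := by gcongr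
          _ = _ := by ring
      have e6 : (2 : ℝ) ^ 17 * ((m : ℝ) ^ 16 * (55 / 100 : ℝ) ^ m) ≤ 2 ^ 17 * (1 / 2 ^ 20) := by
        apply mul_le_mul_of_nonneg_left hv2.le (by norm_num)
      norm_num at e6
      linarith
  · refine g3.trans ?_
    have h1 : (m : ℝ) * √v ≤ v := by
      have : (m : ℝ) ≤ √v := by
        apply Real.le_sqrt_of_sq_le
        rw [sq]
        exact_mod_cast hm1
      calc (m : ℝ) * √v ≤ √v * √v := by gcongr
        _ = v := Real.mul_self_sqrt hvp.le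
    have hs : 0 < √(v : ℝ) := Real.sqrt_pos.2 hvp
    rw [mul_div_assoc', div_le_div_iff₀ hvp hs]
    nlinarith

/-- the two averages of products -/
theorem step1P {F G : ℝ → ℝ} {A B : ℤ → ℝ → ℝ} {κ N ε : ℝ} (hN : 0 < N) {t : ℕ}
    (hF : Measurable F) (hG : Measurable G) (hA : ∀ y, Measurable (A y)) (hB : ∀ y, Measurable (B y))
    (hFb : ∀ x, |F x| ≤ 2) (hGb : ∀ x, |G x| ≤ 2) (hAb : ∀ y x, |A y x| ≤ 2) (hBb : ∀ y x, |B y x| ≤ 2)
    (h1 : ∀ x, |F x - ex t (fun y => A y x)| ≤ ε) (h2 : ∀ x, |G x - ex t (fun y => B y x)| ≤ ε) :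
    |(∫ x in (κ * N)..(κ * N + N), F x * G x) / N -
      ex t (fun y => ex t (fun y' => (∫ x in (κ * N)..(κ * N + N), A y x * B y' x) / N))| ≤ 4 * ε := by
  have hε : 0 ≤ ε := (abs_nonneg _).trans (h1 0)
  have hE : ∀ x, |ex t (fun y => A y x)| ≤ 2 := fun x => ex_abs (fun y => hAb y x)
  have hE' : ∀ x, |ex t (fun y => B y x)| ≤ 2 := fun x => ex_abs (fun y => hBb y x)
  have hEm : Measurable (fun x => ex t (fun y => A y x)) := by
    unfold ex
    apply Measurable.div_const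
    exact Finset.measurable_sum _ (fun i _ => hA _)
  have hEm' : Measurable (fun x => ex t (fun y => B y x)) := by
    unfold ex
    apply Measurable.div_const
    exact Finset.measurable_sum _ (fun i _ => hB _)
  have prod4 : ∀ a b : ℝ, |a| ≤ 2 → |b| ≤ 2 → |a * b| ≤ 4 := by
    intro a b ha hb
    rw [abs_mul]
    have := mul_le_mul ha hb (abs_nonneg _) (by norm_num)
    linarith
  have e1 : ex t (fun y => ex t (fun y' => (∫ x in (κ * N)..(κ * N + N), A y x * B y' x) / N)) =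
      (∫ x in (κ * N)..(κ * N + N), ex t (fun y => A y x) * ex t (fun y => B y x)) / N := by
    have h1 : ∀ x, ex t (fun y => A y x) * ex t (fun y => B y x) = ex t (fun y => ex t (fun y' => A y x * B y' x)) := by
      intro x
      rw [mul_comm, ← ex_mul]
      apply ex_congr
      intro y
      rw [mul_comm, ← ex_mul]
    have h2 : ∀ y y', Measurable (fun x => A y x * B y' x) := fun y y' => (hA y).mul (hB y')
    have h3 : ∀ y y' x, |A y x * B y' x| ≤ 4 := fun y y' x => prod4 _ _ (hAb y x) (hBb y' x)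
    rw [intervalIntegral.integral_congr (fun x _ => h1 x)]
    rw [int_ex (F := fun y x => ex t (fun y' => A y x * B y' x)) (fun y => ii_bdd (by
      unfold ex
      apply Measurable.div_const
      exact Finset.measurable_sum _ (fun i _ => h2 _ _)) (fun x => ex_abs (fun y' => h3 y y' x)) _ _)]
    have h4 : ∀ y, (∫ x in (κ * N)..(κ * N + N), ex t (fun y' => A y x * B y' x)) =
        ex t (fun y' => ∫ x in (κ * N)..(κ * N + N), A y x * B y' x) := fun y =>
      int_ex (F := fun y' x => A y x * B y' x) (fun y' => ii_bdd (h2 y y') (h3 y y') _ _)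
    rw [ex_congr h4, div_eq_inv_mul, ← ex_mul]
    apply ex_congr
    intro y
    rw [← ex_mul]
    apply ex_congr
    intro y'
    rw [div_eq_inv_mul]
  rw [e1]
  have i1 : IntervalIntegrable (fun x => F x * G x) volume (κ * N) (κ * N + N) :=
    ii_bdd (hF.mul hG) (C := 4) (fun x => prod4 _ _ (hFb x) (hGb x)) _ _
  have i2 : IntervalIntegrable (fun x => ex t (fun y => A y x) * ex t (fun y => B y x)) volume (κ * N) (κ * N + N) :=
    ii_bdd (hEm.mul hEm') (C := 4) (fun x => prod4 _ _ (hE x) (hE' x)) _ _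
  rw [← sub_div, ← intervalIntegral.integral_sub i1 i2]
  rw [abs_div, abs_of_pos hN, div_le_iff₀ hN]
  have h5 := intervalIntegral.norm_integral_le_of_norm_le_const (a := κ * N) (b := κ * N + N) (C := 4 * ε)
    (f := fun x => F x * G x - ex t (fun y => A y x) * ex t (fun y => B y x)) (fun x _ => by
      rw [Real.norm_eq_abs, show F x * G x - ex t (fun y => A y x) * ex t (fun y => B y x) =
        (F x - ex t (fun y => A y x)) * G x + ex t (fun y => A y x) * (G x - ex t (fun y => B y x)) by ring]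
      refine (abs_add_le _ _).trans ?_
      rw [abs_mul, abs_mul]
      have k1 := mul_le_mul (h1 x) (hGb x) (abs_nonneg _) hε
      have k2 := mul_le_mul (hE x) (h2 x) (abs_nonneg _) (by norm_num)
      linarith)
  rw [Real.norm_eq_abs] at h5
  refine h5.trans (le_of_eq ?_)
  rw [show κ * N + N - κ * N = N by ring, abs_of_pos hN]

end Pool.Agent.J4H26.PC
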