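import Mathlib
import Pool.Agent.J4H26.PC.B10

set_option autoImplicit false

/-! Project PC: the theorem on the pairs far from the diagonal. -/

namespace Pool.Agent.J4H26.PC

open Finset Filter Real MeasureTheory
open Pool.Agent.J4H39 (T od ex pb ns rn stP stK lb GK Cm DV th0 ex_mono ex_congr ex_add ex_mul ex_const ex_sum ex_nonneg
  pb_nonneg pb_mono pb_or Per per_od ex_pair pb_od pb_le_one th0_pos th0_lt th0_gt three_pow ex_per od_comp rel_rn rel_nat
  pb_affine pow3_odd pb_exists ex_zero)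

theorem sqb {u : ℝ} (h : |u| ≤ 2) : u ^ 2 ≤ 4 := by
  have h0 := abs_nonneg u
  rw [← sq_abs]
  nlinarith

theorem len_bounds {l V e c : ℝ} (hV : 0 ≤ V) (h4 : -V < e) (h5 : e < V) (hc : l = c + (1 - th0) * e) :
    c - V ≤ l ∧ l ≤ c + V := by
  have hth := th0_pos
  have hth4 := th0_lt
  constructor <;> nlinarith

theorem EE_GG (hS : S_STM) (hG : S_GAM) : ∃ K : ℝ, 0 < K ∧ ∀ᶠ v : ℕ in atTop, ∀ f : ℤ → ℝ, Iv f → ∀ κ : ℝ, |κ| ≤ 1 →
    ∀ X : ℝ, 0 < X → ∀ t : ℕ, v ^ 52 ≤ t → t ≤ 100 * v ^ 88 → 18 * (v : ℝ) ^ 80 ≤ logb 2 X - th0 * t →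
    ∀ D : ℕ, v ^ 47 ≤ D → 2 * D ≤ v ^ 48 →
    |GG f f κ ((2 : ℝ) ^ (th0 * t + (v : ℝ) ^ 53)) X D - EE f κ X D t| ≤ K / √v := by
  obtain ⟨C₁, hC₁, h1⟩ := hS
  obtain ⟨C₂, hC₂, h2⟩ := hG
  refine ⟨4 * C₁ + C₂ + 4800, by positivity, ?_⟩
  filter_upwards [h1, h2, eventually_ge_atTop 200] with v h1 h2 hv200 f hf κ hκ X hX t ht1 ht2 hlam D hD1 hD2
  have hv1 : 1 ≤ v := by omega
  have hv1' : (1 : ℝ) ≤ v := by exact_mod_cast hv1
  have hvp : (0 : ℝ) < v := by linarith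
  have hv200' : (200 : ℝ) ≤ v := by exact_mod_cast hv200
  have ht : 1 ≤ t := (Nat.one_le_pow _ _ hv1).trans ht1
  obtain ⟨V45, hV45⟩ : ∃ V : ℝ, V = (v : ℝ) ^ 45 := ⟨_, rfl⟩
  obtain ⟨V52, hV52⟩ : ∃ V : ℝ, V = (v : ℝ) ^ 52 := ⟨_, rfl⟩
  obtain ⟨V53, hV53⟩ : ∃ V : ℝ, V = (v : ℝ) ^ 53 := ⟨_, rfl⟩
  obtain ⟨V80, hV80⟩ : ∃ V : ℝ, V = (v : ℝ) ^ 80 := ⟨_, rfl⟩
  have v45 : (200 : ℝ) ≤ V45 := by rw [hV45]; exact hv200'.trans (le_self_pow₀ hv1' (by norm_num))
  have v45v : (v : ℝ) ≤ V45 := by rw [hV45]; exact le_self_pow₀ hv1' (by norm_num)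
  have v4552 : V45 ≤ V52 := by rw [hV45, hV52]; exact pow_le_pow_right₀ hv1' (by norm_num)
  have v5253 : 200 * V52 ≤ V53 := by
    rw [hV52, hV53, pow_succ (v : ℝ) 52, mul_comm]
    exact mul_le_mul_of_nonneg_left hv200' (by positivity)
  have v5380 : V53 ≤ V80 := by rw [hV53, hV80]; exact pow_le_pow_right₀ hv1' (by norm_num)
  set a : ℝ := (2 : ℝ) ^ (th0 * t + (v : ℝ) ^ 53) with ha
  have ha0 : 0 < a := by rw [ha]; positivity
  have hla : logb 2 a = th0 * t + V53 := by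
    rw [ha, Real.logb_rpow (by norm_num) (by norm_num), hV53]
  have ha2 : (2 : ℝ) ^ (th0 * t + (v : ℝ) ^ 52) ≤ a := by
    rw [ha]
    apply Real.rpow_le_rpow_of_exponent_le (by norm_num)
    rw [← hV52, ← hV53]
    linarith
  have hDa : (2 : ℝ) ^ (th0 * t + (v : ℝ) ^ 52) ≤ 3 ^ D * a :=
    ha2.trans (le_mul_of_one_le_left ha0.le (one_le_pow₀ (by norm_num)))
  set A : ℤ → ℝ → ℝ := fun y x => Ph f (3 ^ od t y * x / 2 ^ t) (3 ^ od t y * a / 2 ^ t) with hA
  set B : ℤ → ℝ → ℝ := fun y x => Ph f (3 ^ od t y * (3 ^ D * x) / 2 ^ t) (3 ^ od t y * (3 ^ D * a) / 2 ^ t) with hB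
  have hAm : ∀ y, Measurable (A y) := by
    intro y
    exact (Ph_meas f _).comp ((measurable_id.const_mul _).div_const _)
  have hBm : ∀ y, Measurable (B y) := by
    intro y
    exact (Ph_meas f _).comp (((measurable_id.const_mul _).const_mul _).div_const _)
  have s1 := step1P (F := fun x => Ph f x a) (G := fun x => Ph f (3 ^ D * x) (3 ^ D * a)) (A := A) (B := B) (κ := κ) (ε := C₁ / √v) hX (t := t)
    (Ph_meas f a) ((Ph_meas f _).comp (measurable_id.const_mul _)) hAm hBm (fun x => Ph_bd hf _ _) (fun x => Ph_bd hf _ _)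
    (fun y x => Ph_bd hf _ _) (fun y x => Ph_bd hf _ _) (fun x => h1 t ht1 ht2 f hf x a ha2)
    (fun x => h1 t ht1 ht2 f hf (3 ^ D * x) (3 ^ D * a) hDa)
  have e1 : ex t (fun y => ex t (fun y' => (∫ x in (κ * X)..(κ * X + X), A y x * B y' x) / X)) =
      ex t (fun y => ex t (fun y' => PG f κ a X t (od t y) (D + od t y'))) := by
    apply ex_congr
    intro y
    apply ex_congr
    intro y'
    rw [← PG_eq f hX t (od t y) (D + od t y')]
    congr 1
    apply intervalIntegral.integral_congr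
    intro x _
    rw [hA, hB]
    simp only
    rw [show (3 : ℝ) ^ od t y' * (3 ^ D * x) / 2 ^ t = 3 ^ (D + od t y') * x / 2 ^ t by rw [pow_add]; ring,
      show (3 : ℝ) ^ od t y' * (3 ^ D * a) / 2 ^ t = 3 ^ (D + od t y') * a / 2 ^ t by rw [pow_add]; ring]
  rw [e1] at s1
  have hpb := pb_dev_w hv1 ht ht2
  have hv45n : 4 * v ^ 45 ≤ v ^ 47 := by
    calc 4 * v ^ 45 ≤ v ^ 2 * v ^ 45 := by
          apply Nat.mul_le_mul_right
          calc 4 ≤ 200 ^ 2 := by norm_num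
            _ ≤ v ^ 2 := Nat.pow_le_pow_left hv200 2
      _ = v ^ 47 := by rw [← pow_add]
  have hv47n : 4 * v ^ 47 ≤ v ^ 48 := by
    rw [pow_succ v 47, mul_comm]
    exact Nat.mul_le_mul_left _ (by omega)
  have s2 : |ex t (fun y => ex t (fun y' => PG f κ a X t (od t y) (D + od t y'))) - EE f κ X D t| ≤ C₂ / v +
      6 * pb t (fun y => (v : ℝ) ^ 45 ≤ |2 * (od t y : ℝ) - t|) + 6 * pb t (fun y => (v : ℝ) ^ 45 ≤ |2 * (od t y : ℝ) - t|) := by
    unfold EE
    apply ex_cmp2 (by positivity)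
    · intro y y' hy hy'
      rw [not_le] at hy hy'
      have hoo : |(od t y' : ℤ) - od t y| < (v : ℤ) ^ 45 := by
        have : |(od t y' : ℝ) - od t y| < (v : ℝ) ^ 45 := by
          rw [abs_lt] at hy hy' ⊢
          constructor <;> linarith
        exact_mod_cast this
      rw [abs_lt] at hoo
      have hDz1 : (v : ℤ) ^ 47 ≤ (D : ℤ) := by exact_mod_cast hD1
      have hDz2 : 2 * (D : ℤ) ≤ (v : ℤ) ^ 48 := by exact_mod_cast hD2
      have z1 : 4 * (v : ℤ) ^ 45 ≤ (v : ℤ) ^ 47 := by exact_mod_cast hv45n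
      have z2 : 4 * (v : ℤ) ^ 47 ≤ (v : ℤ) ^ 48 := by exact_mod_cast hv47n
      have hle : od t y ≤ D + od t y' := by omega
      unfold PG
      rw [min_eq_left hle, max_eq_right hle]
      have hlX := len_eq (w := 0) (t := t) (m := od t y) hX
      have hl := len_eq (w := 0) (t := t) (m := od t y) ha0
      rw [abs_lt, ← hV45] at hy
      have bX := len_bounds (by linarith : 0 ≤ V45) hy.1 hy.2 hlX
      have ba := len_bounds (by linarith : 0 ≤ V45) hy.1 hy.2 hl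
      rw [hla] at ba
      rw [← hV80] at hlam
      have hb1 : (v : ℝ) ^ 2 ≤ 3 ^ od t y * a / 2 ^ t := by
        have e1 : (v : ℝ) ^ 2 ≤ (2 : ℝ) ^ (2 * (v : ℝ)) := by
          rw [mul_comm, Real.rpow_mul (by norm_num), Real.rpow_natCast, Real.rpow_two]
          have : (v : ℝ) ≤ 2 ^ v := by exact_mod_cast (Nat.lt_two_pow_self).le
          gcongr
        refine e1.trans ?_
        rw [← Real.le_logb_iff_rpow_le (by norm_num) (by positivity)]
        linarith [ba.1]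
      have hb2 : 3 ^ od t y * a / 2 ^ t ≤ (2 : ℝ) ^ (v ^ 54) := by
        rw [show (2 : ℝ) ^ (v ^ 54) = (2 : ℝ) ^ ((v ^ 54 : ℕ) : ℝ) from (Real.rpow_natCast 2 _).symm,
          ← Real.logb_le_iff_le_rpow (by norm_num) (by positivity)]
        push_cast
        have e1 : 2 * V53 ≤ (v : ℝ) ^ 54 := by
          rw [hV53, pow_succ (v : ℝ) 53, mul_comm]
          exact mul_le_mul_of_nonneg_left (by linarith) (by positivity)
        linarith [ba.2]
      have hX' : (2 : ℝ) ^ (v ^ 80) ≤ 3 ^ od t y * X / 2 ^ t := by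
        rw [show (2 : ℝ) ^ (v ^ 80) = (2 : ℝ) ^ ((v ^ 80 : ℕ) : ℝ) from (Real.rpow_natCast 2 _).symm,
          ← Real.le_logb_iff_rpow_le (by norm_num) (by positivity)]
        push_cast
        rw [← hV80]
        linarith [bX.1]
      have hD' : D + od t y' - od t y ≤ v ^ 48 := by
        have : ((D + od t y' - od t y : ℕ) : ℤ) ≤ (v : ℤ) ^ 48 := by
          rw [Nat.cast_sub hle]; push_cast; omega
        exact_mod_cast this
      have e3 : ((D : ℤ) + od t y' - od t y).toNat = D + od t y' - od t y := by omega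
      rw [e3]
      exact h2 f f hf hf κ (3 ^ od t y * X / 2 ^ t) (3 ^ od t y * a / 2 ^ t) hκ hX' hb1 hb2 _ hD'
    · intro y y'
      unfold PG
      have e1 := GG_bd hf hf (κ := κ) (b := 3 ^ min (od t y) (D + od t y') * a / 2 ^ t) (X := 3 ^ min (od t y) (D + od t y') * X / 2 ^ t)
        (by positivity) (max (od t y) (D + od t y') - min (od t y) (D + od t y'))
      have e2 := cc_bd hf hf κ (3 ^ od t y * X / 2 ^ t) (((D : ℤ) + od t y' - od t y).toNat) 0
      rw [abs_le] at e1 e2 ⊢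
      constructor <;> linarith
  have hsq := inv_le_inv_sqrt hv1
  have e3 : |GG f f κ a X D - EE f κ X D t| ≤ 4 * (C₁ / √v) + (C₂ / v + 6 * (400 / v) + 6 * (400 / v)) := by
    unfold GG
    refine (abs_sub_le _ _ _).trans (add_le_add s1 (s2.trans ?_))
    linarith
  refine e3.trans ?_
  have e4 : 4 * (C₁ / √v) + (C₂ / v + 6 * (400 / v) + 6 * (400 / v)) = 4 * C₁ * (1 / √v) + (C₂ + 4800) * (1 / v) := by ring
  rw [e4, show (4 * C₁ + C₂ + 4800) / √v = 4 * C₁ * (1 / √v) + (C₂ + 4800) * (1 / √v) by ring]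
  have := mul_le_mul_of_nonneg_left hsq (by positivity : 0 ≤ C₂ + 4800)
  linarith

/-- the correlation of window averages is bounded by the mean square -/
theorem GG_le_VV {f : ℤ → ℝ} (hf : Iv f) {κ a X c : ℝ} (hX : 0 < X) (hc : 0 < c) (D : ℕ) :
    |GG f f κ a X D| ≤ (c * VV f κ a X + 4 / c) / 2 := by
  unfold GG VV
  rw [abs_div, abs_of_pos hX]
  have h1 : |∫ x in (κ * X)..(κ * X + X), Ph f x a * Ph f (3 ^ D * x) (3 ^ D * a)| ≤
      ∫ x in (κ * X)..(κ * X + X), (c * (Ph f x a) ^ 2 + 4 / c) / 2 := by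
    refine (intervalIntegral.abs_integral_le_integral_abs (by linarith)).trans ?_
    apply intervalIntegral.integral_mono_on (by linarith)
    · apply ii_bdd (C := 4)
      · exact ((Ph_meas f a).mul ((Ph_meas f _).comp (measurable_id.const_mul _))).abs
      · intro x
        rw [abs_abs, abs_mul]
        have := mul_le_mul (Ph_bd hf x a) (Ph_bd hf (3 ^ D * x) (3 ^ D * a)) (abs_nonneg _) (by norm_num)
        linarith
    · apply ii_bdd (C := (c * 4 + 4 / c) / 2)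
      · exact ((((Ph_meas f a).pow_const 2).const_mul c).add_const _).div_const 2
      · intro x
        have h2 := sqb (Ph_bd hf x a)
        rw [abs_of_nonneg (by positivity)]
        have : c * (Ph f x a) ^ 2 ≤ c * 4 := mul_le_mul_of_nonneg_left (by linarith) hc.le
        linarith
    · intro x _
      rw [abs_mul]
      set u := |Ph f x a| with hu
      set z := |Ph f (3 ^ D * x) (3 ^ D * a)| with hz
      have hz2 : z ≤ 2 := Ph_bd hf _ _
      have hz0 : 0 ≤ z := abs_nonneg _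
      have hu0 : 0 ≤ u := abs_nonneg _
      have e1 : (Ph f x a) ^ 2 = u ^ 2 := (sq_abs _).symm
      rw [e1]
      have e2 : 0 ≤ (c * u - z) ^ 2 / c := by positivity
      have e3 : (c * u - z) ^ 2 / c = c * u ^ 2 - 2 * (u * z) + z ^ 2 / c := by field_simp; ring
      have e4 : z ^ 2 / c ≤ 4 / c := by
        apply div_le_div_of_nonneg_right _ hc.le
        nlinarith
      linarith
  have h2 : (∫ x in (κ * X)..(κ * X + X), (c * (Ph f x a) ^ 2 + 4 / c) / 2) =
      (c * (∫ x in (κ * X)..(κ * X + X), (Ph f x a) ^ 2) + 4 / c * X) / 2 := by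
    have i1 : IntervalIntegrable (fun x => (Ph f x a) ^ 2) volume (κ * X) (κ * X + X) :=
      ii_bdd ((Ph_meas f a).pow_const 2) (C := 4) (fun x => by
        have := sqb (Ph_bd hf x a)
        rw [abs_of_nonneg (by positivity)]; linarith) _ _
    rw [intervalIntegral.integral_div, intervalIntegral.integral_add (i1.const_mul c) intervalIntegrable_const,
      intervalIntegral.integral_const_mul, intervalIntegral.integral_const, smul_eq_mul]
    ring
  rw [h2] at h1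
  rw [div_le_iff₀ hX]
  refine h1.trans (le_of_eq ?_)
  field_simp

/-- (B5) -/
theorem t_UNM (hS : S_STM) (hF : S_FT) (hG : S_GAM) (hL : S_LIP) (hW : S_LAW) (hA : S_A) : S_UNM := by
  intro ψ hψ ε hε
  obtain ⟨K₁, hK₁, h1⟩ := EE_many hF hL hW
  obtain ⟨K₂, hK₂, h2⟩ := EE_GG hS hG
  have h3 := hA ψ hψ (ε ^ 2 / 64) (by positivity)
  have hlim : ∀ᶠ v : ℕ in atTop, (K₁ + K₂) / √(v : ℝ) ≤ ε / 4 := by
    have h : Tendsto (fun v : ℕ => (K₁ + K₂) / √(v : ℝ)) atTop (nhds 0) := by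
      apply Tendsto.const_div_atTop
      exact Real.tendsto_sqrt_atTop.comp tendsto_natCast_atTop_atTop
    exact (h.eventually (gt_mem_nhds (show (0 : ℝ) < ε / 4 by positivity))).mono (fun v hv => hv.le)
  filter_upwards [h1, h2, h3, hlim, eventually_ge_atTop 200] with v h1 h2 h3 hlim hv200 f κ q hC X hX hX1 hX2 D hD1 hD2
  have hv1 : 1 ≤ v := by omega
  have hv1' : (1 : ℝ) ≤ v := by exact_mod_cast hv1
  have hv200' : (200 : ℝ) ≤ v := by exact_mod_cast hv200
  have hf := hC.iv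
  obtain ⟨t, g1, g2, g3⟩ := h1 f hf κ hC.kp X hX hX1 hX2 D hD1 hD2
  obtain ⟨V52, hV52⟩ : ∃ V : ℝ, V = (v : ℝ) ^ 52 := ⟨_, rfl⟩
  obtain ⟨V53, hV53⟩ : ∃ V : ℝ, V = (v : ℝ) ^ 53 := ⟨_, rfl⟩
  obtain ⟨V80, hV80⟩ : ∃ V : ℝ, V = (v : ℝ) ^ 80 := ⟨_, rfl⟩
  obtain ⟨V88, hV88⟩ : ∃ V : ℝ, V = (v : ℝ) ^ 88 := ⟨_, rfl⟩
  have v5253 : V52 ≤ V53 := by rw [hV52, hV53]; exact pow_le_pow_right₀ hv1' (by norm_num)
  have v52 : 1 ≤ V52 := by rw [hV52]; exact one_le_pow₀ hv1'
  have v5380 : 200 * V53 ≤ V80 := by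
    have e : (v : ℝ) ^ 80 = (v : ℝ) ^ 53 * (v : ℝ) ^ 27 := by rw [← pow_add]
    rw [hV53, hV80, e, mul_comm]
    exact mul_le_mul_of_nonneg_left (hv200'.trans (le_self_pow₀ hv1' (by norm_num))) (by positivity)
  have v8088 : 200 * V80 ≤ V88 := by
    have e : (v : ℝ) ^ 88 = (v : ℝ) ^ 80 * (v : ℝ) ^ 8 := by rw [← pow_add]
    rw [hV80, hV88, e, mul_comm]
    exact mul_le_mul_of_nonneg_left (hv200'.trans (le_self_pow₀ hv1' (by norm_num))) (by positivity)
  rw [← hV88] at hX1 hX2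
  rw [← hV80] at g1 g2
  have hth := th0_pos
  have t4 := mul_le_mul_of_nonneg_right th0_lt.le (show (0 : ℝ) ≤ t from Nat.cast_nonneg t)
  have t5 := mul_le_mul_of_nonneg_right th0_gt.le (show (0 : ℝ) ≤ t from Nat.cast_nonneg t)
  have ht1 : v ^ 52 ≤ t := by
    have : (v : ℝ) ^ 52 ≤ t := by rw [← hV52]; linarith
    exact_mod_cast this
  have ht2 : t ≤ 100 * v ^ 88 := by
    have : (t : ℝ) ≤ 100 * (v : ℝ) ^ 88 := by rw [← hV88]; linarith
    exact_mod_cast this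
  have g4 := h2 f hf κ hC.kp X hX t ht1 ht2 (by rw [← hV80]; exact g1) D hD1 hD2
  set a : ℝ := (2 : ℝ) ^ (th0 * t + (v : ℝ) ^ 53) with ha
  have ha0 : 0 < a := by rw [ha]; positivity
  have hla : logb 2 a = th0 * t + V53 := by
    rw [ha, Real.logb_rpow (by norm_num) (by norm_num), hV53]
  have hpow : ∀ n : ℕ, logb 2 ((2 : ℝ) ^ n * a) = n + logb 2 a := by
    intro n
    rw [Real.logb_mul (by positivity) ha0.ne', Real.logb_pow, Real.logb_self_eq_one (by norm_num), mul_one]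
  have g5 := h3 f κ q hC a X ha0 (by
    rw [← Real.logb_le_logb (by norm_num : (1 : ℝ) < 2) (by positivity) hX, hpow, hla]
    push_cast
    rw [← hV80]
    linarith) (by
    rw [← Real.logb_le_logb (by norm_num : (1 : ℝ) < 2) hX (by positivity), hpow, hla]
    push_cast
    rw [← hV80]
    linarith) (by
    rw [← hV88, hla]
    linarith)
  have g6 := GG_le_VV hf (κ := κ) (a := a) hX (show (0 : ℝ) < 16 / ε by positivity) D
  have e1 : (16 / ε) * VV f κ a X ≤ ε / 4 := by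
    calc (16 / ε) * VV f κ a X ≤ (16 / ε) * (ε ^ 2 / 64) := mul_le_mul_of_nonneg_left g5 (by positivity)
      _ = ε / 4 := by field_simp; norm_num
  have e2 : 4 / (16 / ε) = ε / 4 := by field_simp; norm_num
  rw [e2] at g6
  have e3 : K₁ / √(v : ℝ) + K₂ / √(v : ℝ) ≤ ε / 4 := by rw [← add_div]; exact hlim
  have g7 : |cc f f κ X D 0| ≤ |cc f f κ X D 0 - EE f κ X D t| + |GG f f κ a X D - EE f κ X D t| + |GG f f κ a X D| := by
    have e4 : cc f f κ X D 0 = (cc f f κ X D 0 - EE f κ X D t) - (GG f f κ a X D - EE f κ X D t) + GG f f κ a X D := by ring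
    calc |cc f f κ X D 0| = |(cc f f κ X D 0 - EE f κ X D t) - (GG f f κ a X D - EE f κ X D t) + GG f f κ a X D| := by rw [← e4]
      _ ≤ |(cc f f κ X D 0 - EE f κ X D t) - (GG f f κ a X D - EE f κ X D t)| + |GG f f κ a X D| := abs_add_le _ _
      _ ≤ _ := by
        have := abs_sub (cc f f κ X D 0 - EE f κ X D t) (GG f f κ a X D - EE f κ X D t)
        linarith
  linarith

end Pool.Agent.J4H26.PC
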