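import Mathlib
import Pool.Agent.J4H26.PC.B2

set_option autoImplicit false

/-! Project PC: the variation of window averages inside longer windows contracts under the dynamics. -/

namespace Pool.Agent.J4H26.PC

open Finset Filter Real MeasureTheory
open Pool.Agent.J4H39 (T od ex pb ns rn stP stK lb GK Cm DV th0 ex_mono ex_congr ex_add ex_mul ex_const ex_sum ex_nonneg
  pb_nonneg pb_mono Per per_od ex_pair pb_od pb_le_one th0_pos th0_lt th0_gt three_pow ex_per)

/-- mean square of the difference between the averages over `B` consecutive short windows and over their union -/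
noncomputable def WW (f : ℤ → ℝ) (κ a : ℝ) (B : ℕ) (N : ℝ) : ℝ :=
  (∫ x in (κ * N)..(κ * N + N), (∑ b ∈ range B, (Ph f (x + b * a) a - Ph f x (B * a)) ^ 2) / B) / N

theorem sum_windows (f : ℤ → ℝ) (x : ℝ) {a : ℝ} (ha : 0 ≤ a) (B : ℕ) :
    ∑ b ∈ range B, (∑ n ∈ Finset.Ico ⌈x + b * a⌉ ⌈x + b * a + a⌉, f n) = ∑ n ∈ Finset.Ico ⌈x⌉ ⌈x + B * a⌉, f n := by
  induction B with
  | zero => simp
  | succ B ih =>
    rw [sum_range_succ, ih]
    have e : x + ((B + 1 : ℕ) : ℝ) * a = x + B * a + a := by push_cast; ring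
    rw [e]
    have h1 : ⌈x⌉ ≤ ⌈x + B * a⌉ := Int.ceil_le_ceil (by have : (0 : ℝ) ≤ B * a := by positivity
                                                        linarith)
    have h2 : ⌈x + B * a⌉ ≤ ⌈x + B * a + a⌉ := Int.ceil_le_ceil (by linarith)
    rw [← Finset.Ico_union_Ico_eq_Ico h1 h2, sum_union (Finset.Ico_disjoint_Ico_consecutive _ _ _)]

theorem ph_avg (f : ℤ → ℝ) (x : ℝ) {a : ℝ} (ha : 1 ≤ a) {B : ℕ} (hB : 1 ≤ B) :
    (∑ b ∈ range B, Ph f (x + b * a) a) / B = Ph f x (B * a) := by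
  unfold Ph
  rw [← sum_div, sum_windows f x (by linarith) B]
  have hB1 : (1 : ℝ) ≤ B := by exact_mod_cast hB
  have h1 : (1 : ℝ) ≤ B * a := by nlinarith
  rw [max_eq_left ha, max_eq_left h1, div_div, mul_comm]

theorem shift_int {F : ℝ → ℝ} (hF : Measurable F) (hb : ∀ x, |F x| ≤ 4) (p : ℝ) {N c : ℝ} (hN : 0 < N) (hc : 0 ≤ c) :
    |(∫ x in p..(p + N), F (x + c)) / N - (∫ x in p..(p + N), F x) / N| ≤ 8 * c / N := by
  have hi : ∀ u v : ℝ, IntervalIntegrable F volume u v := fun u v => ii_bdd hF hb u v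
  rw [intervalIntegral.integral_comp_add_right, ← sub_div, abs_div, abs_of_pos hN]
  apply div_le_div_of_nonneg_right _ hN.le
  have e1 : (∫ x in (p + c)..(p + N + c), F x) - (∫ x in p..(p + N), F x) =
      (∫ x in (p + N)..(p + N + c), F x) - (∫ x in p..(p + c), F x) := by
    have h1 := intervalIntegral.integral_add_adjacent_intervals (hi p (p + c)) (hi (p + c) (p + N + c))
    have h2 := intervalIntegral.integral_add_adjacent_intervals (hi p (p + N)) (hi (p + N) (p + N + c))
    linarith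
  rw [e1]
  have h3 : ∀ q : ℝ, |∫ x in q..(q + c), F x| ≤ 4 * c := by
    intro q
    have := intervalIntegral.norm_integral_le_of_norm_le_const (a := q) (b := q + c) (C := 4) (f := F)
      (fun x _ => by rw [Real.norm_eq_abs]; exact hb x)
    rw [Real.norm_eq_abs, add_sub_cancel_left, abs_of_nonneg hc] at this
    exact this
  refine (abs_sub _ _).trans ?_
  have := h3 (p + N)
  have := h3 p
  linarith

theorem sq_bd {u : ℝ} {c : ℝ} (h : |u| ≤ c) : |u ^ 2| ≤ c ^ 2 := by
  rw [abs_pow]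
  exact pow_le_pow_left₀ (abs_nonneg _) h 2

theorem WW_eq {f : ℤ → ℝ} (hf : Iv f) (κ : ℝ) {a N : ℝ} (ha : 1 ≤ a) (hN : 0 < N) {B : ℕ} (hB : 1 ≤ B) :
    |WW f κ a B N - (VV f κ a N - VV f κ (B * a) N)| ≤ 8 * (B * a) / N := by
  have hB0 : (0 : ℝ) < B := by exact_mod_cast hB
  have e1 : ∀ x : ℝ, (∑ b ∈ range B, (Ph f (x + b * a) a - Ph f x (B * a)) ^ 2) / B =
      (∑ b ∈ range B, (Ph f (x + b * a) a) ^ 2) / B - (Ph f x (B * a)) ^ 2 := by
    intro x
    have h1 := ph_avg f x ha hB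
    set m := Ph f x (B * a) with hm
    rw [div_eq_iff hB0.ne'] at h1
    have h2 : ∑ b ∈ range B, (Ph f (x + b * a) a - m) ^ 2 = (∑ b ∈ range B, (Ph f (x + b * a) a) ^ 2) - 2 * m * (∑ b ∈ range B, Ph f (x + b * a) a) + B * m ^ 2 := by
      rw [mul_sum, ← sum_sub_distrib]
      have : (B : ℝ) * m ^ 2 = ∑ b ∈ range B, m ^ 2 := by rw [sum_const, card_range, nsmul_eq_mul]
      rw [this, ← sum_add_distrib]
      apply sum_congr rfl
      intro b _
      ring
    rw [h2, h1]
    generalize (∑ b ∈ range B, (Ph f (x + b * a) a) ^ 2) = S2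
    field_simp
    ring
  have hmeas : ∀ b : ℕ, Measurable (fun x : ℝ => (Ph f (x + b * a) a) ^ 2) := by
    intro b
    exact ((Ph_meas f a).comp (measurable_id.add_const _)).pow_const 2
  have hbd : ∀ (b : ℕ) (x : ℝ), |(Ph f (x + b * a) a) ^ 2| ≤ 4 := by
    intro b x
    have := sq_bd (Ph_bd hf (x + b * a) a)
    linarith
  have hint : ∀ b : ℕ, IntervalIntegrable (fun x : ℝ => (Ph f (x + b * a) a) ^ 2) volume (κ * N) (κ * N + N) :=
    fun b => ii_bdd (hmeas b) (hbd b) _ _
  have e2 : WW f κ a B N = (∑ b ∈ range B, (∫ x in (κ * N)..(κ * N + N), (Ph f (x + b * a) a) ^ 2) / N) / B - VV f κ (B * a) N := by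
    unfold WW VV
    rw [intervalIntegral.integral_congr (fun x _ => e1 x)]
    rw [intervalIntegral.integral_sub, sub_div, intervalIntegral.integral_div, intervalIntegral.integral_finsetSum (fun b _ => hint b)]
    · congr 1
      rw [← sum_div, div_div, div_div, mul_comm (N : ℝ) (B : ℝ)]
    · apply IntervalIntegrable.div_const
      have : (fun x : ℝ => ∑ b ∈ range B, (Ph f (x + b * a) a) ^ 2) = ∑ b ∈ range B, (fun x : ℝ => (Ph f (x + b * a) a) ^ 2) := by
        funext x; simp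
      rw [this]
      exact IntervalIntegrable.sum _ (fun b _ => hint b)
    · apply ii_bdd ((Ph_meas f (B * a)).pow_const 2) (C := 4)
      intro x
      have := sq_bd (Ph_bd hf x (B * a))
      linarith
  rw [e2]
  have e3 : (∑ b ∈ range B, (∫ x in (κ * N)..(κ * N + N), (Ph f (x + b * a) a) ^ 2) / N) / B - VV f κ (B * a) N -
      (VV f κ a N - VV f κ (B * a) N) = (∑ b ∈ range B, ((∫ x in (κ * N)..(κ * N + N), (Ph f (x + b * a) a) ^ 2) / N - VV f κ a N)) / B := by
    rw [sum_sub_distrib, sum_const, card_range, nsmul_eq_mul]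
    generalize (∑ b ∈ range B, (∫ x in (κ * N)..(κ * N + N), (Ph f (x + b * a) a) ^ 2) / N) = S3
    field_simp
    ring
  rw [e3, abs_div, abs_of_pos hB0, div_le_iff₀ hB0]
  refine (abs_sum_le_sum_abs _ _).trans ?_
  have e4 : ∀ b ∈ range B, |(∫ x in (κ * N)..(κ * N + N), (Ph f (x + b * a) a) ^ 2) / N - VV f κ a N| ≤ 8 * (B * a) / N := by
    intro b hb
    rw [mem_range] at hb
    have h1 := shift_int (F := fun x => (Ph f x a) ^ 2) ((Ph_meas f a).pow_const 2) (fun x => by
      have := sq_bd (Ph_bd hf x a)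
      linarith) (κ * N) hN (c := b * a) (by positivity)
    refine h1.trans ?_
    have : (b : ℝ) ≤ B := by exact_mod_cast hb.le
    gcongr
  refine (sum_le_card_nsmul _ _ _ e4).trans ?_
  rw [card_range, nsmul_eq_mul, mul_comm]

theorem ex_sq (s : ℕ) (F : ℤ → ℝ) : (ex s F) ^ 2 ≤ ex s (fun y => (F y) ^ 2) := by
  have h1 : 0 ≤ ex s (fun y => (F y - ex s F) ^ 2) := ex_nonneg (fun y => sq_nonneg _)
  have h2 : ex s (fun y => (F y - ex s F) ^ 2) = ex s (fun y => (F y) ^ 2) - (ex s F) ^ 2 := by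
    set m := ex s F with hm
    have h3 : ex s (fun y => (F y - m) ^ 2) = ex s (fun y => ((F y) ^ 2 + (-2 * m) * F y) + m ^ 2) := ex_congr (fun y => by ring)
    rw [h3, ex_add, ex_add, ex_mul, ex_const, ← hm]
    ring
  linarith

theorem WW_step {f : ℤ → ℝ} (hf : Iv f) (κ : ℝ) {a N ε : ℝ} (hN : 0 < N) {B s : ℕ} (hB : 1 ≤ B)
    (h1 : ∀ x, |Ph f x a - ex s (fun y => Ph f (3 ^ od s y * x / 2 ^ s) (3 ^ od s y * a / 2 ^ s))| ≤ ε)
    (h2 : ∀ x, |Ph f x (B * a) - ex s (fun y => Ph f (3 ^ od s y * x / 2 ^ s) (3 ^ od s y * (B * a) / 2 ^ s))| ≤ ε) :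
    WW f κ a B N ≤ ex s (fun y => WW f κ (3 ^ od s y * a / 2 ^ s) B (3 ^ od s y * N / 2 ^ s)) + 16 * ε := by
  have hB0 : (0 : ℝ) < B := by exact_mod_cast hB
  have hε : 0 ≤ ε := (abs_nonneg _).trans (h1 0)
  -- the transported differences
  set d : ℤ → ℕ → ℝ → ℝ := fun y b x => Ph f (3 ^ od s y / 2 ^ s * x + b * (3 ^ od s y * a / 2 ^ s)) (3 ^ od s y * a / 2 ^ s) -
    Ph f (3 ^ od s y / 2 ^ s * x) (B * (3 ^ od s y * a / 2 ^ s)) with hd
  have hdb : ∀ y b x, |d y b x| ≤ 4 := by
    intro y b x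
    refine (abs_sub _ _).trans ?_
    have := Ph_bd hf (3 ^ od s y / 2 ^ s * x + b * (3 ^ od s y * a / 2 ^ s)) (3 ^ od s y * a / 2 ^ s)
    have := Ph_bd hf (3 ^ od s y / 2 ^ s * x) (B * (3 ^ od s y * a / 2 ^ s))
    linarith
  have hdm : ∀ y b, Measurable (d y b) := by
    intro y b
    apply Measurable.sub
    · exact (Ph_meas f _).comp ((measurable_id.const_mul _).add_const _)
    · exact (Ph_meas f _).comp (measurable_id.const_mul _)
  have hpt : ∀ x, (∑ b ∈ range B, (Ph f (x + b * a) a - Ph f x (B * a)) ^ 2) / B ≤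
      ex s (fun y => (∑ b ∈ range B, (d y b x) ^ 2) / B) + 16 * ε := by
    intro x
    have g1 : ∀ b ∈ range B, (Ph f (x + b * a) a - Ph f x (B * a)) ^ 2 ≤ ex s (fun y => (d y b x) ^ 2) + 16 * ε := by
      intro b _
      have e1 : ex s (fun y => d y b x) = ex s (fun y => Ph f (3 ^ od s y * (x + b * a) / 2 ^ s) (3 ^ od s y * a / 2 ^ s)) -
          ex s (fun y => Ph f (3 ^ od s y * x / 2 ^ s) (3 ^ od s y * (B * a) / 2 ^ s)) := by
        rw [ex_sub]
        apply ex_congr
        intro y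
        rw [hd]
        simp only
        rw [show (3 : ℝ) ^ od s y / 2 ^ s * x + b * (3 ^ od s y * a / 2 ^ s) = 3 ^ od s y * (x + b * a) / 2 ^ s by ring,
          show (3 : ℝ) ^ od s y / 2 ^ s * x = 3 ^ od s y * x / 2 ^ s by ring,
          show (B : ℝ) * (3 ^ od s y * a / 2 ^ s) = 3 ^ od s y * (B * a) / 2 ^ s by ring]
      have e2 : |(Ph f (x + b * a) a - Ph f x (B * a)) - ex s (fun y => d y b x)| ≤ 2 * ε := by
        rw [e1]
        have k1 := h1 (x + b * a)
        have k2 := h2 x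
        rw [abs_le] at k1 k2 ⊢
        constructor <;> linarith
      have e3 : |Ph f (x + b * a) a - Ph f x (B * a)| ≤ 4 := by
        refine (abs_sub _ _).trans ?_
        have := Ph_bd hf (x + b * a) a
        have := Ph_bd hf x (B * a)
        linarith
      have e4 : |ex s (fun y => d y b x)| ≤ 4 := ex_abs (fun y => hdb y b x)
      have e5 := ex_sq s (fun y => d y b x)
      set D := Ph f (x + b * a) a - Ph f x (B * a) with hD
      set E := ex s (fun y => d y b x) with hE
      have e6 : D ^ 2 - E ^ 2 ≤ 16 * ε := by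
        have : D ^ 2 - E ^ 2 = (D - E) * (D + E) := by ring
        rw [this]
        refine (le_abs_self _).trans ?_
        rw [abs_mul]
        have e7 : |D + E| ≤ 8 := (abs_add_le _ _).trans (by linarith)
        calc |D - E| * |D + E| ≤ (2 * ε) * 8 := mul_le_mul e2 e7 (abs_nonneg _) (by linarith)
          _ = 16 * ε := by ring
      linarith
    rw [div_le_iff₀ hB0]
    refine (sum_le_sum g1).trans ?_
    rw [sum_add_distrib, sum_const, card_range, nsmul_eq_mul]
    have g2 : ex s (fun y => (∑ b ∈ range B, (d y b x) ^ 2) / B) = (∑ b ∈ range B, ex s (fun y => (d y b x) ^ 2)) / B := by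
      rw [← ex_sum, div_eq_inv_mul, ← ex_mul]
      apply ex_congr
      intro y
      rw [div_eq_inv_mul]
    rw [g2, add_mul, div_mul_cancel₀ _ hB0.ne']
    linarith
  have hWy : ∀ y, WW f κ (3 ^ od s y * a / 2 ^ s) B (3 ^ od s y * N / 2 ^ s) =
      (∫ x in (κ * N)..(κ * N + N), (∑ b ∈ range B, (d y b x) ^ 2) / B) / N := by
    intro y
    have hc : (0 : ℝ) < 3 ^ od s y / 2 ^ s := by positivity
    have h := cov (H := fun x => (∑ b ∈ range B, (Ph f (x + b * (3 ^ od s y * a / 2 ^ s)) (3 ^ od s y * a / 2 ^ s) -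
      Ph f x (B * (3 ^ od s y * a / 2 ^ s))) ^ 2) / B) (κ := κ) hc hN
    unfold WW
    rw [show (3 : ℝ) ^ od s y * N / 2 ^ s = 3 ^ od s y / 2 ^ s * N by ring, ← h]
  have hm1 : ∀ y, Measurable (fun x => (∑ b ∈ range B, (d y b x) ^ 2) / B) := by
    intro y
    apply Measurable.div_const
    exact Finset.measurable_sum _ (fun b _ => (hdm y b).pow_const 2)
  have hb1 : ∀ y x, |(∑ b ∈ range B, (d y b x) ^ 2) / B| ≤ 16 := by
    intro y x
    rw [abs_div, abs_of_pos hB0, div_le_iff₀ hB0]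
    refine (abs_sum_le_sum_abs _ _).trans ?_
    have : ∀ b ∈ range B, |(d y b x) ^ 2| ≤ 16 := by
      intro b _
      have := sq_bd (hdb y b x)
      linarith
    refine (sum_le_card_nsmul _ _ _ this).trans ?_
    rw [card_range, nsmul_eq_mul, mul_comm]
  have hi1 : ∀ y, IntervalIntegrable (fun x => (∑ b ∈ range B, (d y b x) ^ 2) / B) volume (κ * N) (κ * N + N) :=
    fun y => ii_bdd (hm1 y) (hb1 y) _ _
  have e5 : ex s (fun y => WW f κ (3 ^ od s y * a / 2 ^ s) B (3 ^ od s y * N / 2 ^ s)) =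
      (∫ x in (κ * N)..(κ * N + N), ex s (fun y => (∑ b ∈ range B, (d y b x) ^ 2) / B)) / N := by
    rw [int_ex (F := fun y x => (∑ b ∈ range B, (d y b x) ^ 2) / B) hi1, div_eq_inv_mul, ← ex_mul]
    apply ex_congr
    intro y
    rw [hWy y, div_eq_inv_mul]
  rw [e5]
  unfold WW
  have e6 : 16 * ε = (∫ x in (κ * N)..(κ * N + N), (16 * ε : ℝ)) / N := by
    rw [intervalIntegral.integral_const, smul_eq_mul]
    field_simp
    ring
  rw [e6, ← add_div]
  apply div_le_div_of_nonneg_right _ hN.le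
  have hmE : Measurable (fun x => ex s (fun y => (∑ b ∈ range B, (d y b x) ^ 2) / B)) := by
    unfold ex
    apply Measurable.div_const
    exact Finset.measurable_sum _ (fun i _ => hm1 _)
  have hiE : IntervalIntegrable (fun x => ex s (fun y => (∑ b ∈ range B, (d y b x) ^ 2) / B)) volume (κ * N) (κ * N + N) :=
    ii_bdd hmE (C := 16) (fun x => ex_abs (fun y => hb1 y x)) _ _
  rw [← intervalIntegral.integral_add hiE intervalIntegrable_const]
  apply intervalIntegral.integral_mono_on (by linarith) _ (hiE.add intervalIntegrable_const) (fun x _ => hpt x)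
  apply ii_bdd (C := 16)
  · apply Measurable.div_const
    apply Finset.measurable_sum
    intro b _
    exact (((Ph_meas f a).comp (measurable_id.add_const _)).sub (Ph_meas f _)).pow_const 2
  · intro x
    rw [abs_div, abs_of_pos hB0, div_le_iff₀ hB0]
    refine (abs_sum_le_sum_abs _ _).trans ?_
    have : ∀ b ∈ range B, |(Ph f (x + b * a) a - Ph f x (B * a)) ^ 2| ≤ 16 := by
      intro b _
      have h3 : |Ph f (x + b * a) a - Ph f x (B * a)| ≤ 4 := by
        refine (abs_sub _ _).trans ?_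
        have := Ph_bd hf (x + b * a) a
        have := Ph_bd hf x (B * a)
        linarith
      have := sq_bd h3
      linarith
    refine (sum_le_card_nsmul _ _ _ this).trans ?_
    rw [card_range, nsmul_eq_mul, mul_comm]

end Pool.Agent.J4H26.PC
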