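import Mathlib
import Pool.Agent.J4H26.PC.B6

set_option autoImplicit false

/-! Project PC: the comparison of the mean squares of window averages at all heights. -/

namespace Pool.Agent.J4H26.PC

open Finset Filter Real MeasureTheory
open Pool.Agent.J4H39 (T od ex pb ns rn stP stK lb GK Cm DV th0 ex_mono ex_congr ex_add ex_mul ex_const ex_sum ex_nonneg
  pb_nonneg pb_mono Per per_od ex_pair pb_od pb_le_one th0_pos th0_lt th0_gt three_pow ex_per)

theorem WW_bd {f : ℤ → ℝ} (hf : Iv f) (κ a : ℝ) {N : ℝ} (hN : 0 < N) {B : ℕ} (hB : 1 ≤ B) : |WW f κ a B N| ≤ 16 := by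
  have hB0 : (0 : ℝ) < B := by exact_mod_cast hB
  unfold WW
  rw [abs_div, abs_of_pos hN, div_le_iff₀ hN]
  have h5 := intervalIntegral.norm_integral_le_of_norm_le_const (a := κ * N) (b := κ * N + N) (C := 16)
    (f := fun x => (∑ b ∈ range B, (Ph f (x + b * a) a - Ph f x (B * a)) ^ 2) / B) (fun x _ => by
      rw [Real.norm_eq_abs, abs_div, abs_of_pos hB0, div_le_iff₀ hB0]
      refine (abs_sum_le_sum_abs _ _).trans ?_
      have : ∀ b ∈ range B, |(Ph f (x + b * a) a - Ph f x (B * a)) ^ 2| ≤ 16 := by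
        intro b _
        have h3 : |Ph f (x + b * a) a - Ph f x (B * a)| ≤ 4 := by
          refine (abs_sub _ _).trans ?_
          have := Ph_bd hf (x + b * a) a
          have := Ph_bd hf x (B * a)
          linarith
        have := sq_bd h3
        linarith
      refine (sum_le_card_nsmul _ _ _ this).trans ?_
      rw [card_range, nsmul_eq_mul, mul_comm])
  rw [Real.norm_eq_abs] at h5
  refine h5.trans (le_of_eq ?_)
  rw [show κ * N + N - κ * N = N by ring, abs_of_pos hN]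

/-- deviations proportional to the length -/
theorem pb_dev_lin {s : ℕ} (hs : 1 ≤ s) : pb s (fun y => (s : ℝ) / 20 ≤ |2 * (od s y : ℝ) - s|) ≤ 1600 / s := by
  refine (pb_od hs (δ := (s : ℝ) / 20) (by positivity)).trans ?_
  have hs0 : (0 : ℝ) < s := by exact_mod_cast hs
  have e : ((s : ℝ) / 20) ^ 2 / (2 * s) = s / 800 := by field_simp; ring
  rw [e]
  have h4 : Real.exp (-((s : ℝ) / 800)) ≤ 800 / s := by
    rw [Real.exp_neg, show 800 / (s : ℝ) = ((s : ℝ) / 800)⁻¹ by rw [inv_div]]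
    apply inv_anti₀ (by positivity)
    have := Real.add_one_le_exp ((s : ℝ) / 800)
    linarith
  have : 1600 / (s : ℝ) = 2 * (800 / s) := by ring
  rw [this]
  linarith

/-- the contraction of the variation -/
theorem WW_down (hS1 : S_ST1) : ∃ C : ℝ, 0 < C ∧ ∀ f : ℤ → ℝ, Iv f → ∀ κ a N : ℝ, 0 < N → 0 < a → ∀ B : ℕ, 1 ≤ B →
    100 ≤ logb 2 a → ∀ E : ℝ, (∀ c : ℝ, 0 < c → 855 / 1000 * logb 2 a ≤ logb 2 (c * a) → logb 2 (c * a) ≤ 93 / 100 * logb 2 a →
      WW f κ (c * a) B (c * N) ≤ E) → WW f κ a B N ≤ E + C * (logb 2 a) ^ (-(1 / 80) : ℝ) := by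
  obtain ⟨C, hC, h⟩ := hS1
  refine ⟨64 * C + 16 * 6400, by positivity, ?_⟩
  intro f hf κ a N hN ha B hB hlog E hE
  have hB0 : (0 : ℝ) < B := by exact_mod_cast hB
  have hB1 : (1 : ℝ) ≤ B := by exact_mod_cast hB
  set lam := logb 2 a with hlam
  set s : ℕ := ⌊lam / 2⌋₊ with hs
  have hs1 : (s : ℝ) ≤ lam / 2 := Nat.floor_le (by linarith)
  have hs2 : lam / 2 < s + 1 := Nat.lt_floor_add_one _
  have hs3 : 1 ≤ s := by
    by_contra hlt
    have : s = 0 := by omega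
    rw [this] at hs2
    norm_num at hs2
    linarith
  have hs0 : (0 : ℝ) < s := by exact_mod_cast hs3
  have hs4 : lam / 4 ≤ s := by linarith
  have hth := th0_pos
  have hth4 := th0_lt
  have hth5 := th0_gt
  have ha2 : (2 : ℝ) ^ (2 * s) ≤ a := by
    rw [← Real.rpow_natCast, ← Real.le_logb_iff_rpow_le (by norm_num) ha]
    push_cast
    linarith
  have hBa : (2 : ℝ) ^ (2 * s) ≤ B * a := ha2.trans (le_mul_of_one_le_left ha.le hB1)
  have key := WW_step hf κ hN hB (fun x => h s hs3 f hf x a ha2) (fun x => h s hs3 f hf x (B * a) hBa)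
  have hEp : |E| ≤ |E| := le_rfl
  -- the average over words
  have hE0 : -16 ≤ E := by
    have h1 := hE ((2 : ℝ) ^ (-(lam / 10)) ) (by positivity) ?_ ?_
    · have h2 := (abs_le.mp (WW_bd hf κ ((2 : ℝ) ^ (-(lam / 10)) * a) (N := (2 : ℝ) ^ (-(lam / 10)) * N) (by positivity) hB)).1
      linarith
    · rw [Real.logb_mul (by positivity) ha.ne', Real.logb_rpow (by norm_num) (by norm_num)]
      linarith
    · rw [Real.logb_mul (by positivity) ha.ne', Real.logb_rpow (by norm_num) (by norm_num)]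
      linarith
  have avg : ex s (fun y => WW f κ (3 ^ od s y * a / 2 ^ s) B (3 ^ od s y * N / 2 ^ s)) ≤ E + 32 * (1600 / s) := by
    have k1 : ex s (fun y => WW f κ (3 ^ od s y * a / 2 ^ s) B (3 ^ od s y * N / 2 ^ s)) ≤
        ex s (fun y => E + 32 * (if (s : ℝ) / 20 ≤ |2 * (od s y : ℝ) - s| then 1 else 0)) := by
      apply ex_mono
      intro y
      by_cases hy : (s : ℝ) / 20 ≤ |2 * (od s y : ℝ) - s|
      · rw [if_pos hy]
        have := (abs_le.mp (WW_bd hf κ (3 ^ od s y * a / 2 ^ s) (N := 3 ^ od s y * N / 2 ^ s) (by positivity) hB)).2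
        linarith
      · rw [if_neg hy, mul_zero, add_zero]
        rw [not_le, abs_lt] at hy
        have hl := len_eq (w := 0) (t := s) (m := od s y) ha
        rw [show (3 : ℝ) ^ od s y * a / 2 ^ s = 3 ^ od s y / 2 ^ s * a by ring] at hl ⊢
        rw [show (3 : ℝ) ^ od s y * N / 2 ^ s = 3 ^ od s y / 2 ^ s * N by ring]
        apply hE _ (by positivity)
        · rw [hl, ← hlam]
          nlinarith
        · rw [hl, ← hlam]
          nlinarith
    refine k1.trans ?_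
    rw [ex_add, ex_const, ex_mul]
    have := pb_dev_lin hs3
    unfold pb at this
    have e2 : ex s (fun y => if (s : ℝ) / 20 ≤ |2 * (od s y : ℝ) - s| then (1 : ℝ) else 0) ≤ 1600 / s := by
      refine le_trans (le_of_eq ?_) this
      apply ex_congr
      intro y
      congr
    linarith
  have e1 : (s : ℝ) ^ (-(1 / 80) : ℝ) ≤ 4 * lam ^ (-(1 / 80) : ℝ) := by
    have k1 : (s : ℝ) ^ (-(1 / 80) : ℝ) ≤ (lam / 4) ^ (-(1 / 80) : ℝ) :=
      Real.rpow_le_rpow_of_nonpos (by linarith) hs4 (by norm_num)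
    have k2 : (lam / 4) ^ (-(1 / 80) : ℝ) = lam ^ (-(1 / 80) : ℝ) * 4 ^ ((1 / 80) : ℝ) := by
      rw [Real.div_rpow (by linarith) (by norm_num), Real.rpow_neg (by norm_num : (0 : ℝ) ≤ 4), div_inv_eq_mul]
    have k3 : (4 : ℝ) ^ ((1 / 80) : ℝ) ≤ 4 := by
      calc (4 : ℝ) ^ ((1 / 80) : ℝ) ≤ 4 ^ (1 : ℝ) := Real.rpow_le_rpow_of_exponent_le (by norm_num) (by norm_num)
        _ = 4 := Real.rpow_one _
    have k4 : 0 ≤ lam ^ (-(1 / 80) : ℝ) := Real.rpow_nonneg (by linarith) _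
    rw [k2] at k1
    nlinarith
  have e2 : 1600 / (s : ℝ) ≤ 6400 * lam ^ (-(1 / 80) : ℝ) / 2 := by
    have k1 : 1 / (s : ℝ) ≤ 4 / lam := by
      rw [div_le_div_iff₀ hs0 (by linarith)]
      linarith
    have k2 : 4 / lam ≤ 2 * lam ^ (-(1 / 80) : ℝ) := by
      have k3 : lam ^ (-(79 / 80) : ℝ) ≤ 1 / 2 := by
        calc lam ^ (-(79 / 80) : ℝ) ≤ 100 ^ (-(79 / 80) : ℝ) := Real.rpow_le_rpow_of_nonpos (by norm_num) hlog (by norm_num)
          _ ≤ 100 ^ (-(1 / 2) : ℝ) := Real.rpow_le_rpow_of_exponent_le (by norm_num) (by norm_num)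
          _ ≤ 1 / 2 := by
              rw [Real.rpow_neg (by norm_num), ← Real.sqrt_eq_rpow, show (100 : ℝ) = 10 ^ 2 by norm_num, Real.sqrt_sq (by norm_num)]
              norm_num
      have k4 : 1 / lam = lam ^ (-(1 / 80) : ℝ) * lam ^ (-(79 / 80) : ℝ) := by
        rw [← Real.rpow_add (by linarith)]
        norm_num
        rw [Real.rpow_neg_one]
      have k5 : 0 ≤ lam ^ (-(1 / 80) : ℝ) := Real.rpow_nonneg (by linarith) _
      have : 4 / lam = 4 * (1 / lam) := by ring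
      rw [this, k4]
      nlinarith
    have : 1600 / (s : ℝ) = 1600 * (1 / s) := by ring
    rw [this]
    linarith
  have k6 : 0 ≤ lam ^ (-(1 / 80) : ℝ) := Real.rpow_nonneg (by linarith) _
  have e3 : 16 * (C * (s : ℝ) ^ (-(1 / 80) : ℝ)) ≤ 64 * C * lam ^ (-(1 / 80) : ℝ) := by
    have := mul_le_mul_of_nonneg_left e1 hC.le
    linarith
  have : (64 * C + 16 * 6400) * lam ^ (-(1 / 80) : ℝ) = 64 * C * lam ^ (-(1 / 80) : ℝ) + 16 * 6400 * lam ^ (-(1 / 80) : ℝ) := by ring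
  rw [this]
  linarith

/-- induction over the scales -/
theorem WW_all (hS1 : S_ST1) : ∃ K : ℝ, 0 < K ∧ ∀ f : ℤ → ℝ, Iv f → ∀ κ : ℝ, ∀ B : ℕ, 1 ≤ B → ∀ L₀ : ℝ, 200 ≤ L₀ → ∀ (l : ℕ) (E : ℝ), 0 ≤ E →
    (∀ a : ℝ, 0 < a → L₀ ≤ logb 2 a → logb 2 a ≤ 4 * L₀ → WW f κ a B (2 ^ l * a) ≤ E) →
    ∀ a : ℝ, 0 < a → L₀ ≤ logb 2 a → WW f κ a B (2 ^ l * a) ≤ E + K * L₀ ^ (-(1 / 80) : ℝ) := by
  obtain ⟨C, hC, h⟩ := WW_down hS1
  -- the potential
  have hq : 1 < (93 / 100 : ℝ) ^ (-(1 / 80) : ℝ) := by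
    apply Real.one_lt_rpow_of_pos_of_lt_one_of_neg (by norm_num) (by norm_num) (by norm_num)
  set q := (93 / 100 : ℝ) ^ (-(1 / 80) : ℝ) with hqd
  refine ⟨C / (q - 1), div_pos hC (by linarith), ?_⟩
  intro f hf κ B hB L₀ hL₀ l E hE hbase
  have hK : 0 < C / (q - 1) := div_pos hC (by linarith)
  set K := C / (q - 1) with hKd
  have hKq : K * q = K + C := by
    have hq1 : q - 1 ≠ 0 := by linarith
    have : K * (q - 1) = C := by rw [hKd]; exact div_mul_cancel₀ _ hq1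
    linarith
  have main : ∀ k : ℕ, ∀ a : ℝ, 0 < a → L₀ ≤ logb 2 a → logb 2 a ≤ 4 * L₀ * (100 / 93) ^ k →
      WW f κ a B (2 ^ l * a) ≤ E + K * (L₀ ^ (-(1 / 80) : ℝ) - (logb 2 a) ^ (-(1 / 80) : ℝ)) := by
    intro k
    induction k with
    | zero =>
      intro a ha h1 h2
      rw [pow_zero, mul_one] at h2
      have h3 := hbase a ha h1 h2
      have h4 : (logb 2 a) ^ (-(1 / 80) : ℝ) ≤ L₀ ^ (-(1 / 80) : ℝ) :=
        Real.rpow_le_rpow_of_nonpos (by linarith) h1 (by norm_num)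
      have h5 : 0 ≤ K * (L₀ ^ (-(1 / 80) : ℝ) - (logb 2 a) ^ (-(1 / 80) : ℝ)) := mul_nonneg hK.le (by linarith)
      linarith
    | succ k ih =>
      intro a ha h1 h2
      rcases le_or_gt (logb 2 a) (4 * L₀) with h3 | h3
      · have h4 := hbase a ha h1 h3
        have h4' : (logb 2 a) ^ (-(1 / 80) : ℝ) ≤ L₀ ^ (-(1 / 80) : ℝ) :=
          Real.rpow_le_rpow_of_nonpos (by linarith) h1 (by norm_num)
        have h5 : 0 ≤ K * (L₀ ^ (-(1 / 80) : ℝ) - (logb 2 a) ^ (-(1 / 80) : ℝ)) := mul_nonneg hK.le (by linarith)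
        linarith
      · have h4 := h f hf κ a (2 ^ l * a) (by positivity) ha B hB (by linarith)
          (E + K * (L₀ ^ (-(1 / 80) : ℝ) - q * (logb 2 a) ^ (-(1 / 80) : ℝ))) (by
          intro c hc g1 g2
          have g3 := ih (c * a) (by positivity) (by linarith) (by
            rw [pow_succ] at h2
            have : 93 / 100 * (4 * L₀ * ((100 / 93) ^ k * (100 / 93))) = 4 * L₀ * (100 / 93) ^ k := by ring
            nlinarith)
          rw [show c * (2 ^ l * a) = 2 ^ l * (c * a) by ring]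
          refine g3.trans ?_
          have g4 : q * (logb 2 a) ^ (-(1 / 80) : ℝ) ≤ (logb 2 (c * a)) ^ (-(1 / 80) : ℝ) := by
            rw [hqd, ← Real.mul_rpow (by norm_num) (by linarith)]
            exact Real.rpow_le_rpow_of_nonpos (by nlinarith) g2 (by norm_num)
          have := mul_le_mul_of_nonneg_left g4 hK.le
          linarith)
        refine h4.trans ?_
        have g5 : K * (L₀ ^ (-(1 / 80) : ℝ) - q * (logb 2 a) ^ (-(1 / 80) : ℝ)) =
            K * L₀ ^ (-(1 / 80) : ℝ) - (K * q) * (logb 2 a) ^ (-(1 / 80) : ℝ) := by ring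
        rw [g5, hKq]
        have g6 : E + (K * L₀ ^ (-(1 / 80) : ℝ) - (K + C) * (logb 2 a) ^ (-(1 / 80) : ℝ)) + C * (logb 2 a) ^ (-(1 / 80) : ℝ) =
            E + K * (L₀ ^ (-(1 / 80) : ℝ) - (logb 2 a) ^ (-(1 / 80) : ℝ)) := by ring
        exact le_of_eq g6
  intro a ha h1
  obtain ⟨k, hk⟩ := pow_unbounded_of_one_lt (logb 2 a / (4 * L₀)) (show (1 : ℝ) < 100 / 93 by norm_num)
  rw [div_lt_iff₀ (by positivity)] at hk
  have h2 := main k a ha h1 (by linarith)
  have h3 : 0 ≤ (logb 2 a) ^ (-(1 / 80) : ℝ) := Real.rpow_nonneg (by linarith) _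
  have := mul_nonneg hK.le h3
  linarith

theorem VV_neg' (f : ℤ → ℝ) (κ : ℝ) {a : ℝ} (ha : a < 0) (N : ℝ) : VV f κ a N = 0 := by
  unfold VV Ph
  have h : ∀ x : ℝ, (∑ n ∈ Finset.Ico ⌈x⌉ ⌈x + a⌉, f n) / max a 1 = 0 := by
    intro x
    have h1 : ⌈x + a⌉ ≤ ⌈x⌉ := Int.ceil_le_ceil (by linarith)
    rw [Finset.Ico_eq_empty (by omega), sum_empty, zero_div]
  simp only [h]
  simp

theorem t_KEY (hS1 : S_ST1) (hB : S_BASE) : S_KEY := by
  obtain ⟨K, hK, h1⟩ := WW_all hS1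
  obtain ⟨C, hC, h2⟩ := hB
  refine ⟨C + K + 24, by positivity, ?_⟩
  filter_upwards [h2, eventually_ge_atTop 200] with w h2 hw200 j hj1 hj2 f hf κ hκ l a hl1 hl2 ha1
  have hw1 : 1 ≤ w := by omega
  have hw0 : (0 : ℝ) < w := by exact_mod_cast hw1
  have hw1' : (1 : ℝ) ≤ w := by exact_mod_cast hw1
  have hw200' : (200 : ℝ) ≤ w := by exact_mod_cast hw200
  have hth := th0_pos
  have hth4 := th0_lt
  have hL₀ : (200 : ℝ) ≤ (w : ℝ) ^ 88 := hw200'.trans (le_self_pow₀ hw1' (by norm_num))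
  set β : ℕ := ⌊48 * th0 * j⌋₊ with hβ
  have hβ0 : 0 ≤ 48 * th0 * (j : ℝ) := by positivity
  have hβ1 : (β : ℝ) ≤ 48 * th0 * j := Nat.floor_le hβ0
  have hβ3 : β ≤ 12 * j := by
    have : (β : ℝ) ≤ 12 * j := by nlinarith [show (0 : ℝ) ≤ j from Nat.cast_nonneg j]
    exact_mod_cast this
  have hB1 : 1 ≤ 2 ^ β := Nat.one_le_two_pow
  have hjw : w ≤ j := (Nat.le_self_pow (by norm_num) w).trans hj1
  -- the boundary effect
  have hbdry : ∀ a : ℝ, 0 < a → 8 * (((2 ^ β : ℕ) : ℝ) * a) / (2 ^ l * a) ≤ 8 / w := by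
    intro a ha
    rw [div_le_div_iff₀ (by positivity) hw0]
    push_cast
    have e1 : (2 : ℝ) ^ β * w ≤ 2 ^ l := by
      have e2 : (w : ℝ) ≤ 2 ^ j := by
        have : w ≤ 2 ^ j := hjw.trans (Nat.lt_two_pow_self).le
        exact_mod_cast this
      calc (2 : ℝ) ^ β * w ≤ 2 ^ β * 2 ^ j := by gcongr
        _ = 2 ^ (β + j) := by rw [pow_add]
        _ ≤ 2 ^ l := pow_le_pow_right₀ (by norm_num) (by omega)
    nlinarith
  have hsq := inv_le_inv_sqrt hw1
  have hE : (0 : ℝ) ≤ C / √w + 8 / w := by positivity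
  have hone : ∀ a : ℝ, 0 < a → (w : ℝ) ^ 88 ≤ logb 2 a → 1 ≤ a := by
    intro a ha hl
    have : (2 : ℝ) ^ (0 : ℝ) ≤ a := by
      rw [← Real.le_logb_iff_rpow_le (by norm_num) ha]; linarith
    simpa using this
  rcases lt_trichotomy a 0 with ha | ha | ha
  · rw [VV_neg' f κ ha, VV_neg' f κ (by nlinarith [show (0 : ℝ) < 2 ^ β by positivity]), zero_add]
    positivity
  · rw [ha, Real.logb_zero] at ha1
    linarith
  have h3 := h1 f hf κ (2 ^ β) hB1 ((w : ℝ) ^ 88) hL₀ l (C / √w + 8 / w) hE (by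
    intro a ha g1 g2
    have g3 := WW_eq hf κ (hone a ha g1) (N := 2 ^ l * a) (by positivity) hB1
    have g4 := h2 j hj1 hj2 f hf κ hκ l a hl1 hl2 g1 g2
    have g5 := hbdry a ha
    push_cast at g3 g5
    rw [abs_le] at g3 g4
    linarith) a ha ha1
  have g3 := WW_eq hf κ (hone a ha ha1) (N := 2 ^ l * a) (by positivity) hB1
  have g5 := hbdry a ha
  push_cast at g3 g5
  rw [abs_le] at g3
  have g6 : ((w : ℝ) ^ 88) ^ (-(1 / 80) : ℝ) ≤ 1 / w := by
    rw [Real.rpow_neg (by positivity), ← Real.rpow_natCast, ← Real.rpow_mul hw0.le, one_div (w : ℝ)]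
    apply inv_anti₀ hw0
    calc (w : ℝ) = (w : ℝ) ^ (1 : ℝ) := (Real.rpow_one _).symm
      _ ≤ _ := Real.rpow_le_rpow_of_exponent_le hw1' (by norm_num)
  have g7 := mul_le_mul_of_nonneg_left g6 hK.le
  have e9 : (C + K + 24) / √w = C / √w + (K + 24) * (1 / √w) := by ring
  have e10 : (8 : ℝ) / w = 8 * (1 / w) := by ring
  rw [e9]
  rw [e10] at g5 h3
  have g8 := mul_le_mul_of_nonneg_left hsq (by positivity : 0 ≤ K + 24)
  have g9 : (0 : ℝ) ≤ 1 / w := by positivity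
  nlinarith

end Pool.Agent.J4H26.PC
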