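import Mathlib
import Pool.Agent.J4H26.PC.Q1
import Pool.Agent.J4H26.PC.B5
import Pool.Agent.J4H26.PC.B7

set_option autoImplicit false

/-! Project PC: the comparison of the mean squares for all ratios of the lengths. -/

namespace Pool.Agent.J4H26.PC

open Finset Filter Real MeasureTheory
open Pool.Agent.J4H39 (T od ex pb ns rn stP stK lb GK Cm DV th0 ex_mono ex_congr ex_add ex_mul ex_const ex_sum ex_nonneg
  pb_nonneg pb_mono pb_or Per per_od ex_pair pb_od pb_le_one th0_pos th0_lt th0_gt three_pow ex_per od_comp rel_rn rel_nat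
  pb_affine pow3_odd pb_exists)

/-- one band, at the height `w ^ 88`, for all ratios -/
def S_BASER : Prop := ∃ C : ℝ, 0 < C ∧ ∀ᶠ w : ℕ in atTop, ∀ j, w ^ 80 ≤ j → j ≤ 2 * w ^ 80 → ∀ f : ℤ → ℝ, Iv f →
  ∀ κ : ℝ, |κ| ≤ 1 → ∀ ρ a : ℝ, (2 : ℝ) ^ (20 * j) ≤ ρ → (w : ℝ) ^ 88 ≤ logb 2 a → logb 2 a ≤ 4 * (w : ℝ) ^ 88 →
  |VV f κ a (ρ * a) - VV f κ (2 ^ ⌊48 * th0 * j⌋₊ * a) (ρ * a)| ≤ C / √w

theorem t_BASER (hS : S_STM) (hF : S_FT) (hG : S_GAM) (hL : S_LIP) (hW : S_LAW) : S_BASER := by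
  obtain ⟨C₁, hC₁, h1⟩ := step2 hS hG
  obtain ⟨C₂, hC₂, h2⟩ := base_words hF hL hW
  refine ⟨2 * C₁ + C₂, by positivity, ?_⟩
  filter_upwards [h1, h2, eventually_ge_atTop 10] with w h1 h2 hw10 j hj1 hj2 f hf κ hκ ρ a hl1 ha1 ha2
  have hw1 : 1 ≤ w := by omega
  have hw0 : (0 : ℝ) < w := by exact_mod_cast hw1
  have hw1' : (1 : ℝ) ≤ w := by exact_mod_cast hw1
  have hw10' : (10 : ℝ) ≤ w := by exact_mod_cast hw10
  have hth := th0_pos
  have hth4 := th0_lt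
  have hth5 := th0_gt
  rcases lt_trichotomy a 0 with ha | ha | ha
  · rw [VV_neg f κ ha, VV_neg f κ (by nlinarith [show (0 : ℝ) < 2 ^ ⌊48 * th0 * j⌋₊ by positivity]), sub_zero, abs_zero]
    positivity
  · rw [ha, Real.logb_zero] at ha1
    have e1 : (10 : ℝ) ≤ (w : ℝ) ^ 88 := hw10'.trans (le_self_pow₀ hw1' (by norm_num))
    linarith
  have hw53 : (w : ℝ) ^ 53 ≤ (w : ℝ) ^ 54 := pow_le_pow_right₀ hw1' (by norm_num)
  have hw54 : 10 * (w : ℝ) ^ 53 ≤ (w : ℝ) ^ 54 := by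
    rw [pow_succ (w : ℝ) 53]
    nlinarith [pow_nonneg (by positivity : (0 : ℝ) ≤ w) 53]
  have hw88 : (w : ℝ) ^ 54 ≤ (w : ℝ) ^ 88 := pow_le_pow_right₀ hw1' (by norm_num)
  have hw53' : (10 : ℝ) ≤ (w : ℝ) ^ 53 := hw10'.trans (le_self_pow₀ hw1' (by norm_num))
  set t : ℕ := ⌊(logb 2 a - (w : ℝ) ^ 53) / th0⌋₊ with ht
  have hq0 : 0 ≤ (logb 2 a - (w : ℝ) ^ 53) / th0 := div_nonneg (by linarith) hth.le
  have ht1 : (t : ℝ) ≤ (logb 2 a - (w : ℝ) ^ 53) / th0 := Nat.floor_le hq0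
  have ht2 : (logb 2 a - (w : ℝ) ^ 53) / th0 < t + 1 := Nat.lt_floor_add_one _
  rw [le_div_iff₀ hth] at ht1
  rw [div_lt_iff₀ hth] at ht2
  have ht3 : (w : ℝ) ^ 88 ≤ t := by nlinarith
  have ht4 : (t : ℝ) ≤ 20 * (w : ℝ) ^ 88 := by nlinarith
  have ht5 : w ^ 88 ≤ t := by exact_mod_cast ht3
  have ht6 : t ≤ 20 * w ^ 88 := by exact_mod_cast ht4
  have ht7 : w ^ 52 ≤ t := (Nat.pow_le_pow_right hw1 (by norm_num)).trans ht5
  have hj3 : 48 * j ≤ 80 * w ^ 88 := by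
    have e1 : w ^ 88 = w ^ 80 * w ^ 8 := by rw [← pow_add]
    have e2 : 2 ≤ w ^ 8 := le_trans (by norm_num) (Nat.pow_le_pow_left hw10 8)
    have e3 : w ^ 80 * 2 ≤ w ^ 80 * w ^ 8 := Nat.mul_le_mul_left _ e2
    omega
  set β : ℕ := ⌊48 * th0 * j⌋₊ with hβ
  have hβ0 : 0 ≤ 48 * th0 * (j : ℝ) := by positivity
  have hβ1 : (β : ℝ) ≤ 48 * th0 * j := Nat.floor_le hβ0
  have hβ2 : 48 * th0 * j < β + 1 := Nat.lt_floor_add_one _
  have hβ3 : β ≤ 12 * j := by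
    have : (β : ℝ) ≤ 12 * j := by nlinarith [show (0 : ℝ) ≤ j from Nat.cast_nonneg j]
    exact_mod_cast this
  have ha' : (0 : ℝ) < 2 ^ β * a := by positivity
  have hlogb : logb 2 (2 ^ β * a) = β + logb 2 a := by
    rw [Real.logb_mul (by positivity) ha.ne', Real.logb_pow, Real.logb_self_eq_one (by norm_num), mul_one]
  have hρ2 : (2 : ℝ) ^ (2 * w ^ 80) ≤ ρ := (pow_le_pow_right₀ (by norm_num) (by omega)).trans hl1
  have g1 := h1 t ht7 (by omega) f hf κ hκ a (ρ * a) ha (by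
    rw [abs_le]; constructor <;> linarith) (by
    exact mul_le_mul_of_nonneg_right hρ2 ha.le)
  have g2 := h2 j hj1 hj2 f hf κ hκ a (ρ * a) t ht5 (by omega) ha (by linarith) (by
    exact mul_le_mul_of_nonneg_right hl1 ha.le)
  have g3 := h1 (t + 48 * j) (by omega) (by omega) f hf κ hκ (2 ^ β * a) (ρ * a) ha' (by
    rw [hlogb, abs_le]; push_cast; constructor <;> linarith) (by
    rw [← mul_assoc, ← pow_add]
    apply mul_le_mul_of_nonneg_right _ ha.le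
    exact (pow_le_pow_right₀ (by norm_num) (by omega)).trans hl1)
  rw [abs_sub_comm] at g3
  refine (abs_sub_le _ _ _).trans ((add_le_add g1 ((abs_sub_le _ _ _).trans (add_le_add g2 g3))).trans ?_)
  have e9 : (2 * C₁ + C₂) / √w = C₁ / √w + (C₂ * (1 / √w) + C₁ / √w) := by ring
  have e10 : C₂ / (w : ℝ) = C₂ * (1 / w) := by ring
  rw [e9, e10]
  have := mul_le_mul_of_nonneg_left (inv_le_inv_sqrt hw1) hC₂.le
  linarith

/-- induction over the scales -/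
theorem WW_allR (hS1 : S_ST1) : ∃ K : ℝ, 0 < K ∧ ∀ f : ℤ → ℝ, Iv f → ∀ κ : ℝ, ∀ B : ℕ, 1 ≤ B → ∀ L₀ : ℝ, 200 ≤ L₀ → ∀ (ρ E : ℝ), 0 < ρ → 0 ≤ E →
    (∀ a : ℝ, 0 < a → L₀ ≤ logb 2 a → logb 2 a ≤ 4 * L₀ → WW f κ a B (ρ * a) ≤ E) →
    ∀ a : ℝ, 0 < a → L₀ ≤ logb 2 a → WW f κ a B (ρ * a) ≤ E + K * L₀ ^ (-(1 / 80) : ℝ) := by
  obtain ⟨C, hC, h⟩ := WW_down hS1
  -- the potential
  have hq : 1 < (93 / 100 : ℝ) ^ (-(1 / 80) : ℝ) := by
    apply Real.one_lt_rpow_of_pos_of_lt_one_of_neg (by norm_num) (by norm_num) (by norm_num)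
  set q := (93 / 100 : ℝ) ^ (-(1 / 80) : ℝ) with hqd
  refine ⟨C / (q - 1), div_pos hC (by linarith), ?_⟩
  intro f hf κ B hB L₀ hL₀ ρ E hρ hE hbase
  have hK : 0 < C / (q - 1) := div_pos hC (by linarith)
  set K := C / (q - 1) with hKd
  have hKq : K * q = K + C := by
    have hq1 : q - 1 ≠ 0 := by linarith
    have : K * (q - 1) = C := by rw [hKd]; exact div_mul_cancel₀ _ hq1
    linarith
  have main : ∀ k : ℕ, ∀ a : ℝ, 0 < a → L₀ ≤ logb 2 a → logb 2 a ≤ 4 * L₀ * (100 / 93) ^ k →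
      WW f κ a B (ρ * a) ≤ E + K * (L₀ ^ (-(1 / 80) : ℝ) - (logb 2 a) ^ (-(1 / 80) : ℝ)) := by
    intro k
    induction k with
    | zero =>
      intro a ha h1 h2
      rw [pow_zero, mul_one] at h2
      have h3 := hbase a ha h1 h2
      have h4 : (logb 2 a) ^ (-(1 / 80) : ℝ) ≤ L₀ ^ (-(1 / 80) : ℝ) :=
        Real.rpow_le_rpow_of_nonpos (by linarith) h1 (by norm_num)
      have h5 : 0 ≤ K * (L₀ ^ (-(1 / 80) : ℝ) - (logb 2 a) ^ (-(1 / 80) : ℝ)) := mul_nonneg hK.le (by linarith)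
      linarith
    | succ k ih =>
      intro a ha h1 h2
      rcases le_or_gt (logb 2 a) (4 * L₀) with h3 | h3
      · have h4 := hbase a ha h1 h3
        have h4' : (logb 2 a) ^ (-(1 / 80) : ℝ) ≤ L₀ ^ (-(1 / 80) : ℝ) :=
          Real.rpow_le_rpow_of_nonpos (by linarith) h1 (by norm_num)
        have h5 : 0 ≤ K * (L₀ ^ (-(1 / 80) : ℝ) - (logb 2 a) ^ (-(1 / 80) : ℝ)) := mul_nonneg hK.le (by linarith)
        linarith
      · have h4 := h f hf κ a (ρ * a) (by positivity) ha B hB (by linarith)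
          (E + K * (L₀ ^ (-(1 / 80) : ℝ) - q * (logb 2 a) ^ (-(1 / 80) : ℝ))) (by
          intro c hc g1 g2
          have g3 := ih (c * a) (by positivity) (by linarith) (by
            rw [pow_succ] at h2
            have : 93 / 100 * (4 * L₀ * ((100 / 93) ^ k * (100 / 93))) = 4 * L₀ * (100 / 93) ^ k := by ring
            nlinarith)
          rw [show c * (ρ * a) = ρ * (c * a) by ring]
          refine g3.trans ?_
          have g4 : q * (logb 2 a) ^ (-(1 / 80) : ℝ) ≤ (logb 2 (c * a)) ^ (-(1 / 80) : ℝ) := by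
            rw [hqd, ← Real.mul_rpow (by norm_num) (by linarith)]
            exact Real.rpow_le_rpow_of_nonpos (by nlinarith) g2 (by norm_num)
          have := mul_le_mul_of_nonneg_left g4 hK.le
          linarith)
        refine h4.trans ?_
        have g5 : K * (L₀ ^ (-(1 / 80) : ℝ) - q * (logb 2 a) ^ (-(1 / 80) : ℝ)) =
            K * L₀ ^ (-(1 / 80) : ℝ) - (K * q) * (logb 2 a) ^ (-(1 / 80) : ℝ) := by ring
        rw [g5, hKq]
        have g6 : E + (K * L₀ ^ (-(1 / 80) : ℝ) - (K + C) * (logb 2 a) ^ (-(1 / 80) : ℝ)) + C * (logb 2 a) ^ (-(1 / 80) : ℝ) =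
            E + K * (L₀ ^ (-(1 / 80) : ℝ) - (logb 2 a) ^ (-(1 / 80) : ℝ)) := by ring
        exact le_of_eq g6
  intro a ha h1
  obtain ⟨k, hk⟩ := pow_unbounded_of_one_lt (logb 2 a / (4 * L₀)) (show (1 : ℝ) < 100 / 93 by norm_num)
  rw [div_lt_iff₀ (by positivity)] at hk
  have h2 := main k a ha h1 (by linarith)
  have h3 : 0 ≤ (logb 2 a) ^ (-(1 / 80) : ℝ) := Real.rpow_nonneg (by linarith) _
  have := mul_nonneg hK.le h3
  linarith

theorem VV_neg'' (f : ℤ → ℝ) (κ : ℝ) {a : ℝ} (ha : a < 0) (N : ℝ) : VV f κ a N = 0 := by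
  unfold VV Ph
  have h : ∀ x : ℝ, (∑ n ∈ Finset.Ico ⌈x⌉ ⌈x + a⌉, f n) / max a 1 = 0 := by
    intro x
    have h1 : ⌈x + a⌉ ≤ ⌈x⌉ := Int.ceil_le_ceil (by linarith)
    rw [Finset.Ico_eq_empty (by omega), sum_empty, zero_div]
  simp only [h]
  simp

theorem t_KEYR (hS1 : S_ST1) (hB : S_BASER) : S_KEYR := by
  obtain ⟨K, hK, h1⟩ := WW_allR hS1
  obtain ⟨C, hC, h2⟩ := hB
  refine ⟨C + K + 24, by positivity, ?_⟩
  filter_upwards [h2, eventually_ge_atTop 200] with w h2 hw200 j hj1 hj2 f hf κ hκ ρ a hl1 ha1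
  have hw1 : 1 ≤ w := by omega
  have hw0 : (0 : ℝ) < w := by exact_mod_cast hw1
  have hw1' : (1 : ℝ) ≤ w := by exact_mod_cast hw1
  have hw200' : (200 : ℝ) ≤ w := by exact_mod_cast hw200
  have hth := th0_pos
  have hth4 := th0_lt
  have hL₀ : (200 : ℝ) ≤ (w : ℝ) ^ 88 := hw200'.trans (le_self_pow₀ hw1' (by norm_num))
  set β : ℕ := ⌊48 * th0 * j⌋₊ with hβ
  have hβ0 : 0 ≤ 48 * th0 * (j : ℝ) := by positivity
  have hβ1 : (β : ℝ) ≤ 48 * th0 * j := Nat.floor_le hβ0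
  have hβ3 : β ≤ 12 * j := by
    have : (β : ℝ) ≤ 12 * j := by nlinarith [show (0 : ℝ) ≤ j from Nat.cast_nonneg j]
    exact_mod_cast this
  have hB1 : 1 ≤ 2 ^ β := Nat.one_le_two_pow
  have hρ0 : 0 < ρ := lt_of_lt_of_le (by positivity) hl1
  have hjw : w ≤ j := (Nat.le_self_pow (by norm_num) w).trans hj1
  -- the boundary effect
  have hbdry : ∀ a : ℝ, 0 < a → 8 * (((2 ^ β : ℕ) : ℝ) * a) / (ρ * a) ≤ 8 / w := by
    intro a ha
    rw [div_le_div_iff₀ (by positivity) hw0]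
    push_cast
    have e1 : (2 : ℝ) ^ β * w ≤ ρ := by
      have e2 : (w : ℝ) ≤ 2 ^ j := by
        have : w ≤ 2 ^ j := hjw.trans (Nat.lt_two_pow_self).le
        exact_mod_cast this
      calc (2 : ℝ) ^ β * w ≤ 2 ^ β * 2 ^ j := by gcongr
        _ = 2 ^ (β + j) := by rw [pow_add]
        _ ≤ ρ := (pow_le_pow_right₀ (by norm_num) (by omega)).trans hl1
    nlinarith
  have hsq := inv_le_inv_sqrt hw1
  have hE : (0 : ℝ) ≤ C / √w + 8 / w := by positivity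
  have hone : ∀ a : ℝ, 0 < a → (w : ℝ) ^ 88 ≤ logb 2 a → 1 ≤ a := by
    intro a ha hl
    have : (2 : ℝ) ^ (0 : ℝ) ≤ a := by
      rw [← Real.le_logb_iff_rpow_le (by norm_num) ha]; linarith
    simpa using this
  rcases lt_trichotomy a 0 with ha | ha | ha
  · rw [VV_neg'' f κ ha, VV_neg'' f κ (by nlinarith [show (0 : ℝ) < 2 ^ β by positivity]), zero_add]
    positivity
  · rw [ha, Real.logb_zero] at ha1
    linarith
  have h3 := h1 f hf κ (2 ^ β) hB1 ((w : ℝ) ^ 88) hL₀ ρ (C / √w + 8 / w) hρ0 hE (by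
    intro a ha g1 g2
    have g3 := WW_eq hf κ (hone a ha g1) (N := ρ * a) (by positivity) hB1
    have g4 := h2 j hj1 hj2 f hf κ hκ ρ a hl1 g1 g2
    have g5 := hbdry a ha
    push_cast at g3 g5
    rw [abs_le] at g3 g4
    linarith) a ha ha1
  have g3 := WW_eq hf κ (hone a ha ha1) (N := ρ * a) (by positivity) hB1
  have g5 := hbdry a ha
  push_cast at g3 g5
  rw [abs_le] at g3
  have g6 : ((w : ℝ) ^ 88) ^ (-(1 / 80) : ℝ) ≤ 1 / w := by
    rw [Real.rpow_neg (by positivity), ← Real.rpow_natCast, ← Real.rpow_mul hw0.le, one_div (w : ℝ)]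
    apply inv_anti₀ hw0
    calc (w : ℝ) = (w : ℝ) ^ (1 : ℝ) := (Real.rpow_one _).symm
      _ ≤ _ := Real.rpow_le_rpow_of_exponent_le hw1' (by norm_num)
  have g7 := mul_le_mul_of_nonneg_left g6 hK.le
  have e9 : (C + K + 24) / √w = C / √w + (K + 24) * (1 / √w) := by ring
  have e10 : (8 : ℝ) / w = 8 * (1 / w) := by ring
  rw [e9]
  rw [e10] at g5 h3
  have g8 := mul_le_mul_of_nonneg_left hsq (by positivity : 0 ≤ K + 24)
  have g9 : (0 : ℝ) ≤ 1 / w := by positivity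
  nlinarith


end Pool.Agent.J4H26.PC
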