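import Mathlib
import Pool.Agent.J4H26.PC.Q2
import Pool.Agent.J4H79.PC2.Pairs

set_option autoImplicit false

/-! Project PC: the variance of the number of elements of an invariant set in short windows. -/

namespace Pool.Agent.J4H26.PC

open Finset Filter Real
open Pool.Agent.J4H39 (T)
open Pool.Agent.J4H79.PC2 (int_ceil Ico_range shift_le)

open Classical in
theorem card_win (R : Set ℤ) (n : ℤ) (H : ℕ) : ({h : ℕ | (1 ≤ h ∧ h ≤ H) ∧ n + h ∈ R}.ncard : ℝ) =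
    ∑ i ∈ range H, (if n + 1 + (i : ℕ) ∈ R then (1 : ℝ) else 0) := by
  have e1 : {h : ℕ | (1 ≤ h ∧ h ≤ H) ∧ n + h ∈ R} = (((Finset.Icc 1 H).filter (fun h : ℕ => n + h ∈ R) : Finset ℕ) : Set ℕ) := by
    ext h
    simp only [Set.mem_setOf_eq, Finset.coe_filter, Finset.mem_Icc]
  rw [e1, Set.ncard_coe_finset, Finset.card_filter]
  push_cast
  have e2 : Finset.Icc 1 H = Finset.Ico 1 (H + 1) := by
    ext a; rw [Finset.mem_Icc, Finset.mem_Ico]; omega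
  rw [e2, Finset.sum_Ico_eq_sum_range, Nat.add_sub_cancel]
  apply sum_congr rfl
  intro i _
  congr 1
  rw [show n + ((1 + i : ℕ) : ℤ) = n + 1 + (i : ℕ) by push_cast; ring]

theorem fR_pos {s : ℤ} {R : Set ℤ} {δ : ℝ} {n : ℤ} (h : 0 < s * n) [Decidable (n ∈ R)] :
    fR s R δ n = (if n ∈ R then (1 : ℝ) else 0) - δ := by
  unfold fR
  rw [if_pos h]
  by_cases hn : n ∈ R
  · rw [if_pos hn, if_pos hn]
  · rw [if_neg hn, if_neg hn]; ring

/-- the square of the average over the `H` integers from `k` on -/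
noncomputable def gw (f : ℤ → ℝ) (H : ℕ) (k : ℤ) : ℝ := ((∑ i ∈ range H, f (k + (i : ℕ))) / H) ^ 2

theorem gw_mem {f : ℤ → ℝ} (hf : ∀ n, |f n| ≤ 1) {H : ℕ} (hH : 1 ≤ H) (k : ℤ) : 0 ≤ gw f H k ∧ gw f H k ≤ 1 := by
  have hH0 : (0 : ℝ) < H := by exact_mod_cast hH
  refine ⟨sq_nonneg _, ?_⟩
  unfold gw
  rw [← sq_abs, sq_le_one_iff₀ (abs_nonneg _), abs_div, abs_of_pos hH0, div_le_one hH0]
  refine (abs_sum_le_sum_abs _ _).trans ?_
  refine (sum_le_card_nsmul _ _ 1 (fun i _ => hf _)).trans ?_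
  rw [card_range, nsmul_eq_mul, mul_one]

theorem VV_gw {f : ℤ → ℝ} (hf : ∀ n, |f n| ≤ 1) (κ : ℝ) {N H : ℕ} (hN : 1 ≤ N) (hH : 1 ≤ H) :
    |VV f κ H N - (∑ j ∈ range N, gw f H (⌈κ * N⌉ + (j : ℕ))) / N| ≤ 1 / N := by
  have hN0 : (0 : ℝ) < N := by exact_mod_cast hN
  have hH1 : (1 : ℝ) ≤ H := by exact_mod_cast hH
  have h1 := int_ceil (gw f H) (M := 1) (gw_mem hf hH) (κ * N) N
  have e1 : ∀ x : ℝ, (Ph f x H) ^ 2 = gw f H ⌈x⌉ := by
    intro x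
    unfold Ph gw
    rw [max_eq_left hH1, Int.ceil_add_natCast, Ico_range]
  unfold VV
  rw [intervalIntegral.integral_congr (fun x _ => e1 x), ← sub_div, abs_div, abs_of_pos hN0]
  exact div_le_div_of_nonneg_right h1 hN0.le

theorem Icc_shift (g : ℤ → ℝ) (N : ℕ) : ∑ m ∈ Finset.Icc 1 N, g ((1 : ℤ) * (m : ℕ) + 1) = ∑ j ∈ range N, g (0 + (j : ℕ) + (2 : ℕ)) := by
  have e2 : Finset.Icc 1 N = Finset.Ico 1 (N + 1) := by
    ext a; rw [Finset.mem_Icc, Finset.mem_Ico]; omega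
  rw [e2, Finset.sum_Ico_eq_sum_range, Nat.add_sub_cancel]
  apply sum_congr rfl
  intro i _
  congr 1
  push_cast
  ring

theorem Icc_shift' (g : ℤ → ℝ) (N : ℕ) : ∑ m ∈ Finset.Icc 1 N, g ((-1 : ℤ) * (m : ℕ) + 1) =
    ∑ j ∈ range N, g (-(N : ℤ) + (j : ℕ) + (1 : ℕ)) := by
  have e2 : Finset.Icc 1 N = Finset.Ico 1 (N + 1) := by
    ext a; rw [Finset.mem_Icc, Finset.mem_Ico]; omega
  rw [e2, Finset.sum_Ico_eq_sum_range, Nat.add_sub_cancel, ← Finset.sum_range_reflect]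
  apply sum_congr rfl
  intro i hi
  rw [mem_range] at hi
  congr 1
  have : ((N - 1 - i : ℕ) : ℤ) = (N : ℤ) - 1 - i := by omega
  push_cast
  rw [this]
  ring

theorem vr_gw {s : ℤ} (hs : s = 1 ∨ s = -1) (R : Set ℤ) {δ : ℝ} (hδ0 : 0 ≤ δ) (hδ1 : δ ≤ 1) {N H : ℕ} (hN : 1 ≤ N) (hH : 1 ≤ H)
    (hf : ∀ n, |fR s R δ n| ≤ 1) :
    |vr s R δ N H - (∑ j ∈ range N, gw (fR s R δ) H (⌈kS s * N⌉ + (j : ℕ))) / N| ≤ ((H : ℝ) + 4) / N := by
  classical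
  have hN0 : (0 : ℝ) < N := by exact_mod_cast hN
  have hH0 : (0 : ℝ) < H := by exact_mod_cast hH
  set f := fR s R δ with hfd
  -- the terms
  have h1 : ∀ m ∈ Finset.Icc 1 N, |(({h : ℕ | (1 ≤ h ∧ h ≤ H) ∧ s * (m : ℕ) + h ∈ R}.ncard : ℝ) / H - δ) ^ 2 - gw f H (s * (m : ℕ) + 1)| ≤
      (if m ≤ H then 1 else 0) := by
    intro m hm
    rw [Finset.mem_Icc] at hm
    have e0 := card_win R (s * (m : ℕ)) H
    have e0' : ({h : ℕ | (1 ≤ h ∧ h ≤ H) ∧ s * (m : ℕ) + h ∈ R}.ncard : ℝ) ≤ H := by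
      rw [e0]
      refine (sum_le_card_nsmul _ _ 1 (fun i _ => by split_ifs <;> norm_num)).trans ?_
      rw [card_range, nsmul_eq_mul, mul_one]
    have e0'' : (0 : ℝ) ≤ ({h : ℕ | (1 ≤ h ∧ h ≤ H) ∧ s * (m : ℕ) + h ∈ R}.ncard : ℝ) := by positivity
    have hb := gw_mem hf hH (s * (m : ℕ) + 1)
    by_cases hmH : m ≤ H
    · rw [if_pos hmH]
      have ha : 0 ≤ (({h : ℕ | (1 ≤ h ∧ h ≤ H) ∧ s * (m : ℕ) + h ∈ R}.ncard : ℝ) / H - δ) ^ 2 ∧
          (({h : ℕ | (1 ≤ h ∧ h ≤ H) ∧ s * (m : ℕ) + h ∈ R}.ncard : ℝ) / H - δ) ^ 2 ≤ 1 := by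
        refine ⟨sq_nonneg _, ?_⟩
        rw [← sq_abs, sq_le_one_iff₀ (abs_nonneg _), abs_le]
        have h2 : ({h : ℕ | (1 ≤ h ∧ h ≤ H) ∧ s * (m : ℕ) + h ∈ R}.ncard : ℝ) / H ≤ 1 := by
          rw [div_le_one hH0]; exact e0'
        have h3 : 0 ≤ ({h : ℕ | (1 ≤ h ∧ h ≤ H) ∧ s * (m : ℕ) + h ∈ R}.ncard : ℝ) / H := by positivity
        constructor <;> linarith
      rw [abs_le]
      constructor <;> linarith
    · rw [if_neg hmH]
      rw [e0]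
      unfold gw
      have e3 : (∑ i ∈ range H, (if s * (m : ℕ) + 1 + (i : ℕ) ∈ R then (1 : ℝ) else 0)) / H - δ =
          (∑ i ∈ range H, f (s * (m : ℕ) + 1 + (i : ℕ))) / H := by
        have e4 : ∑ i ∈ range H, f (s * (m : ℕ) + 1 + (i : ℕ)) = ∑ i ∈ range H, ((if s * (m : ℕ) + 1 + (i : ℕ) ∈ R then (1 : ℝ) else 0) - δ) := by
          apply sum_congr rfl
          intro i hi
          rw [mem_range] at hi
          rw [hfd]
          apply fR_pos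
          rcases hs with rfl | rfl
          · omega
          · omega
        rw [e4, sum_sub_distrib, sum_const, card_range, nsmul_eq_mul]
        field_simp
      rw [e3, sub_self, abs_zero]
  have h2 : |∑ m ∈ Finset.Icc 1 N, (({h : ℕ | (1 ≤ h ∧ h ≤ H) ∧ s * (m : ℕ) + h ∈ R}.ncard : ℝ) / H - δ) ^ 2 -
      ∑ m ∈ Finset.Icc 1 N, gw f H (s * (m : ℕ) + 1)| ≤ H := by
    rw [← sum_sub_distrib]
    refine (abs_sum_le_sum_abs _ _).trans ((sum_le_sum h1).trans ?_)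
    rw [← Finset.sum_filter]
    refine (le_of_eq (sum_const _)).trans ?_
    rw [nsmul_eq_mul, mul_one]
    have : #((Finset.Icc 1 N).filter (fun m => m ≤ H)) ≤ #(Finset.Icc 1 H) := by
      apply Finset.card_le_card
      intro m hm
      rw [Finset.mem_filter, Finset.mem_Icc] at hm
      rw [Finset.mem_Icc]
      omega
    rw [Nat.card_Icc, Nat.add_sub_cancel] at this
    exact_mod_cast this
  have hg1 : ∀ n, |gw f H n| ≤ 1 := by
    intro n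
    have := gw_mem hf hH n
    rw [abs_of_nonneg this.1]
    exact this.2
  have h3 : |∑ m ∈ Finset.Icc 1 N, gw f H (s * (m : ℕ) + 1) - ∑ j ∈ range N, gw f H (⌈kS s * N⌉ + (j : ℕ))| ≤ 4 := by
    rcases hs with rfl | rfl
    · rw [Icc_shift]
      have e : ⌈kS 1 * (N : ℝ)⌉ = 0 := by unfold kS; simp
      rw [e]
      have := shift_le (gw f H) hg1 0 N 2
      norm_num at this ⊢
      exact this
    · rw [Icc_shift']
      have e : ⌈kS (-1) * (N : ℝ)⌉ = -(N : ℤ) := by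
        unfold kS
        rw [if_neg (by norm_num)]
        have : (-1 : ℝ) * (N : ℝ) = ((-(N : ℤ) : ℤ) : ℝ) := by push_cast; ring
        rw [this, Int.ceil_intCast]
      rw [e]
      have := shift_le (gw f H) hg1 (-(N : ℤ)) N 1
      refine this.trans ?_
      norm_num
  unfold vr
  rw [← sub_div, abs_div, abs_of_pos hN0]
  apply div_le_div_of_nonneg_right _ hN0.le
  exact (abs_sub_le _ _ _).trans (add_le_add h2 h3)

theorem HN_facts {θ : ℝ} (hθ : 0 < θ) (_ : θ < 1) : ∀ᶠ N : ℕ in atTop, 1 ≤ ⌊(N : ℝ) ^ θ⌋₊ ∧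
    (N : ℝ) ^ θ / 2 ≤ (⌊(N : ℝ) ^ θ⌋₊ : ℝ) ∧ (⌊(N : ℝ) ^ θ⌋₊ : ℝ) ≤ 2 * (N : ℝ) ^ θ := by
  have h : Tendsto (fun N : ℕ => (N : ℝ) ^ θ) atTop atTop := (tendsto_rpow_atTop hθ).comp tendsto_natCast_atTop_atTop
  filter_upwards [h.eventually_ge_atTop 2] with N hN
  have h1 := Nat.lt_floor_add_one ((N : ℝ) ^ θ)
  have h2 := Nat.floor_le (show 0 ≤ (N : ℝ) ^ θ by linarith)
  refine ⟨?_, by linarith, by linarith⟩
  rw [Nat.one_le_floor_iff]
  linarith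

theorem HN_small {θ : ℝ} (_ : 0 < θ) (hθ1 : θ < 1) {ε : ℝ} (hε : 0 < ε) : ∀ᶠ N : ℕ in atTop, ((⌊(N : ℝ) ^ θ⌋₊ : ℝ) + 5) / N ≤ ε := by
  have h1 : Tendsto (fun N : ℕ => (N : ℝ) ^ (-(1 - θ))) atTop (nhds 0) :=
    (tendsto_rpow_neg_atTop (by linarith : 0 < 1 - θ)).comp tendsto_natCast_atTop_atTop
  have h2 : Tendsto (fun N : ℕ => (5 : ℝ) / N) atTop (nhds 0) := tendsto_const_div_atTop_nhds_zero_nat 5
  have h3 := h1.add h2
  rw [add_zero] at h3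
  filter_upwards [h3.eventually (gt_mem_nhds hε), eventually_ge_atTop 1] with N hN hN1
  have hN0 : (0 : ℝ) < N := by exact_mod_cast hN1
  refine le_trans ?_ hN.le
  rw [add_div]
  apply add_le_add _ le_rfl
  rw [div_le_iff₀ hN0]
  have e : (N : ℝ) ^ (-(1 - θ)) * N = (N : ℝ) ^ θ := by
    nth_rewrite 2 [← Real.rpow_one (N : ℝ)]
    rw [← Real.rpow_add hN0]
    congr 1; ring
  rw [e]
  exact Nat.floor_le (by positivity)

/-- (C3) -/
theorem t_VAR (hC : S_CENT) (hV : S_VLAW) : S_VAR := by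
  intro θ hθ hθ1 s hs ε hε
  obtain ⟨ψ, hψ, h1⟩ := hC
  have h2 := hV ψ hψ θ hθ hθ1 (ε / 2) (by positivity)
  filter_upwards [h2, HN_facts hθ hθ1, HN_small hθ hθ1 (show 0 < ε / 2 by positivity), eventually_ge_atTop 1] with N h2 hH hS hN R hR δ hδ
  obtain ⟨δ', d0, d1, d2, d3⟩ := h1 s hs R hR
  have hdd : δ' = δ := tendsto_nhds_unique d2 hδ
  subst hdd
  have hf := d3.iv.bd
  have g1 := h2 _ _ _ d3 _ hH.2.1 hH.2.2
  have g2 := VV_gw hf (kS s) hN hH.1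
  have g3 := vr_gw hs R d0 d1 hN hH.1 hf
  have e : ((⌊(N : ℝ) ^ θ⌋₊ : ℝ) + 5) / N = ((⌊(N : ℝ) ^ θ⌋₊ : ℝ) + 4) / N + 1 / N := by ring
  rw [e] at hS
  rw [abs_le] at g1 g2 g3 ⊢
  constructor <;> linarith

end Pool.Agent.J4H26.PC
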