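import Mathlib
import Pool.Agent.J4H26.PC.C3

set_option autoImplicit false

/-! Project PC: pairs of which exactly one member is in an invariant set. -/

namespace Pool.Agent.J4H26.PC

open Finset Filter Real
open Pool.Agent.J4H39 (T)
open Pool.Agent.J4H79.PC2 (int_ceil Ico_range shift_le)

/-- the sum of the squares of the differences -/
noncomputable def Phi (f : ℤ → ℝ) (H : ℕ) (n : ℤ) : ℝ := ∑ h ∈ Finset.Icc 1 H, (f n - f (n + (h : ℕ))) ^ 2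

theorem Phi_mem {f : ℤ → ℝ} (hf : ∀ n, |f n| ≤ 1) (H : ℕ) (n : ℤ) : 0 ≤ Phi f H n ∧ Phi f H n ≤ 4 * H := by
  unfold Phi
  refine ⟨sum_nonneg (fun _ _ => sq_nonneg _), ?_⟩
  have : ∀ h ∈ Finset.Icc 1 H, (f n - f (n + (h : ℕ))) ^ 2 ≤ 4 := by
    intro h _
    have h1 := abs_le.1 (hf n)
    have h2 := abs_le.1 (hf (n + (h : ℕ)))
    nlinarith
  refine (sum_le_card_nsmul _ _ _ this).trans ?_
  rw [Nat.card_Icc, nsmul_eq_mul, Nat.add_sub_cancel, mul_comm]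

open Classical in
theorem dif_eq {s : ℤ} (hs : s = 1 ∨ s = -1) (R : Set ℤ) (N H : ℕ) : dif s R N H =
    (∑ m ∈ Finset.Icc 1 N, ∑ h ∈ Finset.Icc 1 H, (if ¬ (s * (m : ℕ) ∈ R ↔ s * (m : ℕ) + (h : ℕ) ∈ R) then (1 : ℝ) else 0)) / (N * H) := by
  unfold dif
  congr 1
  have hss : ∀ x : ℤ, s * (s * x) = x := by
    intro x; rcases hs with rfl | rfl <;> ring
  set S := ((Finset.Icc 1 N) ×ˢ (Finset.Icc 1 H)).filter (fun q : ℕ × ℕ => ¬ (s * (q.1 : ℕ) ∈ R ↔ s * (q.1 : ℕ) + (q.2 : ℕ) ∈ R)) with hS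
  have hinj : Function.Injective (fun q : ℕ × ℕ => ((s * (q.1 : ℕ) : ℤ), q.2)) := by
    rintro ⟨a, b⟩ ⟨c, d⟩ h
    simp only [Prod.mk.injEq] at h
    obtain ⟨h1, h2⟩ := h
    have h3 := hss a
    rw [h1, hss c] at h3
    ext
    · simp only; omega
    · exact h2
  have e1 : {p : ℤ × ℕ | (0 < s * p.1 ∧ s * p.1 ≤ N) ∧ (1 ≤ p.2 ∧ p.2 ≤ H) ∧ ¬ (p.1 ∈ R ↔ p.1 + p.2 ∈ R)} =
      (fun q : ℕ × ℕ => ((s * (q.1 : ℕ) : ℤ), q.2)) '' (S : Set (ℕ × ℕ)) := by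
    ext ⟨n, h⟩
    simp only [Set.mem_setOf_eq, Set.mem_image, hS, Finset.coe_filter, Finset.mem_product, Finset.mem_Icc, Prod.exists, Prod.mk.injEq]
    constructor
    · rintro ⟨⟨h1, h2⟩, h3, h4⟩
      have e : s * (((s * n).toNat : ℕ) : ℤ) = n := by
        rw [Int.toNat_of_nonneg h1.le, hss]
      refine ⟨(s * n).toNat, h, ⟨⟨⟨by omega, by omega⟩, h3⟩, ?_⟩, e, rfl⟩
      rw [e]; exact h4
    · rintro ⟨m, h', ⟨⟨h1, h2⟩, h3⟩, h4, h5⟩
      subst h5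
      rw [← h4]
      refine ⟨?_, h2, h3⟩
      rw [hss]
      constructor <;> omega
  rw [e1, Set.ncard_image_of_injective _ hinj, Set.ncard_coe_finset, hS, Finset.card_filter, Finset.sum_product]
  push_cast
  rfl

theorem dif_Phi {s : ℤ} (hs : s = 1 ∨ s = -1) (R : Set ℤ) {δ : ℝ} {N H : ℕ} (hN : 1 ≤ N) (hH : 1 ≤ H)
    (hf : ∀ n, |fR s R δ n| ≤ 1) :
    |dif s R N H - (∑ n ∈ Finset.Ico ⌈kS s * N⌉ ⌈kS s * N + N⌉, Phi (fR s R δ) H n) / (N * H)| ≤ (4 * (H : ℝ) + 8) / N := by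
  classical
  have hN0 : (0 : ℝ) < N := by exact_mod_cast hN
  have hH0 : (0 : ℝ) < H := by exact_mod_cast hH
  set f := fR s R δ with hfd
  rw [dif_eq hs]
  have h1 : ∀ m ∈ Finset.Icc 1 N, |∑ h ∈ Finset.Icc 1 H, (if ¬ (s * (m : ℕ) ∈ R ↔ s * (m : ℕ) + (h : ℕ) ∈ R) then (1 : ℝ) else 0) -
      Phi f H (s * (m : ℕ))| ≤ (if m ≤ H then 4 * (H : ℝ) else 0) := by
    intro m hm
    rw [Finset.mem_Icc] at hm
    have hb := Phi_mem hf H (s * (m : ℕ))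
    by_cases hmH : m ≤ H
    · rw [if_pos hmH]
      have ha0 : (0 : ℝ) ≤ ∑ h ∈ Finset.Icc 1 H, (if ¬ (s * (m : ℕ) ∈ R ↔ s * (m : ℕ) + (h : ℕ) ∈ R) then (1 : ℝ) else 0) :=
        sum_nonneg (fun _ _ => by split_ifs <;> norm_num)
      have ha1 : ∑ h ∈ Finset.Icc 1 H, (if ¬ (s * (m : ℕ) ∈ R ↔ s * (m : ℕ) + (h : ℕ) ∈ R) then (1 : ℝ) else 0) ≤ H := by
        refine (sum_le_card_nsmul _ _ 1 (fun i _ => by split_ifs <;> norm_num)).trans ?_
        rw [Nat.card_Icc, nsmul_eq_mul, mul_one, Nat.add_sub_cancel]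
      rw [abs_le]
      constructor <;> linarith
    · rw [if_neg hmH]
      unfold Phi
      have e3 : ∑ h ∈ Finset.Icc 1 H, (if ¬ (s * (m : ℕ) ∈ R ↔ s * (m : ℕ) + (h : ℕ) ∈ R) then (1 : ℝ) else 0) =
          ∑ h ∈ Finset.Icc 1 H, (f (s * (m : ℕ)) - f (s * (m : ℕ) + (h : ℕ))) ^ 2 := by
        apply sum_congr rfl
        intro h hh
        rw [Finset.mem_Icc] at hh
        have p1 : 0 < s * (s * (m : ℕ)) := by rcases hs with rfl | rfl <;> omega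
        have p2 : 0 < s * (s * (m : ℕ) + (h : ℕ)) := by rcases hs with rfl | rfl <;> omega
        rw [hfd, fR_pos p1, fR_pos p2]
        by_cases c1 : s * (m : ℕ) ∈ R
        · by_cases c2 : s * (m : ℕ) + (h : ℕ) ∈ R
          · rw [if_neg (by tauto), if_pos c1, if_pos c2]; ring
          · rw [if_pos (by tauto), if_pos c1, if_neg c2]; ring
        · by_cases c2 : s * (m : ℕ) + (h : ℕ) ∈ R
          · rw [if_pos (by tauto), if_neg c1, if_pos c2]; ring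
          · rw [if_neg (by tauto), if_neg c1, if_neg c2]; ring
      rw [e3, sub_self, abs_zero]
  have h2 : |∑ m ∈ Finset.Icc 1 N, ∑ h ∈ Finset.Icc 1 H, (if ¬ (s * (m : ℕ) ∈ R ↔ s * (m : ℕ) + (h : ℕ) ∈ R) then (1 : ℝ) else 0) -
      ∑ m ∈ Finset.Icc 1 N, Phi f H (s * (m : ℕ))| ≤ H * (4 * H) := by
    rw [← sum_sub_distrib]
    refine (abs_sum_le_sum_abs _ _).trans ((sum_le_sum h1).trans ?_)
    rw [← Finset.sum_filter]
    refine (le_of_eq (sum_const _)).trans ?_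
    rw [nsmul_eq_mul]
    apply mul_le_mul_of_nonneg_right _ (by positivity)
    have : #((Finset.Icc 1 N).filter (fun m => m ≤ H)) ≤ #(Finset.Icc 1 H) := by
      apply Finset.card_le_card
      intro m hm
      rw [Finset.mem_filter, Finset.mem_Icc] at hm
      rw [Finset.mem_Icc]
      omega
    rw [Nat.card_Icc, Nat.add_sub_cancel] at this
    exact_mod_cast this
  have h3 : |∑ m ∈ Finset.Icc 1 N, Phi f H (s * (m : ℕ)) - ∑ n ∈ Finset.Ico ⌈kS s * N⌉ ⌈kS s * N + N⌉, Phi f H n| ≤ 8 * H := by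
    have e2 : Finset.Icc 1 N = Finset.Ico 1 (N + 1) := by
      ext a; rw [Finset.mem_Icc, Finset.mem_Ico]; omega
    rw [Int.ceil_add_natCast, Ico_range]
    rcases hs with rfl | rfl
    · have e : ⌈kS 1 * (N : ℝ)⌉ = 0 := by unfold kS; simp
      rw [e, e2, Finset.sum_Ico_eq_sum_range, Nat.add_sub_cancel]
      have g := shift_le (fun n => Phi f H n / (4 * H)) (fun n => by
        have hb := Phi_mem hf H n
        rw [abs_of_nonneg (div_nonneg hb.1 (by positivity)), div_le_one (by positivity)]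
        exact hb.2) 0 N 1
      rw [← sum_div, ← sum_div, ← sub_div, abs_div, abs_of_pos (show (0 : ℝ) < 4 * H by positivity), div_le_iff₀ (by positivity)] at g
      have e5 : ∑ i ∈ range N, Phi f H (1 * ((1 + i : ℕ) : ℤ)) = ∑ j ∈ range N, Phi f H (0 + (j : ℕ) + (1 : ℕ)) := by
        apply sum_congr rfl
        intro i _
        congr 1
        push_cast; ring
      rw [e5]
      refine g.trans ?_
      push_cast
      linarith
    · have e : ⌈kS (-1) * (N : ℝ)⌉ = -(N : ℤ) := by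
        unfold kS
        rw [if_neg (by norm_num)]
        have : (-1 : ℝ) * (N : ℝ) = ((-(N : ℤ) : ℤ) : ℝ) := by push_cast; ring
        rw [this, Int.ceil_intCast]
      rw [e, e2, Finset.sum_Ico_eq_sum_range, Nat.add_sub_cancel, ← Finset.sum_range_reflect]
      have e5 : ∑ j ∈ range N, Phi f H (-1 * ((1 + (N - 1 - j) : ℕ) : ℤ)) = ∑ j ∈ range N, Phi f H (-(N : ℤ) + (j : ℕ)) := by
        apply sum_congr rfl
        intro i hi
        rw [mem_range] at hi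
        congr 1
        omega
      rw [e5, sub_self, abs_zero]
      positivity
  rw [← sub_div, abs_div, abs_of_pos (show (0 : ℝ) < N * H by positivity)]
  have h4 := (abs_sub_le _ _ _).trans (add_le_add h2 h3)
  rw [div_le_div_iff₀ (by positivity) hN0]
  calc _ ≤ ((H : ℝ) * (4 * H) + 8 * H) * N := mul_le_mul_of_nonneg_right h4 hN0.le
    _ = (4 * (H : ℝ) + 8) * (N * H) := by ring

theorem Phi_sum {f : ℤ → ℝ} (hf : ∀ n, |f n| ≤ 1) (κ : ℝ) {N H : ℕ} (hN : 1 ≤ N) (hH : 1 ≤ H) :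
    |(∑ n ∈ Finset.Ico ⌈κ * N⌉ ⌈κ * N + N⌉, Phi f H n) / (N * H) - (2 * cc f f κ N 0 0 -
      2 * ((∑ n ∈ Finset.Ico ⌈κ * N⌉ ⌈κ * N + N⌉, ∑ h ∈ Finset.Icc 1 H, f n * f (n + (h : ℕ))) / (N * H)))| ≤ 2 * (H : ℝ) / N := by
  have hN0 : (0 : ℝ) < N := by exact_mod_cast hN
  have hN1 : (1 : ℝ) ≤ N := by exact_mod_cast hN
  have hH0 : (0 : ℝ) < H := by exact_mod_cast hH
  obtain ⟨I, hI⟩ : ∃ I, I = Finset.Ico ⌈κ * N⌉ ⌈κ * N + N⌉ := ⟨_, rfl⟩
  have e1 : cc f f κ N 0 0 = (∑ n ∈ I, (f n) ^ 2) / N := by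
    unfold cc
    rw [max_eq_left hN1, hI]
    congr 1
    apply sum_congr rfl
    intro n _
    rw [pow_zero, one_mul, add_zero, sq]
  obtain ⟨A, hA⟩ : ∃ A, A = ∑ n ∈ I, (f n) ^ 2 := ⟨_, rfl⟩
  obtain ⟨P, hP⟩ : ∃ P, P = ∑ n ∈ I, ∑ h ∈ Finset.Icc 1 H, f n * f (n + (h : ℕ)) := ⟨_, rfl⟩
  obtain ⟨B, hB⟩ : ∃ B, B = ∑ n ∈ I, ∑ h ∈ Finset.Icc 1 H, (f (n + (h : ℕ))) ^ 2 := ⟨_, rfl⟩
  have e2 : ∑ n ∈ I, Phi f H n = H * A + B - 2 * P := by
    rw [hA, hB, hP, mul_sum, mul_sum, ← sum_add_distrib, ← sum_sub_distrib]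
    apply sum_congr rfl
    intro n _
    unfold Phi
    have : (H : ℝ) * (f n) ^ 2 = ∑ h ∈ Finset.Icc 1 H, (f n) ^ 2 := by
      rw [sum_const, Nat.card_Icc, Nat.add_sub_cancel, nsmul_eq_mul]
    rw [this, mul_sum, ← sum_add_distrib, ← sum_sub_distrib]
    apply sum_congr rfl
    intro h _
    ring
  have e3 : |B - H * A| ≤ 2 * (H : ℝ) * H := by
    rw [hB, hA, sum_comm]
    have : (H : ℝ) * ∑ n ∈ I, (f n) ^ 2 = ∑ h ∈ Finset.Icc 1 H, ∑ n ∈ I, (f n) ^ 2 := by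
      rw [sum_const, Nat.card_Icc, Nat.add_sub_cancel, nsmul_eq_mul]
    rw [this, ← sum_sub_distrib]
    refine (abs_sum_le_sum_abs _ _).trans ?_
    have h1 : ∀ h ∈ Finset.Icc 1 H, |∑ n ∈ I, (f (n + (h : ℕ))) ^ 2 - ∑ n ∈ I, (f n) ^ 2| ≤ 2 * (H : ℝ) := by
      intro h hh
      rw [Finset.mem_Icc] at hh
      rw [hI, Int.ceil_add_natCast, Ico_range (fun n => (f (n + (h : ℕ))) ^ 2), Ico_range (fun n => (f n) ^ 2)]
      have := shift_le (fun n => (f n) ^ 2) (fun n => by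
        rw [abs_of_nonneg (sq_nonneg _), ← sq_abs, sq_le_one_iff₀ (abs_nonneg _)]
        exact hf n) ⌈κ * N⌉ N h
      refine this.trans ?_
      have : (h : ℝ) ≤ H := by exact_mod_cast hh.2
      linarith
    refine (sum_le_card_nsmul _ _ _ h1).trans ?_
    rw [Nat.card_Icc, Nat.add_sub_cancel, nsmul_eq_mul]
    linarith
  rw [← hI, e1, e2, ← hA, ← hP]
  have e4 : (H * A + B - 2 * P) / (N * H) - (2 * (A / N) - 2 * (P / (N * H))) = (B - H * A) / (N * H) := by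
    field_simp
    ring
  rw [e4, abs_div, abs_of_pos (show (0 : ℝ) < N * H by positivity), div_le_div_iff₀ (by positivity) hN0]
  calc |B - H * A| * N ≤ (2 * (H : ℝ) * H) * N := mul_le_mul_of_nonneg_right e3 hN0.le
    _ = 2 * (H : ℝ) * (N * H) := by ring

/-- (C2) -/
theorem t_DIF (hC : S_CENT) (hP : S_PAIRS) : S_DIF := by
  intro θ hθ hθ1 s hs ε hε
  obtain ⟨ψ, hψ, h1⟩ := hC
  have h2 := hP ψ hψ θ hθ hθ1 (ε / 8) (by positivity)
  have h3 : ∀ᶠ N : ℕ in atTop, ψ N ≤ ε / 8 := by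
    have := (hψ.comp tendsto_natCast_atTop_atTop).eventually (gt_mem_nhds (show (0 : ℝ) < ε / 8 by positivity))
    exact this.mono (fun N hN => hN.le)
  filter_upwards [h2, h3, HN_facts hθ hθ1, HN_small hθ hθ1 (show 0 < ε / 32 by positivity), eventually_ge_atTop 2] with N h2 h3 hH hS hN R hR δ hδ
  obtain ⟨δ', d0, d1, d2, d3⟩ := h1 s hs R hR
  have hdd : δ' = δ := tendsto_nhds_unique d2 hδ
  subst hdd
  have hf := d3.iv.bd
  have hN1 : 1 ≤ N := by omega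
  have hN0 : (0 : ℝ) < N := by exact_mod_cast hN1
  have hN2 : (2 : ℝ) ≤ N := by exact_mod_cast hN
  set H := ⌊(N : ℝ) ^ θ⌋₊ with hHd
  have g1 := h2 _ _ _ d3
  have g2 := dif_Phi hs R (δ := δ') hN1 hH.1 hf
  have g3 := Phi_sum hf (kS s) hN1 hH.1
  have g4 := (d3.sq N hN2).trans h3
  have g5 : (4 * (H : ℝ) + 8) / N + 2 * (H : ℝ) / N ≤ ε / 4 := by
    have e1 : (4 * (H : ℝ) + 8) / N + 2 * (H : ℝ) / N = (6 * (H : ℝ) + 8) / N := by ring
    have e2 : (6 * (H : ℝ) + 8) / N ≤ 8 * (((H : ℝ) + 5) / N) := by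
      rw [mul_div_assoc']
      apply div_le_div_of_nonneg_right _ hN0.le
      have : (0 : ℝ) ≤ H := by positivity
      linarith
    rw [e1]
    linarith
  rw [abs_le] at g1 g2 g3 g4 ⊢
  constructor <;> linarith

end Pool.Agent.J4H26.PC
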