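import Mathlib
import Pool.Agent.J4H26.PC.B8
import Pool.Agent.J4H26.PC.B11
import Pool.Agent.J4H26.PC.C2
import Pool.Agent.J4H79.PC2.A0
import Pool.Agent.J4H79.PC2.Stm
import Pool.Agent.J4H79.PC2.Sa
import Pool.Agent.J4H79.PC2.Pairs
import Pool.Agent.J4H45.PC.St1
import Pool.Agent.J4H94.PC.Ft
import Pool.Agent.J4H94.PC.G1p
import Pool.Agent.J4H94.PC.Corr
import Pool.Agent.J4H95.PC.Law
import Pool.Agent.J4H95.PC.Lip
import Pool.Agent.J4H95.PC.Gam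
import Pool.Agent.J4H55.PC.B2
import Pool.Agent.J4H55.PC.B7
import Pool.Agent.J4H8.PC.Gt

set_option autoImplicit false

/-! Project PC: assembly. -/

namespace Pool.Agent.J4H26.PC

theorem a_DVR : S_DVR := Pool.Agent.J4H79.PC2.t_DVR
theorem a_LABR : S_LABR := Pool.Agent.J4H79.PC2.t_LABR
theorem a_ST1 : S_ST1 := Pool.Agent.J4H45.PC.t_ST1 a_DVR a_LABR
theorem a_STM : S_STM := Pool.Agent.J4H79.PC2.t_STM a_ST1
theorem a_FT : S_FT := Pool.Agent.J4H94.PC.t_FT a_DVR a_LABR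
theorem a_GAM : S_GAM := Pool.Agent.J4H95.PC.t_GAM
theorem a_LIP : S_LIP := Pool.Agent.J4H95.PC.t_LIP
theorem a_LAW : S_LAW := Pool.Agent.J4H95.PC.t_LAW
theorem a_KEYR : S_KEYR := t_KEYR a_ST1 (t_BASER a_STM a_FT a_GAM a_LIP a_LAW)
theorem a_A : S_A := Pool.Agent.J4H79.PC2.t_A a_KEYR
theorem a_UNM : S_UNM := t_UNM a_STM a_FT a_GAM a_LIP a_LAW a_A
theorem a_G1 : S_G1 := Pool.Agent.J4H55.PC.t_G1 (Pool.Agent.J4H94.PC.t_G1P a_DVR a_LABR)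
theorem a_GT : S_GT := Pool.Agent.J4H8.PC.t_GT a_G1
theorem a_CORR : S_CORR := Pool.Agent.J4H94.PC.t_CORR a_GT a_UNM
theorem a_VLAW : S_VLAW := Pool.Agent.J4H55.PC.t_VLAW a_STM a_GAM a_CORR
theorem a_PAIRS : S_PAIRS := Pool.Agent.J4H79.PC2.t_PAIRS a_VLAW
theorem a_DIF (hC : S_CENT) : S_DIF := t_DIF hC a_PAIRS
theorem a_VAR (hC : S_CENT) : S_VAR := t_VAR hC a_VLAW

end Pool.Agent.J4H26.PC
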