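import Mathlib
import Pool.Agent.J4H26.PC.Fin
import Pool.Agent.J4H79.PC2.Cent

set_option autoImplicit false

/-! Project PC: the main theorems. -/

namespace Pool.Agent.J4H26.PC

open Filter Real

theorem a_CENT : S_CENT := Pool.Agent.J4H79.PC2.t_CENT

theorem main_dens (s : ℤ) (hs : s = 1 ∨ s = -1) (R : Set ℤ) (hR : InvS s R) :
    ∃ δ : ℝ, Tendsto (fun N : ℕ => ct s R N / N) atTop (nhds δ) := by
  obtain ⟨ψ, _, h⟩ := a_CENT
  obtain ⟨δ, _, _, h2, _⟩ := h s hs R hR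
  exact ⟨δ, h2⟩

theorem main_DIF : S_DIF := a_DIF a_CENT

theorem main_VAR : S_VAR := a_VAR a_CENT

end Pool.Agent.J4H26.PC
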